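import Mathlib

set_option autoImplicit false

/-! Algebra: retracts and finite index subgroups of finitely presented groups, and a finitely
presented group carrying a universal family for the conjugation relations of a merge system. -/

namespace Pool.Agent.H828Z.MaxF

/-- a retract of a finitely presented group is finitely presented -/
theorem fp_retract {G H : Type*} [Group G] [Group H] [hG : Group.IsFinitelyPresented G]
    (π : G →* H) (σ : H →* G) (h : ∀ x, π (σ x) = x) : Group.IsFinitelyPresented H := by
  obtain ⟨n, φ, hφ, -⟩ := hG.out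
  refine Group.IsFinitelyPresented.of_surjective π (fun x => ⟨σ x, h x⟩) ?_
  let S : Set G := Set.range fun i : Fin n => (φ (FreeGroup.of i))⁻¹ * σ (π (φ (FreeGroup.of i)))
  refine ⟨S, Set.finite_range _, le_antisymm ?_ ?_⟩
  · apply Subgroup.normalClosure_le_normal
    rintro _ ⟨i, rfl⟩
    simp [MonoidHom.mem_ker, h]
  · have key : (QuotientGroup.mk' (Subgroup.normalClosure S)).comp φ =
        ((QuotientGroup.mk' (Subgroup.normalClosure S)).comp (σ.comp π)).comp φ := by
      ext i
      simp only [MonoidHom.comp_apply, QuotientGroup.mk'_apply]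
      rw [QuotientGroup.eq]
      exact Subgroup.subset_normalClosure ⟨i, rfl⟩
    intro g hg
    obtain ⟨w, rfl⟩ := hφ g
    have h1 := DFunLike.congr_fun key w
    simp only [MonoidHom.comp_apply, QuotientGroup.mk'_apply] at h1
    rw [MonoidHom.mem_ker.1 hg, map_one] at h1
    exact (QuotientGroup.eq_one_iff _).1 h1

/-- a finitely generated free group is finitely presented -/
theorem fp_free (H : Type) [Group H] [IsFreeGroup H] [hfg : Group.FG H] :
    Group.IsFinitelyPresented H := by
  classical
  let e := IsFreeGroup.toFreeGroup H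
  have hfg' : Group.FG (FreeGroup (IsFreeGroup.Generators H)) :=
    Group.fg_of_surjective (f := e.toMonoidHom) e.surjective
  obtain ⟨S, hS⟩ := hfg'.out
  let T : Finset (IsFreeGroup.Generators H) := S.biUnion fun w => (w.toWord.map Prod.fst).toFinset
  have hfin : Finite (IsFreeGroup.Generators H) := by
    have : ∀ a : IsFreeGroup.Generators H, a ∈ T := by
      intro a
      by_contra ha
      let f : FreeGroup (IsFreeGroup.Generators H) →* Multiplicative ℤ :=
        FreeGroup.lift fun b => if b = a then Multiplicative.ofAdd 1 else 1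
      have h1 : ∀ w ∈ S, f w = 1 := by
        intro w hw
        rw [← FreeGroup.mk_toWord (x := w), FreeGroup.lift_mk]
        apply List.prod_eq_one
        intro x hx
        obtain ⟨p, hp, rfl⟩ := List.mem_map.1 hx
        have : p.1 ≠ a := by
          rintro rfl
          exact ha (Finset.mem_biUnion.2 ⟨w, hw, List.mem_toFinset.2 (List.mem_map.2 ⟨p, hp, rfl⟩)⟩)
        simp [this]
      have h2 : Subgroup.closure (S : Set _) ≤ f.ker := (Subgroup.closure_le _).2 h1
      rw [hS] at h2
      have h3 : f (FreeGroup.of a) = 1 := h2 (Subgroup.mem_top _)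
      simp [f] at h3
    exact Finite.of_surjective (fun t : T => t.1) fun a => ⟨⟨a, this a⟩, rfl⟩
  exact Group.IsFinitelyPresented.equiv e.symm

/-- a finite index subgroup of a finitely presented group is finitely presented -/
theorem fp_finiteIndex {G : Type} [Group G] [hG : Group.IsFinitelyPresented G] (H : Subgroup G)
    [H.FiniteIndex] : Group.IsFinitelyPresented H := by
  obtain ⟨n, φ, hφ, R, hR, hRk⟩ := hG.out
  let K : Subgroup (FreeGroup (Fin n)) := H.comap φ
  have hKi : K.FiniteIndex := ⟨by
    rw [Subgroup.index_comap_of_surjective H hφ]; exact Subgroup.FiniteIndex.index_ne_zero⟩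
  have hKfg : Group.FG K := Subgroup.fg_of_index_ne_zero K
  have hKfp : Group.IsFinitelyPresented K := fp_free K
  let ψ : K →* H := (φ.comp K.subtype).codRestrict H fun x => x.2
  have hψ : Function.Surjective ψ := by
    rintro ⟨y, hy⟩
    obtain ⟨w, rfl⟩ := hφ y
    exact ⟨⟨w, hy⟩, rfl⟩
  refine Group.IsFinitelyPresented.of_surjective ψ hψ ?_
  have hker : φ.ker ≤ K := fun x hx => by
    show φ x ∈ H
    rw [MonoidHom.mem_ker.1 hx]; exact H.one_mem
  have hRker : ∀ r ∈ R, r ∈ φ.ker := fun r hr => hRk ▸ Subgroup.subset_normalClosure hr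
  have hconj : ∀ (g : FreeGroup (Fin n)) r, r ∈ R → g⁻¹ * r * g ∈ φ.ker := by
    intro g r hr
    have := hRker r hr
    simp [MonoidHom.mem_ker] at this ⊢
    simp [this]
  have : Finite R := hR
  let s : (FreeGroup (Fin n) ⧸ K) × R → K := fun p =>
    ⟨(p.1.out)⁻¹ * p.2.1 * p.1.out, hker (hconj _ _ p.2.2)⟩
  refine ⟨Set.range s, Set.finite_range _, le_antisymm ?_ ?_⟩
  · apply Subgroup.normalClosure_le_normal
    rintro _ ⟨p, rfl⟩
    apply Subtype.ext
    exact hconj _ _ p.2.2
  · let N : Subgroup (FreeGroup (Fin n)) := (Subgroup.normalClosure (Set.range s)).map K.subtype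
    have h1 : Subgroup.closure (Group.conjugatesOfSet R) ≤ N := by
      rw [Subgroup.closure_le]
      intro x hx
      obtain ⟨r, hr, hc⟩ := Group.mem_conjugatesOfSet_iff.1 hx
      obtain ⟨c, rfl⟩ := isConj_iff.1 hc
      obtain ⟨k, hk⟩ := QuotientGroup.mk_out_eq_mul K c⁻¹
      refine ⟨k * s (QuotientGroup.mk c⁻¹, ⟨r, hr⟩) * k⁻¹,
        Subgroup.normalClosure_normal.conj_mem _
          (Subgroup.subset_normalClosure (Set.mem_range_self _)) k, ?_⟩
      simp only [s, Subgroup.coe_subtype, Subgroup.coe_mul, Subgroup.coe_inv, hk]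
      group
    intro x hx
    have h2 : (x : FreeGroup (Fin n)) ∈ φ.ker := congrArg Subtype.val hx
    rw [← hRk] at h2
    obtain ⟨y, hy, hyx⟩ := h1 h2
    have : y = x := Subtype.ext hyx
    exact this ▸ hy

section merge

variable {L R : Type} (a b e : R → L)

/-- the conjugation relations -/
def Rel {H : Type*} [Group H] (Y : R → List L → H) : Prop :=
  ∀ (r r' : R) (v w : List L),
    Y r (v ++ a r' :: b r' :: w) = (Y r' w)⁻¹ * Y r (v ++ e r' :: w) * Y r' w

abbrev Gen (L R : Type) := R × {W : List L // W.length ≤ 4}

instance [Finite L] : Finite {W : List L // W.length ≤ 4} :=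
  (List.finite_length_le L 4).to_subtype

/-- generator, for short words -/
def gen (r : R) (W : List L) : FreeGroup (Gen L R) :=
  if h : W.length ≤ 4 then FreeGroup.of (r, ⟨W, h⟩) else 1

def rels : Set (FreeGroup (Gen L R)) :=
  Set.range fun p : R × R × {W : List L // W.length ≤ 4} × {W : List L // W.length ≤ 4} =>
    if p.2.2.1.1.length + 2 + p.2.2.2.1.length ≤ 4 then
      (gen p.1 (p.2.2.1.1 ++ a p.2.1 :: b p.2.1 :: p.2.2.2.1))⁻¹ *
        ((gen p.2.1 p.2.2.2.1)⁻¹ * gen p.1 (p.2.2.1.1 ++ e p.2.1 :: p.2.2.2.1) *
          gen p.2.1 p.2.2.2.1)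
    else 1

variable (μ : L → L → R)

/-- the family in the finitely presented group -/
noncomputable def XX : ℕ → R → List L → PresentedGroup (rels a b e)
  | 0, r, W => PresentedGroup.mk _ (gen r W)
  | n + 1, r, W =>
    if W.length ≤ 4 then PresentedGroup.mk _ (gen r W) else
      match W with
      | p :: q :: w => (XX n (μ p q) w)⁻¹ * XX n r (e (μ p q) :: w) * XX n (μ p q) w
      | _ => 1

theorem XX_short (n : ℕ) (r : R) (W : List L) (h : W.length ≤ 4) :
    XX a b e μ n r W = PresentedGroup.mk _ (gen r W) := by
  cases n with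
  | zero => rfl
  | succ n => simp [XX, h]

theorem XX_stab (n : ℕ) : ∀ (r : R) (W : List L), W.length ≤ n →
    XX a b e μ (n + 1) r W = XX a b e μ n r W := by
  induction n with
  | zero =>
    intro r W h
    rw [XX_short, XX_short] <;> omega
  | succ n ih =>
    intro r W h
    by_cases h4 : W.length ≤ 4
    · rw [XX_short _ _ _ _ _ _ _ h4, XX_short _ _ _ _ _ _ _ h4]
    · match W, h, h4 with
      | [], _, h4 => simp at h4
      | [_], _, h4 => simp at h4
      | p :: q :: w, h, h4 =>
        simp only [List.length_cons] at h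
        rw [XX, XX]
        simp only [if_neg h4]
        rw [ih _ w (by omega), ih _ (_ :: w) (by simp; omega)]

theorem XX_stab' (n m : ℕ) (r : R) (W : List L) (h : W.length ≤ n) :
    XX a b e μ (n + m) r W = XX a b e μ n r W := by
  induction m with
  | zero => rfl
  | succ m ih => rw [← Nat.add_assoc, XX_stab _ _ _ _ _ _ _ (by omega), ih]

noncomputable def XF (r : R) (W : List L) : PresentedGroup (rels a b e) :=
  XX a b e μ W.length r W

theorem XF_short (r : R) (W : List L) (h : W.length ≤ 4) :
    XF a b e μ r W = PresentedGroup.mk _ (gen r W) := XX_short _ _ _ _ _ _ _ h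

theorem XF_long (r : R) (p q : L) (w : List L) (h : ¬ (p :: q :: w).length ≤ 4) :
    XF a b e μ r (p :: q :: w) =
      (XF a b e μ (μ p q) w)⁻¹ * XF a b e μ r (e (μ p q) :: w) * XF a b e μ (μ p q) w := by
  unfold XF
  rw [show (p :: q :: w).length = (w.length + 1) + 1 from rfl, XX]
  simp only [if_neg h]
  rw [XX_stab _ _ _ _ _ _ w le_rfl]
  rfl

theorem XF_rel (hμ : ∀ p q, a (μ p q) = p ∧ b (μ p q) = q) : Rel a b e (XF a b e μ) := by
  have main : ∀ n, ∀ (r r' : R) (v w : List L), v.length + w.length = n →
      XF a b e μ r (v ++ a r' :: b r' :: w) =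
        (XF a b e μ r' w)⁻¹ * XF a b e μ r (v ++ e r' :: w) * XF a b e μ r' w := by
    intro n
    induction n using Nat.strong_induction_on with
    | _ n ih =>
      -- two disjoint merges give the same value
      have disj : ∀ (r r1 r2 : R) (v m w : List L), v.length + m.length + 2 + w.length = n →
          (XF a b e μ r1 (m ++ a r2 :: b r2 :: w))⁻¹ *
            XF a b e μ r (v ++ e r1 :: (m ++ a r2 :: b r2 :: w)) *
              XF a b e μ r1 (m ++ a r2 :: b r2 :: w) =
          (XF a b e μ r2 w)⁻¹ * XF a b e μ r ((v ++ a r1 :: b r1 :: m) ++ e r2 :: w) *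
            XF a b e μ r2 w := by
        intro r r1 r2 v m w hn
        have h1 := ih (m.length + w.length) (by omega) r1 r2 m w rfl
        have h2 := ih ((v ++ e r1 :: m).length + w.length) (by simp; omega) r r2 (v ++ e r1 :: m) w rfl
        have h3 := ih (v.length + (m ++ e r2 :: w).length) (by simp; omega) r r1 v (m ++ e r2 :: w) rfl
        simp only [List.append_assoc, List.cons_append] at h2 h3 ⊢
        rw [h1, h2, h3]
        group
      intro r r' v w hn
      by_cases h4 : n + 2 ≤ 4
      · rw [XF_short _ _ _ _ _ _ (by simp; omega), XF_short _ _ _ _ _ _ (by omega),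
          XF_short _ _ _ _ _ _ (by simp; omega)]
        have : (gen r (v ++ a r' :: b r' :: w))⁻¹ *
            ((gen r' w)⁻¹ * gen r (v ++ e r' :: w) * gen r' w) ∈ rels a b e :=
          ⟨(r, r', ⟨v, by omega⟩, ⟨w, by omega⟩), by simp only; rw [if_pos (by omega)]⟩
        have h5 := PresentedGroup.one_of_mem this
        rw [map_mul, map_inv, inv_mul_eq_one] at h5
        rw [h5]; simp
      · -- first the case of a long prefix
        have long : ∀ (r' : R) (p q : L) (m w : List L), m.length + 2 + w.length = n →
            XF a b e μ r ((p :: q :: m) ++ a r' :: b r' :: w) =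
              (XF a b e μ r' w)⁻¹ * XF a b e μ r ((p :: q :: m) ++ e r' :: w) *
                XF a b e μ r' w := by
          intro r' p q m w hm
          have h1 := disj r (μ p q) r' [] m w (by simpa using hm)
          rw [(hμ p q).1, (hμ p q).2] at h1
          simp only [List.nil_append] at h1
          rw [← h1]
          simp only [List.cons_append]
          rw [XF_long _ _ _ _ _ _ _ _ (by simp; omega)]
        by_cases hv : 2 ≤ v.length
        · match v, hn, hv with
          | p :: q :: m, hn, _ => exact long r' p q m w (by simp at hn; omega)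
        · have hw : 2 ≤ w.length := by omega
          obtain ⟨m, p, q, rfl⟩ : ∃ m p q, w = m ++ [p, q] := by
            rcases List.eq_nil_or_concat w with rfl | ⟨w1, q, rfl⟩
            · simp at hw
            · rcases List.eq_nil_or_concat w1 with rfl | ⟨w2, p, rfl⟩
              · simp at hw
              · exact ⟨w2, p, q, by simp⟩
          have h1 := disj r r' (μ p q) v m [] (by simp at hn ⊢; omega)
          rw [(hμ p q).1, (hμ p q).2] at h1
          rw [h1]
          obtain ⟨p1, q1, m1, hm1⟩ : ∃ p1 q1 m1, v ++ a r' :: b r' :: m = p1 :: q1 :: m1 := by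
            match v, hv with
            | [], _ => exact ⟨_, _, _, rfl⟩
            | [x], _ => exact ⟨_, _, _, rfl⟩
            | _ :: _ :: _, hv => simp at hv
          have hl := congrArg List.length hm1
          have h2 := long (μ p q) p1 q1 m1 [] (by simp at hn hl ⊢; omega)
          rw [(hμ p q).1, (hμ p q).2, ← hm1] at h2
          rw [← h2]
          simp
  intro r r' v w
  exact main _ r r' v w rfl

theorem exists_universal [Finite L] [Finite R] (hμ : ∀ p q, a (μ p q) = p ∧ b (μ p q) = q) :
    ∃ (G : Type) (_ : Group G) (X : R → List L → G), Group.IsFinitelyPresented G ∧ Rel a b e X ∧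
      ∀ (H : Type) [Group H] (Y : R → List L → H), Rel a b e Y →
        ∃ π : G →* H, ∀ r W, π (X r W) = Y r W := by
  have : Finite (rels a b e) := (Set.finite_range _).to_subtype
  refine ⟨PresentedGroup (rels a b e), inferInstance, XF a b e μ, inferInstance,
    XF_rel a b e μ hμ, ?_⟩
  intro H _ Y hY
  let f : Gen L R → H := fun p => Y p.1 p.2.1
  have hgen : ∀ r W, W.length ≤ 4 → FreeGroup.lift f (gen r W) = Y r W := by
    intro r W h
    simp [gen, h, f]
  have hrel : ∀ x ∈ rels a b e, FreeGroup.lift f x = 1 := by
    rintro _ ⟨⟨r, r', ⟨v, hv⟩, ⟨w, hw⟩⟩, rfl⟩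
    simp only
    split_ifs with h
    · simp only [map_mul, map_inv]
      rw [hgen _ _ (by simp at h ⊢; omega), hgen _ _ hw, hgen _ _ (by simp at h ⊢; omega),
        hY r r' v w]
      group
    · simp
  refine ⟨PresentedGroup.toGroup hrel, ?_⟩
  intro r W
  induction hn : W.length using Nat.strong_induction_on generalizing r W with
  | _ n ih =>
    by_cases h4 : W.length ≤ 4
    · rw [XF_short _ _ _ _ _ _ h4, ← hgen r W h4]
      rfl
    · match W, hn, h4 with
      | [], _, h4 => simp at h4
      | [_], _, h4 => simp at h4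
      | p :: q :: w, hn, h4 =>
        simp only [List.length_cons] at hn
        rw [XF_long _ _ _ _ _ _ _ _ h4, map_mul, map_mul, map_inv, ih w.length (by omega) _ w rfl,
          ih (w.length + 1) (by omega) _ (_ :: w) rfl]
        have := hY r (μ p q) [] w
        rw [(hμ p q).1, (hμ p q).2] at this
        exact this.symm

end merge

end Pool.Agent.H828Z.MaxF
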