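import Pool.Agent.H828Z.MaxF.FP

set_option autoImplicit false

/-! Maximal subgroups of `F`: transitivity lemmas and the finite core. -/

namespace Pool.Agent.H828Z.MaxF

open Pool.Agent.Helper283.PL

/-- maximal proper subgroup of `F` -/
structure MaxIn (M : Subgroup P) : Prop where
  le : M ≤ Sup 0 1
  ne : ¬ Sup 0 1 ≤ M
  max : ∀ K : Subgroup P, M ≤ K → K ≤ Sup 0 1 → K ≤ M ∨ Sup 0 1 ≤ K

theorem trans_pt {a b x y : ℝ} (ha : Dy a) (hb : Dy b) (hx : Dy x) (hy : Dy y) (h1 : a < x)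
    (h2 : x < b) (h3 : a < y) (h4 : y < b) : ∃ f ∈ Sup a b, f x = y := by
  rcases lt_trichotomy x y with h | rfl | h
  · exact displ_exists_10188 ha hb hx hy h1 h h4
  · exact ⟨1, (Sup a b).one_mem, rfl⟩
  · obtain ⟨f, hf, e⟩ := displ_exists_10188 ha hb hy hx h3 h h2
    exact ⟨f⁻¹, (Sup a b).inv_mem hf, by rw [← e, inv_left]⟩

theorem sup_lt {f : P} (hf : f ∈ Sup 0 1) {x : ℝ} (h : x < 1) : f x < 1 := by
  have := hf.1.1 h
  rwa [hf.2 1 (Or.inr le_rfl)] at this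

theorem sup_pos {f : P} (hf : f ∈ Sup 0 1) {x : ℝ} (h : 0 < x) : 0 < f x := by
  have := hf.1.1 h
  rwa [hf.2 0 (Or.inl le_rfl)] at this

theorem trans_pair {a b a' b' : ℝ} (ha : Dy a) (hb : Dy b) (ha' : Dy a') (hb' : Dy b')
    (h0 : 0 < a) (h1 : a < b) (h2 : b < 1) (h0' : 0 < a') (h1' : a' < b') (h2' : b' < 1) :
    ∃ f ∈ Sup 0 1, f a = a' ∧ f b = b' := by
  obtain ⟨f, hf, e⟩ := trans_pt Dy.zero Dy.one ha ha' h0 (h1.trans h2) h0' (h1'.trans h2')
  obtain ⟨g, hg, e'⟩ := trans_pt ha' Dy.one ((hf.1.2 b).dy.2 hb) hb' (e ▸ hf.1.1 h1)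
    (sup_lt hf h2) h1' h2'
  refine ⟨g * f, (Sup 0 1).mul_mem (Sup.mono h0'.le le_rfl hg) hf, ?_, e'⟩
  rw [Equiv.Perm.mul_apply, e, hg.2 _ (Or.inl le_rfl)]

/-- the stabiliser of a set -/
def StabF (U : Set ℝ) : Subgroup P where
  carrier := {f | f ∈ Sup 0 1 ∧ ∀ x, f x ∈ U ↔ x ∈ U}
  mul_mem' := fun {f g} hf hg => ⟨(Sup 0 1).mul_mem hf.1 hg.1, fun x => by
    rw [Equiv.Perm.mul_apply, hf.2, hg.2]⟩
  one_mem' := ⟨(Sup 0 1).one_mem, fun _ => Iff.rfl⟩
  inv_mem' := fun {f} hf => ⟨(Sup 0 1).inv_mem hf.1, fun x => by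
    rw [← hf.2, inv_right]⟩

theorem le_stabF {M : Subgroup P} (hM : M ≤ Sup 0 1) {U : Set ℝ}
    (h : ∀ g ∈ M, ∀ x ∈ U, g x ∈ U) : M ≤ StabF U := fun g hg =>
  ⟨hM hg, fun x => ⟨fun hx => by
    have := h _ (M.inv_mem hg) _ hx
    rwa [inv_left] at this, h g hg x⟩⟩

theorem leaf_pre : ∀ (T : BT) (v : List Bool), (∀ u ∈ T.leaves, u.length ≤ v.length) →
    ∃ u ∈ T.leaves, ∃ w, v = u ++ w
  | .leaf, v, _ => ⟨[], by simp [BT.leaves], v, rfl⟩
  | .node l r, [], h => by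
    obtain ⟨u, hu⟩ := List.exists_mem_of_ne_nil _ (leaves_ne_nil l)
    have := h (false :: u) (by simp [BT.leaves, hu])
    simp at this
  | .node l r, false :: v, h => by
    obtain ⟨u, hu, w, rfl⟩ := leaf_pre l v fun u hu => by
      have := h (false :: u) (by simp [BT.leaves, hu])
      simpa using this
    exact ⟨false :: u, by simp [BT.leaves, hu], w, rfl⟩
  | .node l r, true :: v, h => by
    obtain ⟨u, hu, w, rfl⟩ := leaf_pre r v fun u hu => by
      have := h (true :: u) (by simp [BT.leaves, hu])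
      simpa using this
    exact ⟨true :: u, by simp [BT.leaves, hu], w, rfl⟩

theorem forall2_left {α β : Type*} {R : α → β → Prop} : ∀ {l1 : List α} {l2 : List β},
    List.Forall₂ R l1 l2 → ∀ u ∈ l1, ∃ v, R u v
  | _, _, .nil => by simp
  | _, _, .cons h1 h2 => by
    intro u hu
    rcases List.mem_cons.1 hu with rfl | hu
    · exact ⟨_, h1⟩
    · exact forall2_left h2 u hu

theorem lin_long {g : P} (hg : g ∈ Sup 0 1) : ∃ N : ℕ, ∀ v : List Bool, N ≤ v.length →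
    ∃ v', ∀ x, 0 ≤ x → x ≤ 1 → g (aff v x) = aff v' x := by
  obtain ⟨T, S, h⟩ := exists_trees hg
  refine ⟨(T.leaves.map List.length).sum, fun v hv => ?_⟩
  obtain ⟨u, hu, w, rfl⟩ := leaf_pre T v fun u hu =>
    (List.single_le_sum (fun _ _ => Nat.zero_le _) _ (List.mem_map_of_mem hu)).trans hv
  obtain ⟨u', h'⟩ := forall2_left h u hu
  refine ⟨u' ++ w, fun x h0 h1 => ?_⟩
  rw [aff_append_10168, aff_append_10168]
  exact h' _ (aff_bd_10169 w x h0 h1).1 (aff_bd_10169 w x h0 h1).2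

theorem not_between {u v : List Bool} (h : u.length ≤ v.length) {p : ℝ}
    (hp : p = aff u 0 ∨ p = aff u 1) : ¬ (aff v 0 < p ∧ p < aff v 1) := by
  obtain ⟨i, -, hi⟩ := aff_form_10168 u
  obtain ⟨j, -, hj⟩ := aff_form_10168 v
  obtain ⟨d, hd⟩ := Nat.exists_eq_add_of_le h
  obtain ⟨n, hn⟩ : ∃ n : ℕ, p = (n : ℝ) / 2 ^ v.length := by
    rcases hp with rfl | rfl
    · exact ⟨i * 2 ^ d, by rw [hi, hd, pow_add]; push_cast; field_simp; ring⟩
    · exact ⟨(i + 1) * 2 ^ d, by rw [hi, hd, pow_add]; push_cast; field_simp⟩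
  rw [hj, hj, hn, div_lt_div_iff_of_pos_right (by positivity),
    div_lt_div_iff_of_pos_right (by positivity), add_zero]
  rintro ⟨h1, h2⟩
  have h3 : j < n := by exact_mod_cast h1
  have h4 : n < j + 1 := by exact_mod_cast h2
  omega

theorem core_finite {M : Subgroup P} (hM : MaxIn M) (hfg : M.FG) :
    ∃ N : ℕ, ∀ u, ∃ v : List Bool, v.length ≤ N ∧ WEq M u v := by
  classical
  obtain ⟨S, hS⟩ := hfg
  have hSM : ∀ s ∈ S, s ∈ M := fun s hs => hS ▸ Subgroup.subset_closure hs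
  have : ∀ s : P, ∃ N : ℕ, s ∈ S → (∀ v : List Bool, N ≤ v.length →
      ∃ v', ∀ x, 0 ≤ x → x ≤ 1 → s (aff v x) = aff v' x) ∧ ∀ v : List Bool, N ≤ v.length →
      ∃ v', ∀ x, 0 ≤ x → x ≤ 1 → s⁻¹ (aff v x) = aff v' x := by
    intro s
    by_cases hs : s ∈ S
    · obtain ⟨N1, h1⟩ := lin_long (hM.le (hSM s hs))
      obtain ⟨N2, h2⟩ := lin_long (hM.le (M.inv_mem (hSM s hs)))
      exact ⟨max N1 N2, fun _ => ⟨fun v hv => h1 v (le_of_max_le_left hv),
        fun v hv => h2 v (le_of_max_le_right hv)⟩⟩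
    · exact ⟨0, fun h => (hs h).elim⟩
  choose N hN using this
  refine ⟨S.sup N, fun u0 => ?_⟩
  by_contra hcon
  push Not at hcon
  have hlong : ∀ v, WEq M u0 v → S.sup N < v.length := fun v hv => by
    by_contra h
    exact hcon v (not_lt.1 h) hv
  have hex : ∃ n, ∃ v : List Bool, v.length = n ∧ WEq M u0 v := ⟨_, u0, rfl, (wset M).refl u0⟩
  obtain ⟨u, hul, hu⟩ := Nat.find_spec hex
  have hmin : ∀ v, WEq M u0 v → u.length ≤ v.length := fun v hv =>
    hul ▸ Nat.find_min' hex ⟨v, rfl, hv⟩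
  have hact : ∀ h ∈ M, ∀ v, WEq M u0 v → ∃ v', ∀ x, 0 ≤ x → x ≤ 1 → h (aff v x) = aff v' x := by
    intro h hh
    rw [← hS] at hh
    induction hh using Subgroup.closure_induction'' with
    | mem s hs => exact fun v hv => (hN s hs).1 v ((Finset.le_sup hs).trans (hlong v hv).le)
    | inv_mem s hs => exact fun v hv => (hN s hs).2 v ((Finset.le_sup hs).trans (hlong v hv).le)
    | one => exact fun v _ => ⟨v, fun _ _ _ => rfl⟩
    | mul g h _ hh ihg ihh =>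
      intro v hv
      obtain ⟨v', h1⟩ := ihh v hv
      obtain ⟨v'', h2⟩ := ihg v' ((wset M).trans hv ⟨h, hS ▸ hh, h1⟩)
      exact ⟨v'', fun x h0 h1' => by rw [Equiv.Perm.mul_apply, h1 x h0 h1', h2 x h0 h1']⟩
  let U : Set ℝ := {x | ∃ v, WEq M u0 v ∧ aff v 0 < x ∧ x < aff v 1}
  have hMU : M ≤ StabF U := le_stabF hM.le fun g hg x ⟨v, hv, h1, h2⟩ => by
    obtain ⟨v', h'⟩ := hact g hg v hv
    refine ⟨v', (wset M).trans hv ⟨g, hg, h'⟩, ?_, ?_⟩
    · rw [← h' 0 le_rfl zero_le_one]; exact smono hM.le hg h1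
    · rw [← h' 1 zero_le_one le_rfl]; exact smono hM.le hg h2
  rcases hM.max _ hMU (fun f hf => hf.1) with h | h
  · have hmem : (em u X : P) ∈ StabF U := by
      refine ⟨(em u X).2, fun x => ?_⟩
      by_cases hx : x ≤ aff u 0 ∨ aff u 1 ≤ x
      · rw [em_out u X hx]
      · push Not at hx
        refine ⟨fun _ => ⟨u, hu, hx⟩, fun _ => ⟨u, hu, ?_, ?_⟩⟩
        · have := (em u X).2.1.1 hx.1
          rwa [em_out u X (Or.inl le_rfl)] at this
        · have := (em u X).2.1.1 hx.2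
          rwa [em_out u X (Or.inr le_rfl)] at this
    obtain ⟨v', h'⟩ := hact _ (h hmem) u hu
    have e0 := h' 0 le_rfl zero_le_one
    have e1 := h' 1 zero_le_one le_rfl
    have e2 := h' (1 / 4) (by norm_num) (by norm_num)
    rw [em_out u X (Or.inl le_rfl)] at e0
    rw [em_out u X (Or.inr le_rfl)] at e1
    rw [em_apply u X (by norm_num) (by norm_num), X_zero10185 (by norm_num) le_rfl] at e2
    obtain ⟨c, -, hc⟩ := aff_form_10184 u
    obtain ⟨c', -, hc'⟩ := aff_form_10184 v'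
    rw [hc, hc'] at e0 e1 e2
    have : (0 : ℝ) < 2 ^ (-(u.length : ℤ)) := by positivity
    linarith
  · obtain ⟨p, hp, hp0, hp1⟩ : ∃ p, (p = aff u 0 ∨ p = aff u 1) ∧ 0 < p ∧ p < 1 := by
      have hl := hlong u hu
      have l01 := aff_lt_10168 u zero_lt_one
      match u, hl, l01 with
      | true :: w, _, l01 => exact ⟨_, Or.inl rfl, aff_pos10185 _ (by simp),
          l01.trans_le (aff_le_one_10168 _)⟩
      | false :: w, _, l01 => exact ⟨_, Or.inr rfl, (aff_nonneg_10168 _).trans_lt l01,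
          aff_lt_one10185 _ (by simp)⟩
    have hpd : Dy p := by
      rcases hp with rfl | rfl
      · exact dy_aff_10184 _ Dy.zero
      · exact dy_aff_10184 _ Dy.one
    obtain ⟨f, hf, e⟩ := trans_pt Dy.zero Dy.one (dy_aff_10184 u (Dy.half Dy.one)) hpd
      (aff_half u).1 (aff_half u).2 hp0 hp1
    have h1 : aff u (1 / 2) ∈ U :=
      ⟨u, hu, aff_lt_10168 _ (by norm_num), aff_lt_10168 _ (by norm_num)⟩
    obtain ⟨v, hv, h2⟩ := ((h hf).2 _).2 h1
    rw [e] at h2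
    exact not_between (hmin v hv) hp h2

end Pool.Agent.H828Z.MaxF
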