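import Pool.Agent.H828Z.MaxF.Core

set_option autoImplicit false

/-! Dynamics of subgroups of `F` that surject on the abelianisation. -/

namespace Pool.Agent.H828Z.MaxF

open Pool.Agent.Helper283.PL

theorem dR_congr {f g : P} (hg : g ∈ PLH) {x ε : ℝ} (hε : 0 < ε)
    (h : ∀ y, x ≤ y → y < x + ε → f y = g y) : dR f x = dR g x := by
  obtain ⟨k, c, h1⟩ := (hg.2 x).1
  rw [dR_eq h1, dR_eq (RG_congr10071 h1 hε h)]

theorem dL_congr {f g : P} (hg : g ∈ PLH) {x ε : ℝ} (hε : 0 < ε)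
    (h : ∀ y, x - ε < y → y ≤ x → f y = g y) : dL f x = dL g x := by
  obtain ⟨k, c, h1⟩ := (hg.2 x).2.1
  rw [dL_eq h1, dL_eq (LG_congr10071 h1 hε h)]

theorem dR_one (x : ℝ) : dR (1 : P) x = 0 :=
  dR_eq (c := 0) ⟨Dy.zero, 1, one_pos, fun y _ _ => by simp⟩

theorem dL_one (x : ℝ) : dL (1 : P) x = 0 :=
  dL_eq (c := 0) ⟨Dy.zero, 1, one_pos, fun y _ _ => by simp⟩

theorem dR_inv {g : P} (hg : g ∈ PLH) (x : ℝ) : dR (g⁻¹ : P) (g x) = - dR g x := by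
  have := dR_mul (PLH.inv_mem hg) hg x
  rw [inv_mul_cancel, dR_one] at this
  omega

theorem dL_inv {g : P} (hg : g ∈ PLH) (x : ℝ) : dL (g⁻¹ : P) (g x) = - dL g x := by
  have := dL_mul (PLH.inv_mem hg) hg x
  rw [inv_mul_cancel, dL_one] at this
  omega

theorem id_right {g : P} (hg : g ∈ PLH) {x : ℝ} (h : g x = x) (h0 : dR g x = 0) :
    ∃ ε > 0, ∀ y, x ≤ y → y < x + ε → g y = y := by
  obtain ⟨k, c, h1⟩ := (hg.2 x).1
  rw [dR_eq h1] at h0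
  obtain ⟨-, ε, hε, h1⟩ := h1
  have h2 := h1 x le_rfl (by linarith)
  rw [h0, h] at h2
  refine ⟨ε, hε, fun y hy hy' => ?_⟩
  rw [h1 y hy hy', h0]
  simp at h2 ⊢
  exact h2

theorem id_left {g : P} (hg : g ∈ PLH) {x : ℝ} (h : g x = x) (h0 : dL g x = 0) :
    ∃ ε > 0, ∀ y, x - ε < y → y ≤ x → g y = y := by
  obtain ⟨k, c, h1⟩ := (hg.2 x).2.1
  rw [dL_eq h1] at h0
  obtain ⟨-, ε, hε, h1⟩ := h1
  have h2 := h1 x (by linarith) le_rfl
  rw [h0, h] at h2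
  refine ⟨ε, hε, fun y hy hy' => ?_⟩
  rw [h1 y hy hy', h0]
  simp at h2 ⊢
  exact h2

theorem fix0 {g : P} (hg : g ∈ Sup 0 1) : g 0 = 0 := hg.2 0 (Or.inl le_rfl)
theorem fix1 {g : P} (hg : g ∈ Sup 0 1) : g 1 = 1 := hg.2 1 (Or.inr le_rfl)

/-- slope at `0` -/
noncomputable def d0 : Sup 0 1 →* Multiplicative ℤ :=
  MonoidHom.mk' (fun g => Multiplicative.ofAdd (dR g.1 0)) fun f g => by
    rw [← ofAdd_add, Subgroup.coe_mul, dR_mul f.2.1 g.2.1, fix0 g.2]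

/-- slope at `1` -/
noncomputable def d1 : Sup 0 1 →* Multiplicative ℤ :=
  MonoidHom.mk' (fun g => Multiplicative.ofAdd (dL g.1 1)) fun f g => by
    rw [← ofAdd_add, Subgroup.coe_mul, dL_mul f.2.1 g.2.1, fix1 g.2]

theorem dR0_zpow {g : P} (hg : g ∈ Sup 0 1) (k : ℤ) : dR (g ^ k : P) 0 = k * dR g 0 := by
  have := congrArg Multiplicative.toAdd (map_zpow d0 ⟨g, hg⟩ k)
  simpa [d0] using this

theorem dL1_zpow {g : P} (hg : g ∈ Sup 0 1) (k : ℤ) : dL (g ^ k : P) 1 = k * dL g 1 := by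
  have := congrArg Multiplicative.toAdd (map_zpow d1 ⟨g, hg⟩ k)
  simpa [d1] using this

theorem zpow_fix {g : P} {x : ℝ} (h : g x = x) (k : ℤ) : (g ^ k) x = x :=
  Equiv.Perm.zpow_apply_eq_self_of_apply_eq_self h k

/-- `M` together with the commutators generates `F` -/
def CaseB (M : Subgroup P) : Prop := ∀ K : Subgroup P, M ≤ K →
  (∀ f ∈ Sup 0 1, ∀ g ∈ Sup 0 1, f * g * f⁻¹ * g⁻¹ ∈ K) → Sup 0 1 ≤ K

theorem CaseB.slopes {M : Subgroup P} (hM : M ≤ Sup 0 1) (hB : CaseB M) {f : P}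
    (hf : f ∈ Sup 0 1) : ∃ m ∈ M, dR m 0 = dR f 0 ∧ dL m 1 = dL f 1 := by
  let φ : Sup 0 1 →* Multiplicative ℤ × Multiplicative ℤ := d0.prod d1
  let K : Subgroup P := (((M.subgroupOf (Sup 0 1)).map φ).comap φ).map (Sup 0 1).subtype
  have h1 : M ≤ K := fun m hm => ⟨⟨m, hM hm⟩, ⟨⟨m, hM hm⟩, hm, rfl⟩, rfl⟩
  have h2 : ∀ f ∈ Sup 0 1, ∀ g ∈ Sup 0 1, f * g * f⁻¹ * g⁻¹ ∈ K := by
    intro f hf g hg
    refine ⟨⟨f, hf⟩ * ⟨g, hg⟩ * (⟨f, hf⟩)⁻¹ * (⟨g, hg⟩)⁻¹, ?_, rfl⟩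
    show φ _ ∈ (M.subgroupOf (Sup 0 1)).map φ
    have : φ (⟨f, hf⟩ * ⟨g, hg⟩ * (⟨f, hf⟩)⁻¹ * (⟨g, hg⟩)⁻¹) = 1 := by
      simp only [map_mul, map_inv]
      rw [mul_comm (φ ⟨f, hf⟩)]; group
    rw [this]; exact Subgroup.one_mem _
  obtain ⟨f', ⟨m, hm, e⟩, rfl⟩ := hB K h1 h2 hf
  exact ⟨m.1, hm, congrArg (fun z => Multiplicative.toAdd z.1) e,
    congrArg (fun z => Multiplicative.toAdd z.2) e⟩

/-- the two end elements -/
structure Ends2 (M : Subgroup P) (f ψ : P) (ε : ℝ) : Prop where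
  fM : f ∈ M
  ψM : ψ ∈ M
  pos : 0 < ε
  lt : ε < 1 / 2
  f0 : ∀ y, 0 ≤ y → y ≤ ε → f y = 2 * y
  f1 : ∀ y, 1 - ε ≤ y → f y = y
  ψ0 : ∀ y, y ≤ ε → ψ y = y
  ψ1 : ∀ y, 1 - ε ≤ y → y ≤ 1 → ψ y = (y + 1) / 2
  df : dR f 0 = 1
  dψ : dL ψ 1 = -1

theorem CaseB.ends {M : Subgroup P} (hM : M ≤ Sup 0 1) (hB : CaseB M) :
    ∃ f ψ ε, Ends2 M f ψ ε := by
  obtain ⟨f, hf, a1, a2⟩ := hB.slopes hM (em [false] X).2
  obtain ⟨ψ, hψ, b1, b2⟩ := hB.slopes hM (em [true] X).2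
  replace a1 : dR f 0 = 1 := a1.trans (dR_eq (RG_false10185 1))
  rw [dL_eq (LG_in10185 [false] (by simp))] at a2
  rw [dR_eq (RG_in10185 [true] (by simp))] at b1
  replace b2 : dL ψ 1 = -1 := b2.trans (dL_eq (LG_true10185 1))
  obtain ⟨e1, he1, h1⟩ := id_left (hM hf).1 (fix1 (hM hf)) a2
  obtain ⟨e2, he2, h2⟩ := id_right (hM hψ).1 (fix0 (hM hψ)) b1
  obtain ⟨k, c, h3⟩ := ((hM hf).1.2 0).1
  obtain ⟨k', c', h4⟩ := ((hM hψ).1.2 1).2.1
  have hk : k = 1 := by rw [← dR_eq h3, a1]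
  have hk' : k' = -1 := by rw [← dL_eq h4, b2]
  subst hk hk'
  obtain ⟨-, e3, he3, h3⟩ := h3
  obtain ⟨-, e4, he4, h4⟩ := h4
  have c0 := h3 0 le_rfl (by linarith)
  have c1 := h4 1 (by linarith) le_rfl
  rw [fix0 (hM hf)] at c0
  rw [fix1 (hM hψ)] at c1
  have m1 := min_le_left (min (min e1 e2) (min e3 e4)) (1 / 2)
  have m2 := min_le_right (min (min e1 e2) (min e3 e4)) (1 / 2)
  have m3 := min_le_left (min e1 e2) (min e3 e4)
  have m4 := min_le_right (min e1 e2) (min e3 e4)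
  have m5 := min_le_left e1 e2
  have m6 := min_le_right e1 e2
  have m7 := min_le_left e3 e4
  have m8 := min_le_right e3 e4
  have m0 : 0 < min (min (min e1 e2) (min e3 e4)) (1 / 2) := by positivity
  refine ⟨f, ψ, min (min (min e1 e2) (min e3 e4)) (1 / 2) / 2, hf, hψ, by linarith, by linarith,
    fun y y0 y1 => ?_, fun y y0 => ?_, fun y y0 => ?_, fun y y0 y1 => ?_, a1, b2⟩
  · rw [h3 y y0 (by linarith)]
    norm_num at c0 ⊢
    linarith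
  · rcases le_total y 1 with h | h
    · exact h1 y (by linarith) h
    · exact (hM hf).2 y (Or.inr h)
  · rcases le_total 0 y with h | h
    · exact h2 y h (by linarith)
    · exact (hM hψ).2 y (Or.inl h)
  · rw [h4 y (by linarith) y1]
    norm_num at c1 ⊢
    linarith

theorem sup_fix {g : P} (hg : StrictMono g) {a B : ℝ} (ha : a ≤ g a) (hB : ∀ n : ℕ, (g ^ n) a ≤ B) :
    ∃ s, g s = s ∧ s ≤ B ∧ (∀ n : ℕ, (g ^ n) a ≤ s) ∧ ∀ z < s, ∃ n : ℕ, z < (g ^ n) a := by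
  have hbdd : BddAbove (Set.range fun n : ℕ => (g ^ n) a) := ⟨B, by rintro _ ⟨n, rfl⟩; exact hB n⟩
  have hle : ∀ n : ℕ, (g ^ n) a ≤ ⨆ n : ℕ, (g ^ n) a := fun n => le_ciSup hbdd n
  have hstep : ∀ n : ℕ, (g ^ n) a ≤ (g ^ (n + 1)) a := by
    intro n
    induction n with
    | zero => simpa using ha
    | succ n ih =>
      rw [pow_succ' g (n + 1), pow_succ' g n, Equiv.Perm.mul_apply, Equiv.Perm.mul_apply]
      rw [pow_succ' g n, Equiv.Perm.mul_apply] at ih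
      exact hg.monotone ih
  refine ⟨⨆ n : ℕ, (g ^ n) a, le_antisymm ?_ ?_, ciSup_le hB, hle, fun z hz => ?_⟩
  · have : (⨆ n : ℕ, (g ^ n) a) ≤ g⁻¹ (⨆ n : ℕ, (g ^ n) a) := ciSup_le fun n => by
      have h1 := inv_mono_10051 hg (hle (n + 1))
      rwa [pow_succ', Equiv.Perm.mul_apply, inv_left] at h1
    have h2 := hg.monotone this
    rwa [inv_right] at h2
  · refine ciSup_le fun n => (hstep n).trans ?_
    rw [pow_succ', Equiv.Perm.mul_apply]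
    exact hg.monotone (hle n)
  · exact exists_lt_of_lt_ciSup hz

/-- no global fixed point inside the interval -/
def NoFix (M : Subgroup P) : Prop := ∀ x, 0 < x → x < 1 → ∃ m ∈ M, m x ≠ x

section nofix

variable {M : Subgroup P} (hM : M ≤ Sup 0 1) (hN : NoFix M)
include hM hN

theorem to_zero {x ε : ℝ} (h1 : x < 1) (hε : 0 < ε) : ∃ m ∈ M, m x < ε := by
  by_contra hcon
  push Not at hcon
  let O : Set ℝ := {y | ∃ m ∈ M, m x = y}
  have hx : x ∈ O := ⟨1, M.one_mem, rfl⟩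
  have hbdd : BddBelow O := ⟨ε, by rintro _ ⟨m, hm, rfl⟩; exact hcon m hm⟩
  have key : ∀ m ∈ M, m (sInf O) ≤ sInf O := by
    intro m hm
    refine le_csInf ⟨x, hx⟩ ?_
    rintro _ ⟨k, hk, rfl⟩
    have : sInf O ≤ m⁻¹ (k x) := csInf_le hbdd ⟨m⁻¹ * k, M.mul_mem (M.inv_mem hm) hk, rfl⟩
    have h2 := (smono hM hm).monotone this
    rwa [inv_right] at h2
  obtain ⟨m, hm, hne⟩ := hN (sInf O)
    (hε.trans_le (le_csInf ⟨x, hx⟩ (by rintro _ ⟨m, hm, rfl⟩; exact hcon m hm)))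
    ((csInf_le hbdd hx).trans_lt h1)
  apply hne
  refine le_antisymm (key m hm) ?_
  have h2 := (smono hM hm).monotone (key _ (M.inv_mem hm))
  rwa [inv_right] at h2

theorem contraction {f ψ : P} {ε : ℝ} (hE : Ends2 M f ψ ε) :
    ∃ γ, 0 < γ ∧ γ < 1 ∧ ∀ a b, 0 < a → a ≤ b → b < 1 → ∀ z < γ, ∃ m ∈ M, z < m a ∧ m b < γ := by
  have hf := smono hM hE.fM
  have hε := hE.pos
  have hl := hE.lt
  have hpm : ∀ n : ℕ, StrictMono (f ^ n : P) := fun n => smono hM (M.pow_mem hE.fM n)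
  have hbd : ∀ x, x ≤ 1 - ε → ∀ n : ℕ, (f ^ n) x ≤ 1 - ε := by
    intro x hx n
    have := (hpm n).monotone hx
    rwa [Equiv.Perm.pow_apply_eq_self_of_apply_eq_self (hE.f1 _ le_rfl)] at this
  obtain ⟨γ, g1, g2, g3, g4⟩ := sup_fix hf (a := ε) (B := 1 - ε)
    (by rw [hE.f0 ε hε.le le_rfl]; linarith) (hbd ε (by linarith))
  have hεγ : ε ≤ γ := g3 0
  refine ⟨γ, by linarith, by linarith, fun a b ha hab hb z hz => ?_⟩
  obtain ⟨m, hm, hmb⟩ := to_zero hM hN hb hε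
  have hma : 0 < m a := sup_pos (hM hm) ha
  have hma' : m a < ε := ((smono hM hm).monotone hab).trans_lt hmb
  obtain ⟨s, s1, -, s3, s4⟩ := sup_fix hf (a := m a) (B := 1 - ε)
    (by rw [hE.f0 _ hma.le hma'.le]; linarith) (hbd _ (by linarith))
  have hs : ε < s := by
    by_contra h
    have h0 : m a ≤ s := s3 0
    rw [hE.f0 s (by linarith) (not_lt.1 h)] at s1
    linarith
  obtain ⟨k, hk⟩ := s4 ε hs
  obtain ⟨n, hn⟩ := g4 z hz
  refine ⟨f ^ (n + k) * m, M.mul_mem (M.pow_mem hE.fM _) hm, ?_, ?_⟩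
  · rw [pow_add, Equiv.Perm.mul_apply, Equiv.Perm.mul_apply]
    exact hn.trans (hpm n hk)
  · rw [Equiv.Perm.mul_apply]
    exact (hpm _ hmb).trans_le (g3 _)

end nofix

/-- the open interval meets the orbit of `γ` -/
def Big (M : Subgroup P) (γ α β : ℝ) : Prop := ∃ m ∈ M, α < m γ ∧ m γ < β

theorem Big.map {M : Subgroup P} (hM : M ≤ Sup 0 1) {γ α β : ℝ} (h : Big M γ α β) {g : P}
    (hg : g ∈ M) : Big M γ (g α) (g β) := by
  obtain ⟨m, hm, h1, h2⟩ := h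
  exact ⟨g * m, M.mul_mem hg hm, smono hM hg h1, smono hM hg h2⟩

theorem Big.mono {M : Subgroup P} {γ α β α' β' : ℝ} (h : Big M γ α β) (h1 : α' ≤ α)
    (h2 : β ≤ β') : Big M γ α' β' := by
  obtain ⟨m, hm, h3, h4⟩ := h
  exact ⟨m, hm, h1.trans_lt h3, h4.trans_le h2⟩

/-- the contraction property at `γ` -/
def Contr (M : Subgroup P) (γ : ℝ) : Prop :=
  ∀ a b, 0 < a → a ≤ b → b < 1 → ∀ z < γ, ∃ m ∈ M, z < m a ∧ m b < γ

section contr

variable {M : Subgroup P} (hM : M ≤ Sup 0 1) {f ψ : P} {ε γ : ℝ} (hE : Ends2 M f ψ ε)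
  (hC : Contr M γ)
include hM hC

theorem contr_into {α β a b : ℝ} (h : Big M γ α β) (ha : 0 < a) (hab : a ≤ b) (hb : b < 1) :
    ∃ m ∈ M, α < m a ∧ m b < β := by
  obtain ⟨m0, hm0, h1, h2⟩ := h
  have h3 : m0⁻¹ α < γ := by
    have := smono hM (M.inv_mem hm0) h1
    rwa [inv_left] at this
  obtain ⟨m, hm, h4, h5⟩ := hC a b ha hab hb _ h3
  refine ⟨m0 * m, M.mul_mem hm0 hm, ?_, (smono hM hm0 h5).trans h2⟩
  have := smono hM hm0 h4
  rwa [inv_right] at this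

include hE

theorem expand_right {α β z : ℝ} (h : Big M γ α β) (hz : z < 1) :
    ∃ m ∈ M, (∀ t, t ≤ α → m t = t) ∧ z < m β := by
  rcases le_or_gt 1 β with hβ | hβ
  · exact ⟨1, M.one_mem, fun _ _ => rfl, hz.trans_le hβ⟩
  have hε := hE.pos
  have hl := hE.lt
  obtain ⟨m0, hm0, h1, h2⟩ := contr_into hM hC h (a := ε) (b := 1 - ε) hε (by linarith) (by linarith)
  have i0 := smono hM (M.inv_mem hm0)
  have h3 : 1 - ε < m0⁻¹ β := by
    have := i0 h2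
    rwa [inv_left] at this
  have h4 : m0⁻¹ β < 1 := sup_lt (hM (M.inv_mem hm0)) hβ
  obtain ⟨s, s1, s2, s3, s4⟩ := sup_fix (smono hM hE.ψM) (a := m0⁻¹ β) (B := 1)
    (by rw [hE.ψ1 _ h3.le h4.le]; linarith)
    (fun n => (sup_lt (hM (M.pow_mem hE.ψM n)) h4).le)
  have h5 : m0⁻¹ β ≤ s := s3 0
  rw [hE.ψ1 s (by linarith) s2] at s1
  obtain ⟨n, hn⟩ := s4 (m0⁻¹ z) (by linarith [sup_lt (hM (M.inv_mem hm0)) hz])
  refine ⟨m0 * ψ ^ n * m0⁻¹, M.mul_mem (M.mul_mem hm0 (M.pow_mem hE.ψM n)) (M.inv_mem hm0),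
    fun t ht => ?_, ?_⟩
  · simp only [Equiv.Perm.mul_apply]
    rw [Equiv.Perm.pow_apply_eq_self_of_apply_eq_self (hE.ψ0 _ ?_), inv_right]
    have := i0 (ht.trans_lt h1)
    rw [inv_left] at this
    exact this.le
  · simp only [Equiv.Perm.mul_apply]
    have := smono hM hm0 hn
    rwa [inv_right] at this

theorem expand_left {α β z : ℝ} (h : Big M γ α β) (hz : 0 < z) :
    ∃ m ∈ M, (∀ t, β ≤ t → m t = t) ∧ m α < z := by
  rcases le_or_gt α 0 with hα | hα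
  · exact ⟨1, M.one_mem, fun _ _ => rfl, hα.trans_lt hz⟩
  have hε := hE.pos
  have hl := hE.lt
  obtain ⟨m0, hm0, h1, h2⟩ := contr_into hM hC h (a := ε) (b := 1 - ε) hε (by linarith) (by linarith)
  have i0 := smono hM (M.inv_mem hm0)
  have h3 : m0⁻¹ α < ε := by
    have := i0 h1
    rwa [inv_left] at this
  have h4 : 0 < m0⁻¹ α := sup_pos (hM (M.inv_mem hm0)) hα
  have h5 : ∀ n : ℕ, (f⁻¹ ^ n) (m0⁻¹ α) = m0⁻¹ α * (1 / 2) ^ n := by
    intro n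
    induction n with
    | zero => simp
    | succ n ih =>
      have h6 : (1 / 2 : ℝ) ^ (n + 1) ≤ 1 := pow_le_one₀ (by norm_num) (by norm_num)
      rw [pow_succ', Equiv.Perm.mul_apply, ih, Equiv.Perm.inv_eq_iff_eq,
        hE.f0 _ (by positivity) (by nlinarith)]
      ring
  have h6 : 0 < m0⁻¹ z := sup_pos (hM (M.inv_mem hm0)) hz
  obtain ⟨n, hn⟩ := exists_pow_lt_of_lt_one (div_pos h6 h4) (show (1 / 2 : ℝ) < 1 by norm_num)
  rw [lt_div_iff₀ h4] at hn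
  refine ⟨m0 * f⁻¹ ^ n * m0⁻¹,
    M.mul_mem (M.mul_mem hm0 (M.pow_mem (M.inv_mem hE.fM) n)) (M.inv_mem hm0), fun t ht => ?_, ?_⟩
  · simp only [Equiv.Perm.mul_apply]
    rw [Equiv.Perm.pow_apply_eq_self_of_apply_eq_self (inv_fix_10051 (hE.f1 _ ?_)), inv_right]
    have := i0 (h2.trans_le ht)
    rw [inv_left] at this
    exact this.le
  · simp only [Equiv.Perm.mul_apply]
    have := smono hM hm0 (show (f⁻¹ ^ n) (m0⁻¹ α) < m0⁻¹ z by rw [h5]; linarith)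
    rwa [inv_right] at this

theorem big_pair {α β β' : ℝ} (h : Big M γ α β) (h' : Big M γ α β') (h0 : 0 ≤ α) (h1 : β ≤ 1)
    (he : OEq M β β') : ∃ g ∈ M, g α = α ∧ g β = β' := by
  obtain ⟨k, hk, rfl⟩ := he
  rcases h1.lt_or_eq with h1 | rfl
  swap
  · exact ⟨1, M.one_mem, rfl, (fix1 (hM hk)).symm⟩
  have hε := hE.pos
  have hz : max β (1 - ε) < 1 := max_lt h1 (by linarith)
  obtain ⟨m1, hm1, a1, b1⟩ := expand_right hM hE hC h hz
  obtain ⟨m2, hm2, a2, b2⟩ := expand_right hM hE hC h' hz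
  have hh : m2 * k * m1⁻¹ ∈ M := M.mul_mem (M.mul_mem hm2 hk) (M.inv_mem hm1)
  set h := m2 * k * m1⁻¹ with hdef
  have hh2 : f ^ (-dR h 0) * h ∈ M := M.mul_mem (M.zpow_mem hE.fM _) hh
  obtain ⟨η, hη, hid⟩ := id_right (hM hh2).1 (fix0 (hM hh2)) (by
    rw [dR_mul (hM (M.zpow_mem hE.fM _)).1 (hM hh).1, fix0 (hM hh), dR0_zpow (hM hE.fM), hE.df]
    ring)
  obtain ⟨m, hm, a3, b3⟩ := expand_left hM hE hC ‹Big M γ α β› hη
  refine ⟨m2⁻¹ * (m⁻¹ * (f ^ (-dR h 0) * h) * m) * m1, M.mul_mem (M.mul_mem (M.inv_mem hm2)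
    (M.mul_mem (M.mul_mem (M.inv_mem hm) hh2) hm)) hm1, ?_, ?_⟩
  · rw [Equiv.Perm.mul_apply, Equiv.Perm.mul_apply, Equiv.Perm.mul_apply, Equiv.Perm.mul_apply,
      a1 α le_rfl, hid _ ?_ (by linarith), inv_left, inv_fix_10051 (a2 α le_rfl)]
    have := (smono hM hm).monotone h0
    rwa [fix0 (hM hm)] at this
  · have c1 := (le_max_left _ _).trans b1.le
    have c2 := (le_max_left _ _).trans b2.le
    have c3 := (le_max_right _ _).trans b2.le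
    simp only [Equiv.Perm.mul_apply, hdef]
    rw [a3 _ c1, inv_left, zpow_fix (hE.f1 _ c3), inv_fix_10051 (a3 _ c2), inv_left]

end contr

section small

variable {M : Subgroup P} (hM : MaxIn M) {γ : ℝ} (h0 : 0 < γ) (h1 : γ < 1)
include hM h0 h1

theorem gap_mem {a b : ℝ} (ha : 0 ≤ a) (hab : a < b) (hb : b ≤ 1) (h : ¬ Big M γ a b) {f : P}
    (hf : f ∈ Sup a b) : f ∈ M := by
  let Z : Set ℝ := {x | ∀ a b, a < x → x < b → Big M γ a b}
  have hMZ : M ≤ StabF Z := le_stabF hM.le fun g hg x hx a b h1 h2 => by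
    have i0 := smono hM.le (M.inv_mem hg)
    have h3 := i0 h1
    have h4 := i0 h2
    rw [inv_left] at h3 h4
    have := (hx _ _ h3 h4).map hM.le hg
    rwa [inv_right, inv_right] at this
  have hout : ∀ x, a < x → x < b → x ∉ Z := fun x h1 h2 hx => h (hx a b h1 h2)
  rcases hM.max _ hMZ (fun f hf => hf.1) with h2 | h2
  · refine h2 ⟨Sup.mono ha hb hf, fun x => ?_⟩
    by_cases hx : x ≤ a ∨ b ≤ x
    · rw [hf.2 x hx]
    · push Not at hx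
      have h3 := hf.1.1 hx.1
      have h4 := hf.1.1 hx.2
      rw [hf.2 _ (Or.inl le_rfl)] at h3
      rw [hf.2 _ (Or.inr le_rfl)] at h4
      exact ⟨fun h => (hout _ h3 h4 h).elim, fun h => (hout _ hx.1 hx.2 h).elim⟩
  · exfalso
    obtain ⟨p, hp, p1, p2⟩ := Dy.exists_between h0
    obtain ⟨q, hq, q1, q2⟩ := Dy.exists_between h1
    obtain ⟨p', hp', p1', p2'⟩ := Dy.exists_between hab
    obtain ⟨q', hq', q1', q2'⟩ := Dy.exists_between p2'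
    obtain ⟨g, hg, e1, e2⟩ := trans_pair hp hq hp' hq' p1 (p2.trans q1) q2 (by linarith) q1'
      (by linarith)
    have hγ : γ ∈ Z := fun a b h1 h2 => ⟨1, M.one_mem, h1, h2⟩
    refine hout (g γ) (p1'.trans (e1 ▸ hg.1.1 p2)) (lt_trans (e2 ▸ hg.1.1 q1) q2') ?_
    exact ((h2 hg).2 γ).2 hγ

theorem small_pair_lt {α β β' : ℝ} (dα : Dy α) (dβ : Dy β) (hα : 0 ≤ α) (hαβ : α < β)
    (hlt : β < β') (hβ' : β' ≤ 1) (h' : ¬ Big M γ α β') (he : OEq M β β') :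
    ∃ g ∈ M, g α = α ∧ g β = β' := by
  obtain ⟨k, hk, rfl⟩ := he
  have hk1 : k β < 1 := sup_lt (hM.le hk) (hlt.trans_le hβ')
  have h2 : ¬ Big M γ (k α) (k (k β)) := fun h => h' (by
    have := h.map hM.le (M.inv_mem hk)
    rwa [inv_left, inv_left] at this)
  obtain ⟨b, db, b1, b2⟩ := Dy.exists_between (lt_min (smono hM.le hk hlt) hk1)
  have h3 : ¬ Big M γ α b := by
    rintro ⟨m, hm, m1, m2⟩
    rcases lt_or_ge (m γ) (k β) with h | h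
    · exact h' ⟨m, hm, m1, h⟩
    · exact h2 ⟨m, hm, (smono hM.le hk hαβ).trans_le h, m2.trans (b2.trans_le (min_le_left _ _))⟩
  obtain ⟨g, hg, e⟩ := trans_pt dα db dβ (((hM.le hk).1.2 β).dy.2 dβ) hαβ (hlt.trans b1)
    (hαβ.trans hlt) b1
  exact ⟨g, gap_mem hM h0 h1 hα (hαβ.trans (hlt.trans b1)) (b2.le.trans (min_le_right _ _)) h3 hg,
    hg.2 _ (Or.inl le_rfl), e⟩

theorem small_pair {α β β' : ℝ} (dα : Dy α) (dβ : Dy β) (hα : 0 ≤ α) (hαβ : α < β)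
    (hαβ' : α < β') (hβ : β ≤ 1) (hβ' : β' ≤ 1) (h : ¬ Big M γ α β) (h' : ¬ Big M γ α β')
    (he : OEq M β β') : ∃ g ∈ M, g α = α ∧ g β = β' := by
  rcases lt_trichotomy β β' with hlt | rfl | hlt
  · exact small_pair_lt hM h0 h1 dα dβ hα hαβ hlt hβ' h' he
  · exact ⟨1, M.one_mem, rfl, rfl⟩
  · have dβ' : Dy β' := by
      obtain ⟨k, hk, rfl⟩ := he
      exact ((hM.le hk).1.2 β).dy.2 dβ
    obtain ⟨g, hg, e1, e2⟩ := small_pair_lt hM h0 h1 dα dβ' hα hαβ' hlt hβ h ((oset M).symm he)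
    exact ⟨g⁻¹, M.inv_mem hg, inv_fix_10051 e1, by rw [← e2, inv_left]⟩

end small

theorem pair_step {M : Subgroup P} (hM : MaxIn M) (hB : CaseB M) : ∃ γ, ∀ α β β', Dy α → Dy β →
    0 ≤ α → α < β → α < β' → β ≤ 1 → β' ≤ 1 → (Big M γ α β ↔ Big M γ α β') → OEq M β β' →
      ∃ g ∈ M, g α = α ∧ g β = β' := by
  by_cases hN : NoFix M
  · obtain ⟨f, ψ, ε, hE⟩ := hB.ends hM.le
    obtain ⟨γ, h0, h1, hC⟩ := contraction hM.le hN hE
    refine ⟨γ, fun α β β' dα dβ hα hαβ hαβ' hβ hβ' hiff he => ?_⟩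
    by_cases h : Big M γ α β
    · exact big_pair hM.le hE hC h (hiff.1 h) hα hβ he
    · exact small_pair hM h0 h1 dα dβ hα hαβ hαβ' hβ hβ' h (fun h' => h (hiff.2 h')) he
  · unfold NoFix at hN
    push Not at hN
    obtain ⟨γ, h0, h1, hfix⟩ := hN
    refine ⟨γ, fun α β β' dα dβ hα hαβ hαβ' hβ hβ' hiff he => ?_⟩
    by_cases h : Big M γ α β
    · obtain ⟨m, hm, m1, m2⟩ := hiff.1 h
      obtain ⟨m', hm', -, m3⟩ := h
      rw [hfix m hm] at m1 m2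
      rw [hfix m' hm'] at m3
      obtain ⟨k, hk, rfl⟩ := he
      rcases hβ.lt_or_eq with hβ | rfl
      swap
      · exact ⟨1, M.one_mem, rfl, (fix1 (hM.le hk)).symm⟩
      obtain ⟨a, da, a1, a2⟩ := Dy.exists_between (lt_min m2 m3)
      obtain ⟨g, hg, e⟩ := trans_pt da Dy.one dβ (((hM.le hk).1.2 β).dy.2 dβ)
        (a2.trans_le (min_le_right _ _)) hβ (a2.trans_le (min_le_left _ _)) (sup_lt (hM.le hk) hβ)
      refine ⟨g, gap_mem hM h0 h1 (by linarith) ((a2.trans_le (min_le_right _ _)).trans hβ) le_rfl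
        ?_ hg, hg.2 _ (Or.inl (by linarith)), e⟩
      rintro ⟨m, hm, m4, -⟩
      rw [hfix m hm] at m4
      linarith
    · exact small_pair hM h0 h1 dα dβ hα hαβ hαβ' hβ hβ' h (fun h' => h (hiff.2 h')) he

theorem dy_word {y : ℝ} (hy : Dy y) (h0 : 0 ≤ y) (h1 : y < 1) : ∃ u, y = aff u 0 := by
  obtain ⟨m, e, rfl⟩ := hy
  have he : (0 : ℝ) < 2 ^ e := by positivity
  rw [le_div_iff₀ he, zero_mul] at h0
  rw [div_lt_one he] at h1
  have h2 : 0 ≤ m := by exact_mod_cast h0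
  obtain ⟨j, rfl⟩ := Int.eq_ofNat_of_zero_le h2
  obtain ⟨v, hv⟩ := exists_word_10168 e j (by exact_mod_cast h1)
  exact ⟨v, by rw [hv]; simp⟩

theorem pairs_finite {M : Subgroup P} (hM : MaxIn M) (hB : CaseB M)
    (hcore : ∃ N : ℕ, ∀ u, ∃ v : List Bool, v.length ≤ N ∧ WEq M u v) :
    ∃ C : Set (ℝ × ℝ), C.Finite ∧ ∀ α β, Dy α → Dy β → 0 ≤ α → α < β → β ≤ 1 →
      ∃ c ∈ C, ∃ h ∈ M, h α = c.1 ∧ h β = c.2 := by
  classical
  obtain ⟨N, hN⟩ := hcore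
  obtain ⟨γ, hγ⟩ := pair_step hM hB
  let D : Set ℝ := insert 1 ((fun v => aff v 0) '' {v : List Bool | v.length ≤ N})
  have hD : D.Finite := ((List.finite_length_le Bool N).image _).insert 1
  have hrep : ∀ y, Dy y → 0 ≤ y → y ≤ 1 → ∃ p ∈ D, OEq M y p := by
    intro y hy h0 h1
    rcases h1.lt_or_eq with h1 | rfl
    · obtain ⟨u, rfl⟩ := dy_word hy h0 h1
      obtain ⟨v, hv, h, hh, e⟩ := hN u
      exact ⟨_, Or.inr ⟨v, hv, rfl⟩, h, hh, e 0 le_rfl zero_le_one⟩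
    · exact ⟨1, Or.inl rfl, (oset M).refl 1⟩
  let S : ℝ × ℝ × Prop → ℝ × ℝ → Prop := fun z c => c.1 < c.2 ∧ OEq M c.1 z.1 ∧
    OEq M c.2 z.2.1 ∧ (Big M γ c.1 c.2 ↔ z.2.2)
  let ch : ℝ × ℝ × Prop → ℝ × ℝ := fun z => if h : ∃ c, S z c then h.choose else 0
  refine ⟨ch '' (D ×ˢ D ×ˢ Set.univ), (hD.prod (hD.prod Set.finite_univ)).image _, ?_⟩
  intro α β dα dβ hα hαβ hβ
  obtain ⟨p, hp, e1⟩ := hrep α dα hα (hαβ.le.trans hβ)
  obtain ⟨q, hq, e2⟩ := hrep β dβ (hα.trans hαβ.le) hβ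
  have hex : ∃ c, S (p, q, Big M γ α β) c := ⟨(α, β), hαβ, e1, e2, Iff.rfl⟩
  have hch : S (p, q, Big M γ α β) (ch (p, q, Big M γ α β)) := by
    simp only [ch, dif_pos hex]
    exact hex.choose_spec
  refine ⟨ch (p, q, Big M γ α β), ⟨_, ⟨hp, hq, trivial⟩, rfl⟩, ?_⟩
  generalize ch (p, q, Big M γ α β) = c at hch
  obtain ⟨c1, c2, c3, c4⟩ := hch
  obtain ⟨k, hk, ek⟩ := (oset M).trans e1 ((oset M).symm c2)
  have e3 : OEq M β (k⁻¹ c.2) := (oset M).trans e2 ((oset M).trans ((oset M).symm c3)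
    ⟨k⁻¹, M.inv_mem hk, rfl⟩)
  have e4 : k⁻¹ c.1 = α := by rw [← ek, inv_left]
  obtain ⟨g, hg, g1, g2⟩ := hγ α β (k⁻¹ c.2) dα dβ hα hαβ (e4 ▸ smono hM.le (M.inv_mem hk) c1) hβ
    (by
      obtain ⟨j, hj, ej⟩ := e3
      have := (smono hM.le hj).monotone hβ
      rwa [fix1 (hM.le hj), ej] at this)
    (by
      refine Iff.trans (c4.symm : Big M γ α β ↔ _) ?_
      constructor
      · intro h
        have := h.map hM.le (M.inv_mem hk)
        rwa [e4] at this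
      · intro h
        have := h.map hM.le hk
        rwa [ek, inv_right] at this) e3
  exact ⟨k * g, M.mul_mem hk hg, by rw [Equiv.Perm.mul_apply, g1, ek],
    by rw [Equiv.Perm.mul_apply, g2, inv_right]⟩

end Pool.Agent.H828Z.MaxF
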