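import Pool.Agent.H828Z.MaxF.Geo2

set_option autoImplicit false

/-! The finite presentability criterion for closed subgroups of `F`. -/

namespace Pool.Agent.H828Z.MaxF

open Pool.Agent.Helper283.PL

/-- two standard intervals related affinely by an element of `M` -/
def WEq (M : Subgroup P) (u v : List Bool) : Prop :=
  ∃ h ∈ M, ∀ x, 0 ≤ x → x ≤ 1 → h (aff u x) = aff v x

def wset (M : Subgroup P) : Setoid (List Bool) where
  r := WEq M
  iseqv := ⟨fun _ => ⟨1, M.one_mem, fun _ _ _ => rfl⟩,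
    fun ⟨h, hh, e⟩ => ⟨h⁻¹, M.inv_mem hh, fun x h0 h1 => by rw [← e x h0 h1, inv_left]⟩,
    fun ⟨h, hh, e⟩ ⟨k, hk, e'⟩ => ⟨k * h, M.mul_mem hk hh, fun x h0 h1 => by
      rw [Equiv.Perm.mul_apply, e x h0 h1, e' x h0 h1]⟩⟩

theorem WEq.append {M : Subgroup P} {u v : List Bool} (h : WEq M u v) (w : List Bool) :
    WEq M (u ++ w) (v ++ w) := by
  obtain ⟨g, hg, h⟩ := h
  refine ⟨g, hg, fun x h0 h1 => ?_⟩
  rw [aff_append_10168, aff_append_10168]
  exact h _ (aff_bd_10169 w x h0 h1).1 (aff_bd_10169 w x h0 h1).2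

theorem forall2_three {α β γ' : Type*} {R1 : α → γ' → Prop} {R2 : β → γ' → Prop}
    {R3 : α → β → Prop} : ∀ {l1 : List α} {l2 : List β} {l3 : List γ'},
      List.Forall₂ R1 l1 l3 → List.Forall₂ R2 l2 l3 → List.Forall₂ R3 l1 l2 →
        ∀ u ∈ l1, ∃ v k, R1 u k ∧ R2 v k ∧ R3 u v
  | _, _, _, .nil, .nil, .nil => by simp
  | _, _, _, .cons h1 h2, .cons h3 h4, .cons h5 h6 => by
    intro u hu
    rcases List.mem_cons.1 hu with rfl | hu
    · exact ⟨_, _, h1, h3, h5⟩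
    · exact forall2_three h2 h4 h6 u hu

theorem fp_of_closed (M : Subgroup P) (hM : M ≤ Sup 0 1) (hc : Closed M)
    (hcore : ∃ N : ℕ, ∀ u, ∃ v : List Bool, v.length ≤ N ∧ WEq M u v)
    (hpair : ∃ C : Set (ℝ × ℝ), C.Finite ∧ ∀ α β, Dy α → Dy β → 0 ≤ α → α < β → β ≤ 1 →
      ∃ c ∈ C, ∃ h ∈ M, h α = c.1 ∧ h β = c.2) :
    Group.IsFinitelyPresented M := by
  classical
  obtain ⟨N, hN⟩ := hcore
  obtain ⟨C, hC, hpair⟩ := hpair
  let Q := Quotient (wset M)
  have : Finite {v : List Bool // v.length ≤ N} := (List.finite_length_le Bool N).to_subtype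
  have : Finite Q := by
    refine Finite.of_surjective (fun v : {v : List Bool // v.length ≤ N} =>
      (Quotient.mk (wset M) v.1 : Q)) ?_
    intro q
    obtain ⟨u, rfl⟩ := Quotient.exists_rep q
    obtain ⟨v, hv, h⟩ := hN u
    exact ⟨⟨v, hv⟩, (Quotient.sound (s := wset M) h).symm⟩
  let CT := {p : ℝ × ℝ // p ∈ C ∧ Dy p.1 ∧ Dy p.2 ∧ p.1 < p.2 ∧ 0 ≤ p.1 ∧ p.2 ≤ 1}
  have : Finite CT := (hC.subset fun p hp => hp.1).to_subtype
  let out : Q → List Bool := Quotient.out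
  let c0 : Q → Q := fun q => Quotient.mk (wset M) (out q ++ [false])
  let c1 : Q → Q := fun q => Quotient.mk (wset M) (out q ++ [true])
  let lo : Q ⊕ CT → ℝ := Sum.elim (fun q => aff (out q) 0) fun c => c.1.1
  let hi : Q ⊕ CT → ℝ := Sum.elim (fun q => aff (out q) 1) fun c => c.1.2
  have hL : ∀ l, Dy (lo l) ∧ Dy (hi l) ∧ lo l < hi l := by
    rintro (q | c)
    · exact ⟨dy_aff_10184 _ Dy.zero, dy_aff_10184 _ Dy.one, aff_lt_10168 _ zero_lt_one⟩
    · exact ⟨c.2.2.1, c.2.2.2.1, c.2.2.2.2.1⟩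
  have hB : ∀ l, 0 ≤ lo l ∧ hi l ≤ 1 := by
    rintro (q | c)
    · exact ⟨aff_nonneg_10168 _, aff_le_one_10168 _⟩
    · exact c.2.2.2.2.2
  have bd : ∀ g ∈ M, ∀ x, (0 ≤ x → 0 ≤ g x) ∧ (x ≤ 1 → g x ≤ 1) := by
    intro g hg x
    constructor
    · intro h
      have := (smono hM hg).monotone h
      rwa [(hM hg).2 0 (Or.inl le_rfl)] at this
    · intro h
      have := (smono hM hg).monotone h
      rwa [(hM hg).2 1 (Or.inr le_rfl)] at this
  have dy : ∀ g ∈ M, ∀ x, Dy x → Dy (g x) := fun g hg x hx => ((plh hM hg).2 x).dy.2 hx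
  have hmu : ∀ z : Option (Q ⊕ CT) × Option (Q ⊕ CT), ∃ (ee : Option (Q ⊕ CT)) (n1 n2 : P),
      RuleOK lo hi Prod.fst Prod.snd (fun _ => ee) (fun _ => n1) (fun _ => n2) M z := by
    rintro ⟨p, q⟩
    by_cases h : ∃ la lb, p = some la ∧ q = some lb ∧ OEq M (hi la) (lo lb)
    · obtain ⟨la, lb, rfl, rfl, k, hk, e1⟩ := h
      have o1 : k (lo la) < lo lb := e1 ▸ smono hM hk (hL la).2.2
      obtain ⟨c, hcC, h, hh, e2, e3⟩ := hpair (k (lo la)) (hi lb) (dy k hk _ (hL la).1) (hL lb).2.1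
        ((bd k hk _).1 (hB la).1) (o1.trans (hL lb).2.2) (hB lb).2
      refine ⟨some (Sum.inr ⟨c, hcC, e2 ▸ dy h hh _ (dy k hk _ (hL la).1),
        e3 ▸ dy h hh _ (hL lb).2.1, e2 ▸ e3 ▸ smono hM hh (o1.trans (hL lb).2.2),
        e2 ▸ (bd h hh _).1 ((bd k hk _).1 (hB la).1), e3 ▸ (bd h hh _).2 (hB lb).2⟩), h * k, h,
        Or.inl ⟨la, lb, _, rfl, rfl, rfl, M.mul_mem hh hk, hh, e2, ?_, e3⟩⟩
      simp only [Equiv.Perm.mul_apply, e1]
    · exact ⟨none, 1, 1, Or.inr ⟨rfl, fun la lb h1 h2 h3 => h ⟨la, lb, h1, h2, h3⟩⟩⟩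
  choose ee n1 n2 hmu using hmu
  have hk : ∀ (q : Q) (bb : Bool), WEq M (out (Quotient.mk (wset M) (out q ++ [bb])))
      (out q ++ [bb]) := fun q bb => Quotient.mk_out (s := wset M) _
  choose k hkM hk using hk
  let R := Q ⊕ (Option (Q ⊕ CT) × Option (Q ⊕ CT))
  let a : R → Option (Q ⊕ CT) := Sum.elim (fun q => some (Sum.inl (c0 q))) Prod.fst
  let b : R → Option (Q ⊕ CT) := Sum.elim (fun q => some (Sum.inl (c1 q))) Prod.snd
  let e : R → Option (Q ⊕ CT) := Sum.elim (fun q => some (Sum.inl q)) ee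
  let m1 : R → P := Sum.elim (fun q => k q false) n1
  let m2 : R → P := Sum.elim (fun q => k q true) n2
  have hm1 : ∀ q x, 0 ≤ x → x ≤ 1 →
      m1 (Sum.inl q) (aff (out (c0 q)) x) = aff (out q) (aff [false] x) := by
    intro q x h0 h1
    rw [← aff_append_10168]; exact hk q false x h0 h1
  have hm2 : ∀ q x, 0 ≤ x → x ≤ 1 →
      m2 (Sum.inl q) (aff (out (c1 q)) x) = aff (out q) (aff [true] x) := by
    intro q x h0 h1
    rw [← aff_append_10168]; exact hk q true x h0 h1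
  have hR : ∀ r, RuleOK lo hi a b e m1 m2 M r := by
    rintro (q | z)
    · refine Or.inl ⟨_, _, _, rfl, rfl, rfl, hkM q false, hkM q true, ?_, ?_, ?_⟩
      · show m1 (Sum.inl q) (aff (out (c0 q)) 0) = aff (out q) 0
        rw [hm1 q 0 le_rfl zero_le_one]; simp [aff]
      · show m1 (Sum.inl q) (aff (out (c0 q)) 1) = m2 (Sum.inl q) (aff (out (c1 q)) 0)
        rw [hm1 q 1 zero_le_one le_rfl, hm2 q 0 le_rfl zero_le_one]; simp [aff]
      · show m2 (Sum.inl q) (aff (out (c1 q)) 1) = aff (out q) 1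
        rw [hm2 q 1 zero_le_one le_rfl]; simp [aff]
    · exact hmu z
  obtain ⟨γ, hγ⟩ := exists_gamOK lo hi a b e m1 m2 hM hL hc hR
  obtain ⟨G, _, X, hG, hX, huniv⟩ := exists_universal a b e (fun p q => Sum.inr (p, q))
    (fun _ _ => ⟨rfl, rfl⟩)
  let Y : R → List (Option (Q ⊕ CT)) → M := fun r W =>
    ⟨YY lo hi e γ M r W, YY_mem lo hi a b e m1 m2 γ hγ r W⟩
  obtain ⟨π, hπ⟩ := huniv M Y fun r r' v w =>
    Subtype.ext (YY_rel lo hi a b e m1 m2 γ hM hL hR hγ r r' v w)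
  let ρ : Q := Quotient.mk (wset M) []
  have hsl : ∀ (T : BT) (q : Q), sl c0 c1 q T =
      T.leaves.map fun w => (Quotient.mk (wset M) (out q ++ w) : Q) := by
    intro T
    induction T with
    | leaf => intro q; simp [sl, BT.leaves, out]
    | node l r ihl ihr =>
      intro q
      simp only [sl, BT.leaves, List.map_append, List.map_map, ihl, ihr]
      congr 1 <;> refine List.map_congr_left fun w _ => Quotient.sound (s := wset M) ?_
      · have := WEq.append ⟨_, hkM q false, hk q false⟩ w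
        rw [List.append_assoc] at this
        exact this
      · have := WEq.append ⟨_, hkM q true, hk q true⟩ w
        rw [List.append_assoc] at this
        exact this
  have hρ : WEq M (out ρ) [] := Quotient.mk_out (s := wset M) _
  have hst : ∀ g ∈ M, ∀ T S, TreeMap (g : P) T S → sl c0 c1 ρ T = sl c0 c1 ρ S := by
    intro g hg T S h
    rw [hsl, hsl]
    unfold TreeMap at h
    generalize T.leaves = l1, S.leaves = l2 at h
    induction h with
    | nil => rfl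
    | @cons u v _ _ h1 _ ih =>
      simp only [List.map_cons, ih]
      congr 1
      exact Quotient.sound (s := wset M) ((wset M).trans (hρ.append u)
        ((wset M).trans (⟨g, hg, h1⟩ : WEq M u v) ((wset M).symm (hρ.append v))))
  obtain ⟨σ, hσ⟩ := exists_section (fun q => some (Sum.inl q)) c0 c1 Sum.inl X hX
    (fun _ => rfl) (fun _ => rfl) (fun _ => rfl) M hM ρ hst
  obtain ⟨h0, hh0, hh0'⟩ := hρ
  let P0 : M := ⟨h0 * (AA M hi (Sum.inl ρ))⁻¹, M.mul_mem hh0 (M.inv_mem (AA_mem M hi _))⟩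
  refine fp_retract ((MulAut.conj P0).toMonoidHom.comp π) σ ?_
  intro g
  obtain ⟨T, S, hTS⟩ := exists_trees (hM g.2)
  have hroot : Path M lo hi (rep M (hi (Sum.inl ρ))) [] 1 := by
    have h1 := hh0' 1 zero_le_one le_rfl
    show rep M (aff (out ρ) 1) = 1
    rw [(rep_eq_iff M).2 ⟨h0, hh0, h1⟩]
    exact rep_one hM
  have geo := fun T => (pp_geo lo hi a b e m1 m2 γ Sum.inl c0 c1 Sum.inl out hM hL hR hγ
    (fun _ => rfl) (fun _ => rfl) (fun _ => rfl) (fun _ => rfl) (fun _ => rfl) hm1 hm2 ρ T []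
    hroot).2.2
  have gT := geo T
  have gS := geo S
  rw [← hst g.1 g.2 T S hTS] at gS
  have hval : ∀ T, ((π (pp (fun q => some (Sum.inl q)) c0 c1 Sum.inl X ρ T []) : M) : P) =
      pp (fun q => some (Sum.inl q)) c0 c1 Sum.inl (YY lo hi e γ M) ρ T [] := fun T =>
    map_pp (fun q => some (Sum.inl q)) c0 c1 Sum.inl X (M.subtype.comp π) (YY lo hi e γ M)
      (fun r W => by rw [MonoidHom.comp_apply, hπ]; rfl) ρ T []
  apply Subtype.ext
  have hmem : (((MulAut.conj P0).toMonoidHom.comp π) (σ g)).1 ∈ Sup 0 1 := hM (Subtype.prop _)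
  have := Sup_ext10170 (e := ⟨_, hmem⟩) (e' := ⟨g.1, hM g.2⟩) ?_
  · exact congrArg (fun z : Sup 0 1 => z.1) this
  intro x x0 x1
  obtain ⟨u, hu, t, t0, t1, rfl⟩ := leaf_cover10170 T x0 x1
  obtain ⟨v, c, e1, e2, e3⟩ := forall2_three gT gS hTS u hu
  have hu' := aff_bd_10169 u t t0 t1
  have hv' := aff_bd_10169 v t t0 t1
  show (((MulAut.conj P0).toMonoidHom.comp π) (σ g)).1 (aff u t) = g.1 (aff u t)
  rw [hσ g T S hTS, e3 t t0 t1]
  simp only [MonoidHom.comp_apply, MulEquiv.coe_toMonoidHom, MulAut.conj_apply, map_mul, map_inv,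
    Subgroup.coe_mul, Subgroup.coe_inv, hval, Equiv.Perm.mul_apply, mul_inv_rev, inv_inv, inv_left]
  have f1 : (P0.1)⁻¹ (aff u t) = AA M hi (Sum.inl ρ) (aff (out ρ) (aff u t)) := by
    rw [Equiv.Perm.inv_eq_iff_eq]
    show _ = h0 ((AA M hi (Sum.inl ρ))⁻¹ _)
    rw [inv_left, hh0' _ hu'.1 hu'.2]; rfl
  have e1' := e1 t t0 t1
  have e2' := e2 t t0 t1
  simp only [Phi, Equiv.Perm.one_apply] at e1' e2'
  rw [f1, ← e1', inv_left, e2']
  show h0 ((AA M hi (Sum.inl ρ))⁻¹ _) = _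
  rw [inv_left, hh0' _ hv'.1 hv'.2]; rfl

end Pool.Agent.H828Z.MaxF
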