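import Pool.Agent.H828Z.MaxF.Tree

set_option autoImplicit false

/-! A closed subgroup of `F` with finite core and finitely many orbits on pairs of dyadic points
is finitely presented. -/

namespace Pool.Agent.H828Z.MaxF

open Pool.Agent.Helper283.PL

theorem comm_of_supp {k δ : P} (hk : StrictMono k) (hδ : StrictMono δ) {p : ℝ}
    (h1 : ∀ x, x ≤ p → k x = x) (h2 : ∀ x, p ≤ x → δ x = x) : k * δ = δ * k := by
  ext x
  simp only [Equiv.Perm.mul_apply]
  rcases le_total x p with h | h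
  · rw [h1 x h, h1]
    have := hδ.monotone h
    rwa [h2 p le_rfl] at this
  · rw [h2 x h, h2]
    have := hk.monotone h
    rwa [h1 p le_rfl] at this

theorem conj_eq {s t δ : P} (hs : s ∈ PLH) (ht : t ∈ PLH) (hδ : δ ∈ PLH) {p : ℝ}
    (h1 : ∀ x, x ≤ p → s x = t x) (h2 : ∀ x, p ≤ x → δ x = x) : s * δ * s⁻¹ = t * δ * t⁻¹ := by
  have := comm_of_supp (PLH.mul_mem (PLH.inv_mem ht) hs).1 hδ.1 (p := p)
    (fun x hx => by rw [Equiv.Perm.mul_apply, h1 x hx, inv_left]) h2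
  calc s * δ * s⁻¹ = t * (t⁻¹ * s * δ) * s⁻¹ := by group
    _ = _ := by rw [this]; group

variable (M : Subgroup P)

/-- same orbit -/
def OEq (x y : ℝ) : Prop := ∃ h ∈ M, h x = y

def oset : Setoid ℝ where
  r := OEq M
  iseqv := ⟨fun _ => ⟨1, M.one_mem, rfl⟩,
    fun ⟨h, hh, e⟩ => ⟨h⁻¹, M.inv_mem hh, by rw [← e, inv_left]⟩,
    fun ⟨h, hh, e⟩ ⟨k, hk, e'⟩ => ⟨k * h, M.mul_mem hk hh, by rw [Equiv.Perm.mul_apply, e, e']⟩⟩

/-- representative of the orbit -/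
noncomputable def rep (y : ℝ) : ℝ := (Quotient.mk (oset M) y).out

theorem rep_oeq (y : ℝ) : OEq M (rep M y) y := Quotient.mk_out (s := oset M) y

theorem rep_eq_iff {x y : ℝ} : rep M x = rep M y ↔ OEq M x y := by
  constructor
  · intro h
    exact (oset M).trans ((oset M).symm (rep_oeq M x)) (h ▸ rep_oeq M y)
  · intro h
    unfold rep
    rw [Quotient.sound (s := oset M) h]

noncomputable def nu (y : ℝ) : P := (rep_oeq M y).choose

theorem nu_mem (y : ℝ) : nu M y ∈ M := (rep_oeq M y).choose_spec.1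

theorem nu_rep (y : ℝ) : nu M y (rep M y) = y := (rep_oeq M y).choose_spec.2

theorem nu_inv (y : ℝ) : (nu M y)⁻¹ y = rep M y := by
  conv_lhs => rw [← nu_rep M y]
  rw [nu_rep, Equiv.Perm.inv_eq_iff_eq, nu_rep]

/-- gluing at dyadic points stays in `M` -/
def Closed : Prop := ∀ h1 ∈ M, ∀ h2 ∈ M, ∀ y, Dy y → h1 y = h2 y →
  ∃ h ∈ M, (∀ x, x ≤ y → h x = h1 x) ∧ ∀ x, y ≤ x → h x = h2 x

section geo

variable {Λ R : Type} (lo hi : Λ → ℝ)

noncomputable def AA (l : Λ) : P := (nu M (hi l))⁻¹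

noncomputable def BB : Option Λ → P
  | none => 1
  | some l => (nu M (hi l))⁻¹ * nu M (lo l)

noncomputable def Phi : List (Option Λ) → P
  | [] => 1
  | l :: W => Phi W * BB M lo hi l

def Path : ℝ → List (Option Λ) → ℝ → Prop
  | p, [], p' => p = p'
  | _, none :: _, _ => False
  | p, some l :: W, p' => p = rep M (lo l) ∧ Path (rep M (hi l)) W p'

theorem AA_mem (l : Λ) : AA M hi l ∈ M := M.inv_mem (nu_mem M _)

theorem BB_mem : ∀ l : Option Λ, BB M lo hi l ∈ M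
  | none => M.one_mem
  | some _ => M.mul_mem (M.inv_mem (nu_mem M _)) (nu_mem M _)

theorem Phi_mem : ∀ W : List (Option Λ), Phi M lo hi W ∈ M
  | [] => M.one_mem
  | l :: W => M.mul_mem (Phi_mem W) (BB_mem M lo hi l)

theorem Phi_append (v W : List (Option Λ)) :
    Phi M lo hi (v ++ W) = Phi M lo hi W * Phi M lo hi v := by
  induction v with
  | nil => simp [Phi]
  | cons l v ih => simp [Phi, ih, mul_assoc]

theorem AA_hi (l : Λ) : AA M hi l (hi l) = rep M (hi l) := nu_inv M _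

theorem BB_rep (l : Λ) : BB M lo hi (some l) (rep M (lo l)) = AA M hi l (lo l) := by
  simp only [BB, AA, Equiv.Perm.mul_apply, nu_rep]

theorem path_append : ∀ (v w : List (Option Λ)) (p p'' : ℝ),
    Path M lo hi p (v ++ w) p'' ↔ ∃ p', Path M lo hi p v p' ∧ Path M lo hi p' w p''
  | [], w, p, p'' => by simp [Path]
  | none :: v, w, p, p'' => by simp [Path]
  | some l :: v, w, p, p'' => by
    simp only [List.cons_append, Path, path_append v w]
    constructor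
    · rintro ⟨h, p', h1, h2⟩; exact ⟨p', ⟨h, h1⟩, h2⟩
    · rintro ⟨p', ⟨h, h1⟩, h2⟩; exact ⟨h, p', h1, h2⟩

variable {M} (hM : M ≤ Sup 0 1) (hL : ∀ l, Dy (lo l) ∧ Dy (hi l) ∧ lo l < hi l)
include hM

theorem plh {g : P} (hg : g ∈ M) : g ∈ PLH := (hM hg).1

theorem smono {g : P} (hg : g ∈ M) : StrictMono g := (hM hg).1.1

theorem dy_rep {y : ℝ} (h : Dy y) : Dy (rep M y) := by
  rw [← nu_inv]
  exact ((plh hM (M.inv_mem (nu_mem M y))).2 y).dy.2 h

theorem rep_one : rep M 1 = 1 := by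
  rw [← nu_inv]
  exact (hM (M.inv_mem (nu_mem M 1))).2 1 (Or.inr le_rfl)

include hL

theorem path_le : ∀ (v : List (Option Λ)) (p p' : ℝ), Path M lo hi p v p' → Phi M lo hi v p ≤ p'
  | [], p, p', h => by simp [Phi]; exact le_of_eq h
  | none :: v, p, p', h => h.elim
  | some l :: v, p, p', h => by
    obtain ⟨rfl, h⟩ := h
    refine le_trans ?_ (path_le v _ _ h)
    simp only [Phi, Equiv.Perm.mul_apply]
    apply (smono hM (Phi_mem M lo hi v)).monotone
    rw [BB_rep, ← AA_hi]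
    exact (smono hM (AA_mem M hi l)).monotone (hL l).2.2.le

theorem exists_gam (hc : Closed M) (la lb le : Λ) {m1 m2 : P} (h1 : m1 ∈ M) (h2 : m2 ∈ M)
    (e1 : m1 (lo la) = lo le) (e2 : m1 (hi la) = m2 (lo lb)) (e3 : m2 (hi lb) = hi le) :
    ∃ γ ∈ M, (∀ x, x ≤ rep M (lo la) →
        γ (BB M lo hi (some lb) (BB M lo hi (some la) x)) = BB M lo hi (some le) x) ∧
      (∀ x, lo la ≤ x → x ≤ hi la →
        γ (BB M lo hi (some lb) (AA M hi la x)) = AA M hi le (m1 x)) ∧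
      (∀ x, lo lb ≤ x → x ≤ hi lb → γ (AA M hi lb x) = AA M hi le (m2 x)) ∧
      ∀ x, rep M (hi lb) ≤ x → γ x = x := by
  set Ba := BB M lo hi (some la)
  set Bb := BB M lo hi (some lb)
  set Be := BB M lo hi (some le)
  set Aa := AA M hi la
  set Ab := AA M hi lb
  set Ae := AA M hi le
  have mBa : Ba ∈ M := BB_mem M lo hi _
  have mBb : Bb ∈ M := BB_mem M lo hi _
  have mBe : Be ∈ M := BB_mem M lo hi _
  have mAa : Aa ∈ M := AA_mem M hi _
  have mAb : Ab ∈ M := AA_mem M hi _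
  have mAe : Ae ∈ M := AA_mem M hi _
  have r1 : rep M (lo la) = rep M (lo le) := (rep_eq_iff M).2 ⟨m1, h1, e1⟩
  have r2 : rep M (hi la) = rep M (lo lb) := (rep_eq_iff M).2
    ⟨m2⁻¹ * m1, M.mul_mem (M.inv_mem h2) h1, by rw [Equiv.Perm.mul_apply, e2, inv_left]⟩
  have r3 : rep M (hi lb) = rep M (hi le) := (rep_eq_iff M).2 ⟨m2, h2, e3⟩
  have dy : ∀ g ∈ M, ∀ x, Dy x → Dy (g x) := fun g hg x hx => ((plh hM hg).2 x).dy.2 hx
  have p1 : Bb (Aa (hi la)) = Ab (lo lb) := by rw [AA_hi, r2, BB_rep]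
  have p0 : Ba (rep M (lo la)) = Aa (lo la) := BB_rep M lo hi la
  obtain ⟨g2, mg2, a2, b2⟩ := hc (Ae * m2 * Ab⁻¹) (M.mul_mem (M.mul_mem mAe h2) (M.inv_mem mAb)) 1
    M.one_mem (Ab (hi lb)) (dy _ mAb _ (hL lb).2.1) (by
      simp only [Equiv.Perm.mul_apply, inv_left, e3, Equiv.Perm.one_apply]
      rw [AA_hi, AA_hi, r3])
  obtain ⟨g1, mg1, a1, b1⟩ := hc (Ae * m1 * (Bb * Aa)⁻¹)
    (M.mul_mem (M.mul_mem mAe h1) (M.inv_mem (M.mul_mem mBb mAa))) g2 mg2
    (Ab (lo lb)) (dy _ mAb _ (hL lb).1) (by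
      rw [a2 _ ((smono hM mAb).monotone (hL lb).2.2.le)]
      simp only [Equiv.Perm.mul_apply, inv_left]
      rw [← p1, ← Equiv.Perm.mul_apply Bb Aa, inv_left, e2])
  have o1 : Bb (Aa (lo la)) ≤ Ab (lo lb) := by
    rw [← p1]; exact (smono hM mBb).monotone ((smono hM mAa).monotone (hL la).2.2.le)
  have o2 : Ab (lo lb) ≤ Ab (hi lb) := (smono hM mAb).monotone (hL lb).2.2.le
  obtain ⟨g0, mg0, a0, b0⟩ := hc (Be * (Bb * Ba)⁻¹)
    (M.mul_mem mBe (M.inv_mem (M.mul_mem mBb mBa))) g1 mg1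
    (Bb (Aa (lo la))) (dy _ mBb _ (dy _ mAa _ (hL la).1)) (by
      rw [a1 _ o1]
      simp only [Equiv.Perm.mul_apply]
      rw [← Equiv.Perm.mul_apply Bb Aa, inv_left, e1, Equiv.Perm.mul_apply, ← p0,
        ← Equiv.Perm.mul_apply Bb Ba, inv_left, r1, BB_rep])
  refine ⟨g0, mg0, ?_, ?_, ?_, ?_⟩
  · intro x hx
    rw [a0 _ (by rw [← p0]; exact (smono hM mBb).monotone ((smono hM mBa).monotone hx)),
      Equiv.Perm.mul_apply, ← Equiv.Perm.mul_apply Bb Ba, inv_left]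
  · intro x hx1 hx2
    rw [b0 _ ((smono hM mBb).monotone ((smono hM mAa).monotone hx1)),
      a1 _ (by rw [← p1]; exact (smono hM mBb).monotone ((smono hM mAa).monotone hx2)),
      Equiv.Perm.mul_apply, ← Equiv.Perm.mul_apply Bb Aa, inv_left, Equiv.Perm.mul_apply]
  · intro x hx1 hx2
    have h3 := (smono hM mAb).monotone hx1
    rw [b0 _ (o1.trans h3), b1 _ h3, a2 _ ((smono hM mAb).monotone hx2), Equiv.Perm.mul_apply,
      inv_left, Equiv.Perm.mul_apply]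
  · intro x hx
    rw [← AA_hi] at hx
    rw [b0 _ (o1.trans (o2.trans hx)), b1 _ (o2.trans hx), b2 _ hx, Equiv.Perm.one_apply]

end geo

end Pool.Agent.H828Z.MaxF
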