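import Pool.Agent.H828Z.MaxF.Geo

set_option autoImplicit false

/-! The geometric family and the products along trees. -/

namespace Pool.Agent.H828Z.MaxF

open Pool.Agent.Helper283.PL

section fam

variable {M : Subgroup P} {Λ R : Type} (lo hi : Λ → ℝ) (a b e : R → Option Λ) (m1 m2 γ : R → P)

/-- a rule is geometric or junk -/
def RuleOK (M : Subgroup P) (r : R) : Prop :=
  (∃ la lb le, a r = some la ∧ b r = some lb ∧ e r = some le ∧ m1 r ∈ M ∧ m2 r ∈ M ∧
    m1 r (lo la) = lo le ∧ m1 r (hi la) = m2 r (lo lb) ∧ m2 r (hi lb) = hi le) ∨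
  (e r = none ∧ ∀ la lb, a r = some la → b r = some lb → ¬ OEq M (hi la) (lo lb))

/-- the specification of the elements `γ r` -/
def GamOK (M : Subgroup P) (r : R) : Prop :=
  γ r ∈ M ∧ ∀ la lb le, a r = some la → b r = some lb → e r = some le →
    (∀ x, x ≤ rep M (lo la) →
        γ r (BB M lo hi (some lb) (BB M lo hi (some la) x)) = BB M lo hi (some le) x) ∧
      (∀ x, lo la ≤ x → x ≤ hi la →
        γ r (BB M lo hi (some lb) (AA M hi la x)) = AA M hi le (m1 r x)) ∧
      (∀ x, lo lb ≤ x → x ≤ hi lb → γ r (AA M hi lb x) = AA M hi le (m2 r x)) ∧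
      ∀ x, rep M (hi lb) ≤ x → γ r x = x

theorem exists_gamOK (hM : M ≤ Sup 0 1) (hL : ∀ l, Dy (lo l) ∧ Dy (hi l) ∧ lo l < hi l)
    (hc : Closed M) (hR : ∀ r, RuleOK lo hi a b e m1 m2 M r) :
    ∃ γ : R → P, ∀ r, GamOK lo hi a b e m1 m2 γ M r := by
  have : ∀ r, ∃ g : P, GamOK lo hi a b e m1 m2 (fun _ => g) M r := by
    intro r
    rcases hR r with ⟨la, lb, le, h1, h2, h3, h4, h5, h6, h7, h8⟩ | ⟨h1, -⟩
    · obtain ⟨g, hg, h⟩ := exists_gam lo hi hM hL hc la lb le h4 h5 h6 h7 h8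
      refine ⟨g, hg, fun la' lb' le' h1' h2' h3' => ?_⟩
      rw [h1] at h1'; rw [h2] at h2'; rw [h3] at h3'
      cases h1'; cases h2'; cases h3'
      exact h
    · refine ⟨1, M.one_mem, fun la' lb' le' _ _ h3' => ?_⟩
      rw [h1] at h3'; cases h3'
  choose g hg using this
  exact ⟨g, hg⟩

theorem rule_reps {r : R} (h : RuleOK lo hi a b e m1 m2 M r) {le : Λ} (he : e r = some le) :
    ∃ la lb, a r = some la ∧ b r = some lb ∧ rep M (lo la) = rep M (lo le) ∧
      rep M (hi la) = rep M (lo lb) ∧ rep M (hi lb) = rep M (hi le) := by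
  rcases h with ⟨la, lb, le', h1, h2, h3, h4, h5, h6, h7, h8⟩ | ⟨h1, -⟩
  · rw [he] at h3; cases h3
    exact ⟨la, lb, h1, h2, (rep_eq_iff M).2 ⟨_, h4, h6⟩, (rep_eq_iff M).2
      ⟨(m2 r)⁻¹ * m1 r, M.mul_mem (M.inv_mem h5) h4, by rw [Equiv.Perm.mul_apply, h7, inv_left]⟩,
      (rep_eq_iff M).2 ⟨_, h5, h8⟩⟩
  · rw [he] at h1; cases h1

theorem path_rule {r : R} (h : RuleOK lo hi a b e m1 m2 M r) (w : List (Option Λ)) (p p' : ℝ) :
    Path M lo hi p (a r :: b r :: w) p' ↔ Path M lo hi p (e r :: w) p' := by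
  cases he : e r with
  | some le =>
    obtain ⟨la, lb, h1, h2, r1, r2, r3⟩ := rule_reps lo hi a b e m1 m2 h he
    rw [h1, h2]
    simp only [Path, r1, r2, r3, true_and]
  | none =>
    rcases h with ⟨la, lb, le', h1, h2, h3, -⟩ | ⟨-, h2⟩
    · rw [he] at h3; cases h3
    · simp only [Path, iff_false]
      intro h
      cases ha : a r with
      | none => rw [ha] at h; exact h
      | some la =>
        cases hb : b r with
        | none => rw [ha, hb] at h; exact h.2
        | some lb =>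
          rw [ha, hb] at h
          exact h2 la lb ha hb ((rep_eq_iff M).1 h.2.1)

open Classical in
/-- the geometric family -/
noncomputable def YY (M : Subgroup P) (r : R) (W : List (Option Λ)) : P :=
  if ∃ le, e r = some le ∧ Path M lo hi (rep M (hi le)) W 1 then
    Phi M lo hi W * γ r * (Phi M lo hi W)⁻¹ else 1

theorem YY_mem (hγ : ∀ r, GamOK lo hi a b e m1 m2 γ M r) (r : R) (W : List (Option Λ)) :
    YY lo hi e γ M r W ∈ M := by
  unfold YY
  split_ifs
  · exact M.mul_mem (M.mul_mem (Phi_mem M lo hi W) (hγ r).1) (M.inv_mem (Phi_mem M lo hi W))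
  · exact M.one_mem

theorem YY_valid {r : R} {W : List (Option Λ)} {le : Λ} (h1 : e r = some le)
    (h2 : Path M lo hi (rep M (hi le)) W 1) :
    YY lo hi e γ M r W = Phi M lo hi W * γ r * (Phi M lo hi W)⁻¹ := if_pos ⟨le, h1, h2⟩

theorem YY_rel (hM : M ≤ Sup 0 1) (hL : ∀ l, Dy (lo l) ∧ Dy (hi l) ∧ lo l < hi l)
    (hR : ∀ r, RuleOK lo hi a b e m1 m2 M r) (hγ : ∀ r, GamOK lo hi a b e m1 m2 γ M r) :
    Rel a b e (YY lo hi e γ M) := by
  intro r r' v w
  have hiff : ∀ p, Path M lo hi p (v ++ a r' :: b r' :: w) 1 ↔ Path M lo hi p (v ++ e r' :: w) 1 := by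
    intro p
    simp only [path_append, path_rule lo hi a b e m1 m2 (hR r')]
  by_cases hv : ∃ le, e r = some le ∧ Path M lo hi (rep M (hi le)) (v ++ e r' :: w) 1
  · obtain ⟨le, h1, h2⟩ := hv
    rw [YY_valid lo hi e γ h1 h2, YY_valid lo hi e γ h1 ((hiff _).2 h2)]
    obtain ⟨p', h3, h4⟩ := (path_append M lo hi _ _ _ _).1 h2
    cases he' : e r' with
    | none => rw [he'] at h4; exact h4.elim
    | some le' =>
      rw [he'] at h4
      obtain ⟨rfl, h4⟩ := h4
      rw [YY_valid lo hi e γ he' h4]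
      obtain ⟨la', lb', ha', hb', r1', -, -⟩ := rule_reps lo hi a b e m1 m2 (hR r') he'
      obtain ⟨la, lb, ha, hb, -, -, r3⟩ := rule_reps lo hi a b e m1 m2 (hR r) h1
      have hs := ((hγ r').2 la' lb' le' ha' hb' he').1
      have hf := ((hγ r).2 la lb le ha hb h1).2.2.2
      have key := conj_eq (p := rep M (lo le'))
        (s := Phi M lo hi w * γ r' * BB M lo hi (some lb') * BB M lo hi (some la'))
        (t := Phi M lo hi w * BB M lo hi (some le'))
        (δ := Phi M lo hi v * γ r * (Phi M lo hi v)⁻¹)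
        (plh hM (M.mul_mem (M.mul_mem (M.mul_mem (Phi_mem M lo hi w) (hγ r').1)
          (BB_mem M lo hi _)) (BB_mem M lo hi _)))
        (plh hM (M.mul_mem (Phi_mem M lo hi w) (BB_mem M lo hi _)))
        (plh hM (M.mul_mem (M.mul_mem (Phi_mem M lo hi v) (hγ r).1)
          (M.inv_mem (Phi_mem M lo hi v))))
        (fun x hx => by
          simp only [Equiv.Perm.mul_apply]
          rw [hs x (by rw [r1']; exact hx)])
        (fun x hx => by
          simp only [Equiv.Perm.mul_apply]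
          rw [hf, inv_right]
          have h5 := (path_le lo hi hM hL v _ _ h3).trans hx
          have h6 := (smono hM (M.inv_mem (Phi_mem M lo hi v))).monotone h5
          rwa [inv_left, ← r3] at h6)
      rw [ha', hb']
      simp only [Phi_append, Phi]
      calc _ = (Phi M lo hi w * γ r' * (Phi M lo hi w)⁻¹)⁻¹ *
          ((Phi M lo hi w * γ r' * BB M lo hi (some lb') * BB M lo hi (some la')) *
            (Phi M lo hi v * γ r * (Phi M lo hi v)⁻¹) *
            (Phi M lo hi w * γ r' * BB M lo hi (some lb') * BB M lo hi (some la'))⁻¹) *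
            (Phi M lo hi w * γ r' * (Phi M lo hi w)⁻¹) := by group
        _ = _ := by rw [key]; group
  · have hv' : ¬ ∃ le, e r = some le ∧
        Path M lo hi (rep M (hi le)) (v ++ a r' :: b r' :: w) 1 := by
      simpa only [hiff] using hv
    have e1 : YY lo hi e γ M r (v ++ e r' :: w) = 1 := if_neg hv
    have e2 : YY lo hi e γ M r (v ++ a r' :: b r' :: w) = 1 := if_neg hv'
    rw [e1, e2]; group

variable {Q : Type} (ι : Q → Λ) (c0 c1 : Q → Q) (lam : Q → R) (out : Q → List Bool)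

/-- canonical parametrisations of the pieces of a word -/
noncomputable def can (M : Subgroup P) : List Q → List (Option Λ) → List (ℝ → ℝ)
  | [], _ => []
  | s :: V, W => (fun x => Phi M lo hi (V.map (fun q => some (ι q)) ++ W)
      (AA M hi (ι s) (aff (out s) x))) :: can M V W

theorem can_append (V1 V2 : List Q) (W : List (Option Λ)) :
    can lo hi ι out M (V1 ++ V2) W =
      can lo hi ι out M V1 (V2.map (fun q => some (ι q)) ++ W) ++ can lo hi ι out M V2 W := by
  induction V1 with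
  | nil => rfl
  | cons s V ih => simp [can, ih]

theorem can_shift (hM : M ≤ Sup 0 1) (hL : ∀ l, Dy (lo l) ∧ Dy (hi l) ∧ lo l < hi l)
    (hhi : ∀ q, hi (ι q) = aff (out q) 1) {y : P} {W1 W2 : List (Option Λ)} {p' : ℝ}
    (h : ∀ x, x ≤ p' → y (Phi M lo hi W1 x) = Phi M lo hi W2 x) :
    ∀ (V : List Q) (p : ℝ), Path M lo hi p (V.map fun q => some (ι q)) p' →
      List.Forall₂ (fun c c' : ℝ → ℝ => ∀ x, 0 ≤ x → x ≤ 1 → y (c x) = c' x)
        (can lo hi ι out M V W1) (can lo hi ι out M V W2)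
  | [], _, _ => List.Forall₂.nil
  | s :: V, p, hp => by
    refine List.Forall₂.cons ?_ (can_shift hM hL hhi h V _ hp.2)
    intro x _ hx
    simp only [Phi_append, Equiv.Perm.mul_apply]
    apply h
    refine le_trans ?_ (path_le lo hi hM hL _ _ _ hp.2)
    apply (smono hM (Phi_mem M lo hi _)).monotone
    rw [← AA_hi]
    apply (smono hM (AA_mem M hi _)).monotone
    rw [hhi]
    exact aff_mono_10168 _ hx

theorem forall2_comp {α β γ' : Type*} {R1 : α → β → Prop} {R2 : γ' → β → Prop}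
    {R3 : α → γ' → Prop} (h : ∀ x y z, R1 x y → R2 z y → R3 x z) :
    ∀ {l1 : List α} {l2 : List β} {l3 : List γ'}, List.Forall₂ R1 l1 l2 → List.Forall₂ R2 l3 l2 →
      List.Forall₂ R3 l1 l3
  | _, _, _, .nil, .nil => .nil
  | _, _, _, .cons h1 h2, .cons h3 h4 => .cons (h _ _ _ h1 h3) (forall2_comp h h2 h4)

variable (hM : M ≤ Sup 0 1) (hL : ∀ l, Dy (lo l) ∧ Dy (hi l) ∧ lo l < hi l)
  (hR : ∀ r, RuleOK lo hi a b e m1 m2 M r) (hγ : ∀ r, GamOK lo hi a b e m1 m2 γ M r)
  (ha : ∀ q, a (lam q) = some (ι (c0 q))) (hb : ∀ q, b (lam q) = some (ι (c1 q)))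
  (he : ∀ q, e (lam q) = some (ι q))
  (hlo : ∀ q, lo (ι q) = aff (out q) 0) (hhi : ∀ q, hi (ι q) = aff (out q) 1)
  (hm1 : ∀ q x, 0 ≤ x → x ≤ 1 → m1 (lam q) (aff (out (c0 q)) x) = aff (out q) (aff [false] x))
  (hm2 : ∀ q x, 0 ≤ x → x ≤ 1 → m2 (lam q) (aff (out (c1 q)) x) = aff (out q) (aff [true] x))
include hR ha hb he

theorem lam_reps (q : Q) : rep M (lo (ι (c0 q))) = rep M (lo (ι q)) ∧
    rep M (hi (ι (c0 q))) = rep M (lo (ι (c1 q))) ∧ rep M (hi (ι (c1 q))) = rep M (hi (ι q)) := by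
  obtain ⟨la, lb, h1, h2, h⟩ := rule_reps lo hi a b e m1 m2 (hR (lam q)) (he q)
  rw [ha] at h1; rw [hb] at h2
  cases h1; cases h2
  exact h

theorem path_sl : ∀ (q : Q) (T : BT), Path M lo hi (rep M (lo (ι q)))
    ((sl c0 c1 q T).map fun q => some (ι q)) (rep M (hi (ι q)))
  | _, .leaf => ⟨rfl, rfl⟩
  | q, .node l r => by
    obtain ⟨r1, r2, r3⟩ := lam_reps lo hi a b e m1 m2 ι c0 c1 lam hR ha hb he q
    simp only [sl, List.map_append, path_append]
    refine ⟨_, r1 ▸ path_sl (c0 q) l, ?_⟩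
    rw [r2, ← r3]
    exact path_sl (c1 q) r

include hM hL hγ hlo hhi hm1 hm2

theorem pp_geo : ∀ (q : Q) (T : BT) (W : List (Option Λ)), Path M lo hi (rep M (hi (ι q))) W 1 →
    (∀ x, Phi M lo hi W (rep M (hi (ι q))) ≤ x →
      pp (fun q => some (ι q)) c0 c1 lam (YY lo hi e γ M) q T W x = x) ∧
    (∀ x, x ≤ rep M (lo (ι q)) →
      pp (fun q => some (ι q)) c0 c1 lam (YY lo hi e γ M) q T W
        (Phi M lo hi ((sl c0 c1 q T).map (fun q => some (ι q)) ++ W) x) =
          Phi M lo hi (some (ι q) :: W) x) ∧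
    List.Forall₂ (fun (w : List Bool) (c : ℝ → ℝ) => ∀ x, 0 ≤ x → x ≤ 1 →
      pp (fun q => some (ι q)) c0 c1 lam (YY lo hi e γ M) q T W (c x) =
        Phi M lo hi W (AA M hi (ι q) (aff (out q) (aff w x))))
      T.leaves (can lo hi ι out M (sl c0 c1 q T) W)
  | q, .leaf, W, _ => by
    refine ⟨fun _ _ => rfl, fun _ _ => rfl, ?_⟩
    refine List.Forall₂.cons (fun x _ _ => ?_) List.Forall₂.nil
    simp [pp, aff]
  | q, .node l r, W, hW => by
    obtain ⟨r1, r2, r3⟩ := lam_reps lo hi a b e m1 m2 ι c0 c1 lam hR ha hb he q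
    have hW1 : Path M lo hi (rep M (hi (ι (c1 q)))) W 1 := r3 ▸ hW
    have hW0 : Path M lo hi (rep M (hi (ι (c0 q)))) (some (ι (c1 q)) :: W) 1 := ⟨r2, hW1⟩
    obtain ⟨a1, b1, d1⟩ := pp_geo (c1 q) r W hW1
    obtain ⟨a0, b0, d0⟩ := pp_geo (c0 q) l _ hW0
    obtain ⟨g1, g2, g3, g4⟩ := (hγ (lam q)).2 _ _ _ (ha q) (hb q) (he q)
    have hY := YY_valid lo hi e γ (he q) hW
    have mW := (smono hM (Phi_mem M lo hi W)).monotone
    have s0 : Phi M lo hi (some (ι (c1 q)) :: W) (rep M (hi (ι (c0 q)))) =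
        Phi M lo hi W (AA M hi (ι (c1 q)) (lo (ι (c1 q)))) := by
      rw [r2, Phi, Equiv.Perm.mul_apply, BB_rep]
    have mA1 := (smono hM (AA_mem M hi (ι (c1 q)))).monotone
    have hp0 := path_sl lo hi a b e m1 m2 ι c0 c1 lam hR ha hb he (c0 q) l
    simp only [pp, Equiv.Perm.mul_apply, hY]
    refine ⟨fun x hx => ?_, fun x hx => ?_, ?_⟩
    · rw [a1 x (r3 ▸ hx), a0 x, g4, inv_right]
      · have := (smono hM (M.inv_mem (Phi_mem M lo hi W))).monotone hx
        rwa [inv_left, ← r3] at this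
      · rw [s0]
        refine le_trans (mW ?_) hx
        rw [← r3, ← AA_hi]
        exact mA1 (hL _).2.2.le
    · simp only [sl, List.map_append, List.append_assoc]
      rw [Phi_append, Equiv.Perm.mul_apply, b1, ← Equiv.Perm.mul_apply (Phi M lo hi (some _ :: W)),
        ← Phi_append, b0 x (r1 ▸ hx)]
      · simp only [Phi, Equiv.Perm.mul_apply, inv_left]
        rw [g1 x (r1 ▸ hx)]
      · rw [← r2]
        refine le_trans ((smono hM (Phi_mem M lo hi _)).monotone (r1 ▸ hx : x ≤ _)) ?_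
        exact path_le lo hi hM hL _ _ _ hp0
    · simp only [sl, BT.leaves, can_append]
      refine List.rel_append ?_ ?_
      · rw [List.forall₂_map_left_iff]
        have hs := can_shift lo hi ι out hM hL hhi b1 (sl c0 c1 (c0 q) l) _ (r2 ▸ hp0)
        refine forall2_comp ?_ d0 hs
        intro w c c' h1 h2 x x0 x1
        have hx := aff_bd_10169 w x x0 x1
        rw [h2 x x0 x1, h1 x x0 x1]
        simp only [Phi, Equiv.Perm.mul_apply, inv_left]
        rw [g2 _ (by rw [hlo]; exact aff_mono_10168 _ hx.1) (by rw [hhi]; exact aff_mono_10168 _ hx.2),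
          hm1 q _ hx.1 hx.2]
        rfl
      · rw [List.forall₂_map_left_iff]
        refine d1.imp ?_
        intro w c h1 x x0 x1
        have hx := aff_bd_10169 w x x0 x1
        have h2 : lo (ι (c1 q)) ≤ aff (out (c1 q)) (aff w x) := by
          rw [hlo]; exact aff_mono_10168 _ hx.1
        rw [h1 x x0 x1, a0 _ (by rw [s0]; exact mW (mA1 h2)), inv_left,
          g3 _ h2 (by rw [hhi]; exact aff_mono_10168 _ hx.2), hm2 q _ hx.1 hx.2]
        rfl

end fam

end Pool.Agent.H828Z.MaxF
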