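import Pool.Agent.H828Z.MaxF.Dyn

set_option autoImplicit false

/-! Maximal subgroups of `F` that surject on the abelianisation are closed. -/

namespace Pool.Agent.H828Z.MaxF

open Pool.Agent.Helper283.PL Filter Topology Set

theorem tend_right {g : P} (hg : g ∈ PLH) (x : ℝ) : Tendsto g (𝓝[≥] x) (𝓝[≥] (g x)) :=
  (hg.2.cont.continuousWithinAt).tendsto_nhdsWithin fun _ hy => hg.1.monotone hy

theorem tend_left {g : P} (hg : g ∈ PLH) (x : ℝ) : Tendsto g (𝓝[≤] x) (𝓝[≤] (g x)) :=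
  (hg.2.cont.continuousWithinAt).tendsto_nhdsWithin fun _ hy => hg.1.monotone hy

/-- `f` agrees with an element of `M` along the filter -/
def Agr (M : Subgroup P) (f : P) (l : Filter ℝ) : Prop := ∃ h ∈ M, ∀ᶠ y in l, f y = h y

theorem Agr.mul {M : Subgroup P} {f g : P} {l l' : Filter ℝ} (hf : Agr M f l') (hg : Agr M g l)
    (ht : Tendsto g l l') : Agr M (f * g) l := by
  obtain ⟨h, hh, e⟩ := hf
  obtain ⟨k, hk, e'⟩ := hg
  refine ⟨h * k, M.mul_mem hh hk, ?_⟩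
  filter_upwards [ht.eventually e, e'] with y h1 h2
  rw [Equiv.Perm.mul_apply, Equiv.Perm.mul_apply, h1, h2]

theorem Agr.inv {M : Subgroup P} {f : P} {l l' : Filter ℝ} (hf : Agr M f l')
    (ht : Tendsto (f⁻¹ : P) l l') : Agr M f⁻¹ l := by
  obtain ⟨h, hh, e⟩ := hf
  refine ⟨h⁻¹, M.inv_mem hh, ?_⟩
  filter_upwards [ht.eventually e] with y h1
  rw [inv_right] at h1
  rw [Equiv.Perm.eq_inv_iff_eq, ← h1]

/-- elements of `F` that are locally in `M` -/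
def Loc (M : Subgroup P) : Subgroup P where
  carrier := {f | f ∈ Sup 0 1 ∧ ∀ x, Agr M f (𝓝[≥] x) ∧ Agr M f (𝓝[≤] x) ∧
    (¬ Dy x → Agr M f (𝓝 x))}
  mul_mem' := fun {f g} hf hg => ⟨(Sup 0 1).mul_mem hf.1 hg.1, fun x =>
    ⟨(hf.2 (g x)).1.mul (hg.2 x).1 (tend_right hg.1.1 x),
      (hf.2 (g x)).2.1.mul (hg.2 x).2.1 (tend_left hg.1.1 x), fun hx =>
      ((hf.2 (g x)).2.2 fun h => hx ((hg.1.1.2 x).dy.1 h)).mul ((hg.2 x).2.2 hx)
        (hg.1.1.2.cont.tendsto x)⟩⟩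
  one_mem' := ⟨(Sup 0 1).one_mem, fun _ => ⟨⟨1, M.one_mem, Eventually.of_forall fun _ => rfl⟩,
    ⟨1, M.one_mem, Eventually.of_forall fun _ => rfl⟩,
    fun _ => ⟨1, M.one_mem, Eventually.of_forall fun _ => rfl⟩⟩⟩
  inv_mem' := fun {f} hf => by
    have hi := (Sup 0 1).inv_mem hf.1
    exact ⟨hi, fun x => ⟨(hf.2 (f⁻¹ x)).1.inv (tend_right hi.1 x),
      (hf.2 (f⁻¹ x)).2.1.inv (tend_left hi.1 x), fun hx =>
      ((hf.2 (f⁻¹ x)).2.2 fun h => hx ((hi.1.2 x).dy.1 h)).inv (hi.1.2.cont.tendsto x)⟩⟩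

theorem le_loc {M : Subgroup P} (hM : M ≤ Sup 0 1) : M ≤ Loc M := fun g hg =>
  ⟨hM hg, fun _ => ⟨⟨g, hg, Eventually.of_forall fun _ => rfl⟩,
    ⟨g, hg, Eventually.of_forall fun _ => rfl⟩,
    fun _ => ⟨g, hg, Eventually.of_forall fun _ => rfl⟩⟩⟩

theorem sup_glue {f g : P} (hf : f ∈ Sup 0 1) (hg : g ∈ Sup 0 1) {p : ℝ} (hp : Dy p)
    (h : f p = g p) : ∃ e ∈ Sup 0 1, (∀ x, x ≤ p → e x = f x) ∧ ∀ x, p ≤ x → e x = g x := by
  obtain ⟨e, he, h1, h2⟩ := PLH_glue hf.1 hg.1 hp h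
  refine ⟨e, ⟨he, fun x hx => ?_⟩, h1, h2⟩
  rcases le_total x p with h3 | h3
  · rw [h1 x h3, hf.2 x hx]
  · rw [h2 x h3, hg.2 x hx]

theorem closed_of_loc {M : Subgroup P} (hM : M ≤ Sup 0 1) (h : Loc M ≤ M) : Closed M := by
  intro h1 m1 h2 m2 p hp e
  obtain ⟨g, hg, a1, a2⟩ := sup_glue (hM m1) (hM m2) hp e
  have lt : ∀ x, x < p → Agr M g (𝓝 x) := fun x hx =>
    ⟨h1, m1, by filter_upwards [Iio_mem_nhds hx] with y hy using a1 y (le_of_lt hy)⟩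
  have gt : ∀ x, p < x → Agr M g (𝓝 x) := fun x hx =>
    ⟨h2, m2, by filter_upwards [Ioi_mem_nhds hx] with y hy using a2 y (le_of_lt hy)⟩
  refine ⟨g, h ⟨hg, fun x => ⟨?_, ?_, fun hx => ?_⟩⟩, a1, a2⟩
  · rcases lt_or_ge x p with h3 | h3
    · obtain ⟨k, hk, e⟩ := lt x h3
      exact ⟨k, hk, e.filter_mono nhdsWithin_le_nhds⟩
    · exact ⟨h2, m2, by filter_upwards [self_mem_nhdsWithin] with y hy using a2 y (h3.trans hy)⟩
  · rcases lt_or_ge p x with h3 | h3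
    · obtain ⟨k, hk, e⟩ := gt x h3
      exact ⟨k, hk, e.filter_mono nhdsWithin_le_nhds⟩
    · exact ⟨h1, m1, by filter_upwards [self_mem_nhdsWithin] with y hy using a1 y (le_trans hy h3)⟩
  · rcases lt_trichotomy x p with h3 | rfl | h3
    · exact lt x h3
    · exact (hx hp).elim
    · exact gt x h3

theorem ev_right {p : ℝ → Prop} {x : ℝ} (h : ∀ᶠ y in 𝓝[≥] x, p y) :
    ∃ ε > 0, ∀ y, x ≤ y → y < x + ε → p y := by
  obtain ⟨u, hu, h⟩ := (mem_nhdsGE_iff_exists_Ico_subset).1 h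
  exact ⟨u - x, sub_pos.2 hu, fun y h1 h2 => h ⟨h1, by linarith⟩⟩

theorem ev_left {p : ℝ → Prop} {x : ℝ} (h : ∀ᶠ y in 𝓝[≤] x, p y) :
    ∃ ε > 0, ∀ y, x - ε < y → y ≤ x → p y := by
  obtain ⟨u, hu, h⟩ := (mem_nhdsLE_iff_exists_Ioc_subset).1 h
  exact ⟨x - u, sub_pos.2 hu, fun y h1 h2 => h ⟨by linarith, h2⟩⟩

/-- the two logarithmic slopes -/
noncomputable def sg (g : P) (y : ℝ) : ℤ × ℤ := (dL g y, dR g y)

theorem sg_mul {f g : P} (hf : f ∈ PLH) (hg : g ∈ PLH) (x : ℝ) :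
    sg (f * g) x = sg f (g x) + sg g x := by
  simp only [sg, dL_mul hf hg, dR_mul hf hg, Prod.mk_add_mk]

theorem sg_inv {g : P} (hg : g ∈ PLH) (x : ℝ) : sg g⁻¹ (g x) = - sg g x := by
  simp only [sg, dL_inv hg, dR_inv hg, Prod.neg_mk]

theorem sg_one (x : ℝ) : sg 1 x = 0 := by simp only [sg, dL_one, dR_one]; rfl

theorem sg_congr {f g : P} (hg : g ∈ PLH) {x : ℝ} (h : ∀ᶠ y in 𝓝 x, f y = g y) :
    sg f x = sg g x := by
  obtain ⟨ε, hε, h1⟩ := ev_right (h.filter_mono nhdsWithin_le_nhds)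
  obtain ⟨ε', hε', h2⟩ := ev_left (h.filter_mono nhdsWithin_le_nhds)
  simp only [sg, dR_congr hg hε h1, dL_congr hg hε' h2]

section golan

variable {M : Subgroup P} (hM : M ≤ Sup 0 1) (hB : CaseB M) (hL : Sup 0 1 ≤ Loc M)
include hL

theorem orb_eq {f : P} (hf : f ∈ Sup 0 1) (x : ℝ) : ∃ h ∈ M, h x = f x := by
  obtain ⟨h, hh, e⟩ := ((hL hf).2 x).1
  exact ⟨h, hh, (e.self_of_nhdsWithin (mem_Ici.2 le_rfl)).symm⟩

theorem big_all {γ α β : ℝ} (h0 : 0 < γ) (h1 : γ < 1) (ha : 0 ≤ α) (hab : α < β) (hb : β ≤ 1) :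
    Big M γ α β := by
  obtain ⟨p, hp, p1, p2⟩ := Dy.exists_between h0
  obtain ⟨q, hq, q1, q2⟩ := Dy.exists_between h1
  obtain ⟨p', hp', p1', p2'⟩ := Dy.exists_between hab
  obtain ⟨q', hq', q1', q2'⟩ := Dy.exists_between p2'
  obtain ⟨g, hg, e1, e2⟩ := trans_pair hp hq hp' hq' p1 (p2.trans q1) q2 (by linarith) q1'
    (by linarith)
  obtain ⟨h, hh, e⟩ := orb_eq hL hg γ
  exact ⟨h, hh, e ▸ p1'.trans (e1 ▸ hg.1.1 p2), e ▸ lt_trans (e2 ▸ hg.1.1 q1) q2'⟩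

theorem nofix_of_loc : NoFix M := by
  intro x h0 h1
  obtain ⟨m, hm, -, h⟩ := big_all hL h0 h1 le_rfl h0 h1.le
  exact ⟨m, hm, h.ne⟩

theorem bad_finite {g : P} (hg : g ∈ Sup 0 1) :
    {y | y ∈ Icc (0 : ℝ) 1 ∧ ¬ Agr M g (𝓝 y)}.Finite := by
  have key : ∀ x : ℝ, ∃ U ∈ 𝓝 x, ∀ y ∈ U, y ≠ x → Agr M g (𝓝 y) := by
    intro x
    obtain ⟨h, hh, e⟩ := ((hL hg).2 x).1
    obtain ⟨k, hk, e'⟩ := ((hL hg).2 x).2.1
    obtain ⟨ε, hε, h1⟩ := ev_right e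
    obtain ⟨ε', hε', h2⟩ := ev_left e'
    refine ⟨Ioo (x - ε') (x + ε), Ioo_mem_nhds (by linarith) (by linarith), fun y hy hne => ?_⟩
    rcases lt_or_gt_of_ne hne with h3 | h3
    · exact ⟨k, hk, by filter_upwards [Ioo_mem_nhds hy.1 h3] with z hz using h2 z hz.1 hz.2.le⟩
    · exact ⟨h, hh, by filter_upwards [Ioo_mem_nhds h3 hy.2] with z hz using h1 z hz.1.le hz.2⟩
  choose U hU hU' using key
  obtain ⟨t, -, ht⟩ := (isCompact_Icc (a := (0 : ℝ)) (b := 1)).elim_nhds_subcover U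
    fun x _ => hU x
  refine t.finite_toSet.subset fun y hy => ?_
  obtain ⟨x, hx, hyx⟩ := mem_iUnion₂.1 (ht hy.1)
  by_cases h : y = x
  · exact h ▸ hx
  · exact (hy.2 (hU' x y hyx h)).elim

include hM hB

/-- the cocycle argument: one-sided germs at a dyadic fixed point are independent -/
theorem germ_split {y0 : ℝ} (d0' : Dy y0) (p0 : 0 < y0) (p1 : y0 < 1) {k : P} (hk : k ∈ M)
    (hky : k y0 = y0) : ∃ θ ∈ M, θ y0 = y0 ∧ dL θ y0 = 0 ∧ dR θ y0 = dR k y0 := by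
  classical
  let D : ℝ → Prop := fun y => Dy y ∧ 0 < y ∧ y < 1
  have hD : ∀ g ∈ Sup 0 1, ∀ y, D (g y) ↔ D y := by
    have : ∀ g ∈ Sup 0 1, ∀ y, D y → D (g y) := fun g hg y hy =>
      ⟨(hg.1.2 y).dy.2 hy.1, sup_pos hg hy.2.1, sup_lt hg hy.2.2⟩
    intro g hg y
    refine ⟨fun h => ?_, this g hg y⟩
    have := this _ ((Sup 0 1).inv_mem hg) _ h
    rwa [inv_left] at this
  have : ∀ y, ∃ h ∈ M, D y → h y0 = y := by
    intro y
    by_cases hy : D y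
    · obtain ⟨f, hf, e⟩ := trans_pt Dy.zero Dy.one d0' hy.1 p0 p1 hy.2.1 hy.2.2
      obtain ⟨h, hh, e'⟩ := orb_eq hL hf y0
      exact ⟨h, hh, fun _ => e'.trans e⟩
    · exact ⟨1, M.one_mem, fun h => (hy h).elim⟩
  choose t tM ht using this
  let Λ : AddSubgroup (ℤ × ℤ) :=
    { carrier := {z | ∃ h ∈ M, h y0 = y0 ∧ sg h y0 = z}
      add_mem' := by
        rintro _ _ ⟨h, hh, e, rfl⟩ ⟨h', hh', e', rfl⟩
        exact ⟨h * h', M.mul_mem hh hh', by rw [Equiv.Perm.mul_apply, e', e],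
          by rw [sg_mul (hM hh).1 (hM hh').1, e']⟩
      zero_mem' := ⟨1, M.one_mem, rfl, sg_one _⟩
      neg_mem' := by
        rintro _ ⟨h, hh, e, rfl⟩
        refine ⟨h⁻¹, M.inv_mem hh, inv_fix_10051 e, ?_⟩
        rw [← sg_inv (hM hh).1, e] }
  let τ : P → ℝ → (ℤ × ℤ) ⧸ Λ := fun g y =>
    if D y then QuotientAddGroup.mk (sg g y + sg (t y) y0 - sg (t (g y)) y0) else 0
  have τM : ∀ h ∈ M, ∀ y, τ h y = 0 := by
    intro h hh y
    simp only [τ]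
    split_ifs with hy
    · rw [QuotientAddGroup.eq_zero_iff]
      have hy' := (hD h (hM hh) y).2 hy
      refine ⟨(t (h y))⁻¹ * h * t y, M.mul_mem (M.mul_mem (M.inv_mem (tM _)) hh) (tM _), ?_, ?_⟩
      · rw [Equiv.Perm.mul_apply, Equiv.Perm.mul_apply, ht y hy, Equiv.Perm.inv_eq_iff_eq,
          ht _ hy']
      · have := sg_inv (hM (tM (h y))).1 y0
        rw [ht _ hy'] at this
        rw [sg_mul (hM (M.mul_mem (M.inv_mem (tM _)) hh)).1 (hM (tM _)).1,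
          sg_mul (hM (M.inv_mem (tM _))).1 (hM hh).1, ht y hy, this]
        abel
    · rfl
  have τc : ∀ (g h : P), h ∈ PLH → ∀ y, (∀ᶠ z in 𝓝 y, g z = h z) → τ g y = τ h y := by
    intro g h hh y e
    simp only [τ, sg_congr hh e, e.self_of_nhds]
  have τ0 : ∀ (g : P) y, Agr M g (𝓝 y) → τ g y = 0 := fun g y ⟨h, hh, e⟩ =>
    (τc g h (hM hh).1 y e).trans (τM h hh y)
  have τf : ∀ g ∈ Sup 0 1, (Function.support (τ g)).Finite := by
    intro g hg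
    refine (bad_finite hL hg).subset fun y hy => ⟨?_, fun h => hy (τ0 g y h)⟩
    by_contra h
    apply hy
    simp only [τ]
    rw [if_neg fun hd : D y => h ⟨hd.2.1.le, hd.2.2.le⟩]
  have τmul : ∀ g ∈ Sup 0 1, ∀ h ∈ Sup 0 1, ∀ y, τ (g * h) y = τ g (h y) + τ h y := by
    intro g hg h hh y
    simp only [τ, hD h hh]
    split_ifs with hy
    · rw [← QuotientAddGroup.mk_add, sg_mul hg.1 hh.1, Equiv.Perm.mul_apply]
      congr 1; abel
    · simp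
  let Θ : Sup 0 1 →* Multiplicative ((ℤ × ℤ) ⧸ Λ) :=
    MonoidHom.mk' (fun g => Multiplicative.ofAdd (∑ᶠ y, τ g.1 y)) fun g h => by
      rw [← ofAdd_add]
      congr 1
      simp only [Subgroup.coe_mul, τmul g.1 g.2 h.1 h.2]
      rw [finsum_add_distrib ?_ (τf _ h.2), finsum_comp_equiv (h.1 : ℝ ≃ ℝ) (f := τ g.1)]
      exact (τf _ g.2).preimage (f := h.1) (h.1.injective.injOn)
  have hker : Sup 0 1 ≤ Θ.ker.map (Sup 0 1).subtype := by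
    refine hB _ (fun m hm => ⟨⟨m, hM hm⟩, ?_, rfl⟩) fun f hf g hg =>
      ⟨⟨f, hf⟩ * ⟨g, hg⟩ * (⟨f, hf⟩)⁻¹ * (⟨g, hg⟩)⁻¹, ?_, rfl⟩
    · show Multiplicative.ofAdd (∑ᶠ y, τ m y) = 1
      simp [τM m hm]
    · show Θ _ = 1
      simp only [map_mul, map_inv]
      rw [mul_comm (Θ ⟨f, hf⟩)]; group
  obtain ⟨g, hg, a1, a2⟩ := sup_glue (Sup 0 1).one_mem (hM hk) d0' hky.symm
  obtain ⟨g', hg', rfl⟩ := hker hg
  have h1 : ∑ᶠ y, τ g'.1 y = 0 := congrArg Multiplicative.toAdd hg'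
  rw [finsum_eq_single _ y0 fun y hy => τ0 _ y ?_] at h1
  · have hd : D y0 := ⟨d0', p0, p1⟩
    have e : g'.1 y0 = y0 := a1 y0 le_rfl
    simp only [τ, if_pos hd, e, add_sub_cancel_right, QuotientAddGroup.eq_zero_iff] at h1
    obtain ⟨θ, hθ, e1, e2⟩ := h1
    refine ⟨θ, hθ, e1, (congrArg Prod.fst e2).trans ?_, (congrArg Prod.snd e2).trans ?_⟩
    · exact (dL_congr PLH.one_mem one_pos fun y _ hy => a1 y hy).trans (dL_one _)
    · exact dR_congr (hM hk).1 one_pos fun y hy _ => a2 y hy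
  · rcases lt_or_gt_of_ne hy with h | h
    · exact ⟨1, M.one_mem, by filter_upwards [Iio_mem_nhds h] with z hz using a1 z (le_of_lt hz)⟩
    · exact ⟨k, hk, by filter_upwards [Ioi_mem_nhds h] with z hz using a2 z (le_of_lt hz)⟩

end golan

end Pool.Agent.H828Z.MaxF
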