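import Pool.Agent.H828Z.MaxF.Golan

set_option autoImplicit false

/-! End of the proof that maximal subgroups are closed, and the main theorem in the model. -/

namespace Pool.Agent.H828Z.MaxF

open Pool.Agent.Helper283.PL Filter Topology Set

section golan

variable {M : Subgroup P} (hM : M ≤ Sup 0 1) (hB : CaseB M) (hL : Sup 0 1 ≤ Loc M)
include hM hB hL

theorem cut_M {k : P} (hk : k ∈ M) {x y z : ℝ} (dy : Dy y) (x0 : 0 < x) (y0 : 0 < y) (y1 : y < 1)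
    (z1 : z < 1) (hky : k y = y) :
    ∃ k' ∈ M, (∀ t, x ≤ t → t ≤ y → k' t = k t) ∧ ∀ t, y ≤ t → t ≤ z → k' t = t := by
  obtain ⟨f, ψ, ε, hE⟩ := hB.ends hM
  obtain ⟨γ, g0, g1, hC⟩ := contraction hM (nofix_of_loc hL) hE
  obtain ⟨θ, hθ, e1, e2, e3⟩ := germ_split hM hB hL dy y0 y1 hk hky
  obtain ⟨η, hη, hid⟩ := id_left (hM hθ).1 e1 e2
  have hm0 : 0 < min η y := lt_min hη y0
  have hm1 := min_le_left η y
  have hm2 := min_le_right η y
  obtain ⟨m, hm, a1, a2⟩ := expand_left hM hE hC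
    (big_all hL g0 g1 (α := y - min η y / 2) (β := y) (by linarith) (by linarith) y1.le) x0
  have my : m y = y := a1 y le_rfl
  have hθ' : m * θ * m⁻¹ ∈ M := M.mul_mem (M.mul_mem hm hθ) (M.inv_mem hm)
  have fix' : ∀ t, x ≤ t → t ≤ y → (m * θ * m⁻¹) t = t := by
    intro t h1 h2
    have i0 := smono hM (M.inv_mem hm)
    have h3 := i0 (a2.trans_le h1)
    have h4 := i0.monotone h2
    rw [inv_left] at h3
    rw [inv_fix_10051 my] at h4
    rw [Equiv.Perm.mul_apply, Equiv.Perm.mul_apply, hid _ (by linarith) h4, inv_right]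
  have y' : (m * θ * m⁻¹) y = y := by
    rw [Equiv.Perm.mul_apply, Equiv.Perm.mul_apply, inv_fix_10051 my, e1, my]
  have sl : dR (m * θ * m⁻¹ : P) y = dR k y := by
    have := dR_inv (hM hm).1 y
    rw [my] at this
    rw [dR_mul (hM (M.mul_mem hm hθ)).1 (hM (M.inv_mem hm)).1, inv_fix_10051 my,
      dR_mul (hM hm).1 (hM hθ).1, e1, this, e3]
    ring
  have hk1 : k * (m * θ * m⁻¹)⁻¹ ∈ M := M.mul_mem hk (M.inv_mem hθ')
  have k1y : (k * (m * θ * m⁻¹)⁻¹) y = y := by rw [Equiv.Perm.mul_apply, inv_fix_10051 y', hky]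
  obtain ⟨η', hη', hid'⟩ := id_right (hM hk1).1 k1y (by
    have := dR_inv (hM hθ').1 y
    rw [y'] at this
    rw [dR_mul (hM hk).1 (hM (M.inv_mem hθ')).1, inv_fix_10051 y', this, sl]
    ring)
  have hn0 : 0 < min η' (1 - y) := lt_min hη' (by linarith)
  have hn1 := min_le_left η' (1 - y)
  have hn2 := min_le_right η' (1 - y)
  obtain ⟨m', hm', b1, b2⟩ := expand_right hM hE hC
    (big_all hL g0 g1 (α := y) (β := y + min η' (1 - y) / 2) y0.le (by linarith) (by linarith)) z1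
  refine ⟨m' * (k * (m * θ * m⁻¹)⁻¹) * m'⁻¹, M.mul_mem (M.mul_mem hm' hk1) (M.inv_mem hm'),
    fun t h1 h2 => ?_, fun t h1 h2 => ?_⟩
  · rw [Equiv.Perm.mul_apply, Equiv.Perm.mul_apply, inv_fix_10051 (b1 t h2), Equiv.Perm.mul_apply,
      inv_fix_10051 (fix' t h1 h2), b1]
    have := (smono hM hk).monotone h2
    rwa [hky] at this
  · have i0 := smono hM (M.inv_mem hm')
    have h3 := i0 (h2.trans_lt b2)
    have h4 := i0.monotone h1
    rw [inv_left] at h3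
    rw [inv_fix_10051 (b1 y le_rfl)] at h4
    rw [Equiv.Perm.mul_apply, Equiv.Perm.mul_apply, hid' _ h4 (by linarith), inv_right]

theorem approx {f : P} (hf : f ∈ Sup 0 1) {a b : ℝ} (da : Dy a) (a0 : 0 < a) (hab : a ≤ b)
    (b1 : b < 1) : ∃ h ∈ M, ∀ t, a ≤ t → t ≤ b → h t = f t := by
  let T : Set ℝ := {z | a ≤ z ∧ z ≤ b ∧ ∃ h ∈ M, ∀ t, a ≤ t → t ≤ z → h t = f t}
  have step : ∀ y w, Dy y → y ∈ T → y ≤ w → w ≤ b → ∀ h2 ∈ M, (∀ t, y ≤ t → t ≤ w → f t = h2 t) →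
      w ∈ T := by
    rintro y w dy ⟨y1, y2, h1, m1, e1⟩ hyw hwb h2 m2 e2
    obtain ⟨k', mk, c1, c2⟩ := cut_M hM hB hL (M.mul_mem (M.inv_mem m2) m1) (x := a) (z := b) dy a0
      (by linarith) (by linarith) b1 (by
        rw [Equiv.Perm.mul_apply, e1 y y1 le_rfl, e2 y le_rfl hyw, inv_left])
    refine ⟨y1.trans hyw, hwb, h2 * k', M.mul_mem m2 mk, fun t t1 t2 => ?_⟩
    rcases le_total t y with h | h
    · rw [Equiv.Perm.mul_apply, c1 t t1 h, Equiv.Perm.mul_apply, inv_right, e1 t t1 h]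
    · rw [Equiv.Perm.mul_apply, c2 t h (t2.trans hwb), e2 t h t2]
  have haT : a ∈ T := by
    obtain ⟨h, hh, e⟩ := orb_eq hL hf a
    exact ⟨le_rfl, hab, h, hh, fun t t1 t2 => by rw [le_antisymm t2 t1, e]⟩
  have hbdd : BddAbove T := ⟨b, fun z hz => hz.2.1⟩
  have has : a ≤ sSup T := le_csSup hbdd haT
  have hsb : sSup T ≤ b := csSup_le ⟨a, haT⟩ fun z hz => hz.2.1
  have below : ∀ c, c < sSup T → a < sSup T → ∃ y, Dy y ∧ y ∈ T ∧ c < y ∧ y < sSup T := by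
    intro c hc ha
    obtain ⟨y, dy, y1, y2⟩ := Dy.exists_between (max_lt hc ha)
    obtain ⟨z, ⟨-, -, h, hh, e⟩, hz⟩ := exists_lt_of_lt_csSup ⟨a, haT⟩ y2
    exact ⟨y, dy, ⟨(le_max_right _ _).trans y1.le, y2.le.trans hsb, h, hh,
      fun t t1 t2 => e t t1 (t2.trans hz.le)⟩, (le_max_left _ _).trans_lt y1, y2⟩
  have hsT : sSup T ∈ T := by
    rcases has.lt_or_eq with h | h
    · obtain ⟨k, hk, e⟩ := ((hL hf).2 (sSup T)).2.1
      obtain ⟨ε, hε, e⟩ := ev_left e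
      obtain ⟨y, dy, yT, y1, y2⟩ := below (sSup T - ε) (by linarith) h
      exact step y _ dy yT y2.le hsb k hk fun t t1 t2 => e t (by linarith) t2
    · exact h ▸ haT
  rcases hsb.lt_or_eq with h | h
  · exfalso
    have fin : ∀ ε > 0, min b (sSup T + ε) ∉ T := by
      intro ε hε hmem
      have := le_csSup hbdd hmem
      rcases min_le_iff.1 this with h1 | h1 <;> linarith
    by_cases hd : Dy (sSup T)
    · obtain ⟨k, hk, e⟩ := ((hL hf).2 (sSup T)).1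
      obtain ⟨ε, hε, e⟩ := ev_right e
      refine fin (ε / 2) (by linarith) (step _ _ hd hsT (le_min hsb (by linarith)) (min_le_left _ _)
        k hk fun t t1 t2 => e t t1 ?_)
      linarith [min_le_right b (sSup T + ε / 2)]
    · obtain ⟨k, hk, e⟩ := ((hL hf).2 (sSup T)).2.2 hd
      obtain ⟨ε, hε, e1⟩ := ev_right (e.filter_mono nhdsWithin_le_nhds)
      obtain ⟨ε', hε', e2⟩ := ev_left (e.filter_mono nhdsWithin_le_nhds)
      obtain ⟨y, dy, yT, y1, y2⟩ := below (sSup T - ε') (by linarith)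
        (lt_of_le_of_ne has fun h => hd (h ▸ da))
      refine fin (ε / 2) (by linarith) (step y _ dy yT (le_min (by linarith) (by linarith))
        (min_le_left _ _) k hk fun t t1 t2 => ?_)
      rcases le_total t (sSup T) with h3 | h3
      · exact e2 t (by linarith) h3
      · exact e1 t h3 (by linarith [min_le_right b (sSup T + ε / 2)])
  · exact (h ▸ hsT).2.2

theorem approx' {f : P} {a b : ℝ} (hf : f ∈ Sup a b) (da : Dy a) (a0 : 0 < a) (hab : a ≤ b)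
    (b1 : b < 1) : ∃ h ∈ M, ∃ ε, Dy ε ∧ 0 < ε ∧ ε ≤ a ∧ b ≤ 1 - ε ∧
      (∀ t, a ≤ t → t ≤ b → h t = f t) ∧ ∀ t, (t ≤ ε ∨ 1 - ε ≤ t) → h t = t := by
  obtain ⟨h0, m0, e0⟩ := approx hM hB hL (Sup.mono a0.le b1.le hf) da a0 hab b1
  obtain ⟨φ, ψ, ε, hE⟩ := hB.ends hM
  obtain ⟨γ, g0, g1, hC⟩ := contraction hM (nofix_of_loc hL) hE
  have hε := hE.pos
  have hl := hE.lt
  obtain ⟨m, hm, -, c1⟩ := contr_into hM hC (big_all hL g0 g1 le_rfl a0 (by linarith))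
    (a := 1 - ε) (b := 1 - ε) (by linarith) le_rfl (by linarith)
  obtain ⟨n, hn, c2, -⟩ := contr_into hM hC (big_all hL g0 g1 (by linarith) b1 le_rfl)
    (a := ε) (b := ε) hε le_rfl (by linarith)
  have mφ : m * φ * m⁻¹ ∈ M := M.mul_mem (M.mul_mem hm hE.fM) (M.inv_mem hm)
  have mψ : n * ψ * n⁻¹ ∈ M := M.mul_mem (M.mul_mem hn hE.ψM) (M.inv_mem hn)
  have fφ : ∀ t, a ≤ t → (m * φ * m⁻¹) t = t := by
    intro t ht
    have := smono hM (M.inv_mem hm) (c1.trans_le ht)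
    rw [inv_left] at this
    rw [Equiv.Perm.mul_apply, Equiv.Perm.mul_apply, hE.f1 _ this.le, inv_right]
  have fψ : ∀ t, t ≤ b → (n * ψ * n⁻¹) t = t := by
    intro t ht
    have := smono hM (M.inv_mem hn) (ht.trans_lt c2)
    rw [inv_left] at this
    rw [Equiv.Perm.mul_apply, Equiv.Perm.mul_apply, hE.ψ0 _ this.le, inv_right]
  have add0 : ∀ g ∈ M, ∀ g' ∈ M, dR (g * g' : P) 0 = dR g 0 + dR g' 0 := fun g hg g' hg' => by
    rw [dR_mul (hM hg).1 (hM hg').1, fix0 (hM hg')]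
  have add1 : ∀ g ∈ M, ∀ g' ∈ M, dL (g * g' : P) 1 = dL g 1 + dL g' 1 := fun g hg g' hg' => by
    rw [dL_mul (hM hg).1 (hM hg').1, fix1 (hM hg')]
  have sφ0 : dR (m * φ * m⁻¹ : P) 0 = 1 := by
    have := dR_inv (hM hm).1 0
    rw [fix0 (hM hm)] at this
    rw [add0 _ (M.mul_mem hm hE.fM) _ (M.inv_mem hm), add0 _ hm _ hE.fM, this, hE.df]; ring
  have sψ1 : dL (n * ψ * n⁻¹ : P) 1 = -1 := by
    have := dL_inv (hM hn).1 1
    rw [fix1 (hM hn)] at this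
    rw [add1 _ (M.mul_mem hn hE.ψM) _ (M.inv_mem hn), add1 _ hn _ hE.ψM, this, hE.dψ]; ring
  have sφ1 : dL (m * φ * m⁻¹ : P) 1 = 0 :=
    (dL_congr PLH.one_mem (ε := 1 - b) (by linarith) fun y y1 _ => fφ y (by linarith)).trans
      (dL_one _)
  have sψ0 : dR (n * ψ * n⁻¹ : P) 0 = 0 :=
    (dR_congr PLH.one_mem a0 fun y _ y1 => fψ y (by linarith)).trans (dR_one _)
  generalize m * φ * m⁻¹ = φ' at mφ fφ sφ0 sφ1
  generalize n * ψ * n⁻¹ = ψ' at mψ fψ sψ0 sψ1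
  have mh : h0 * φ' ^ (-dR h0 0) * ψ' ^ (dL h0 1) ∈ M :=
    M.mul_mem (M.mul_mem m0 (M.zpow_mem mφ _)) (M.zpow_mem mψ _)
  obtain ⟨η, hη, i0⟩ := id_right (hM mh).1 (fix0 (hM mh)) (by
    rw [add0 _ (M.mul_mem m0 (M.zpow_mem mφ _)) _ (M.zpow_mem mψ _), add0 _ m0 _ (M.zpow_mem mφ _),
      dR0_zpow (hM mφ), dR0_zpow (hM mψ), sφ0, sψ0]; ring)
  obtain ⟨η', hη', i1⟩ := id_left (hM mh).1 (fix1 (hM mh)) (by
    rw [add1 _ (M.mul_mem m0 (M.zpow_mem mφ _)) _ (M.zpow_mem mψ _), add1 _ m0 _ (M.zpow_mem mφ _),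
      dL1_zpow (hM mφ), dL1_zpow (hM mψ), sφ1, sψ1]; ring)
  obtain ⟨δ, dδ, δ0, δ1⟩ := Dy.exists_between
    (show 0 < min (min η η') (min a (1 - b)) by
      refine lt_min (lt_min hη hη') (lt_min a0 (by linarith)))
  simp only [lt_min_iff] at δ1
  refine ⟨_, mh, δ, dδ, δ0, δ1.2.1.le, by linarith [δ1.2.2], fun t t1 t2 => ?_, fun t ht => ?_⟩
  · rw [Equiv.Perm.mul_apply, Equiv.Perm.mul_apply, zpow_fix (fψ t t2), zpow_fix (fφ t t1),
      e0 t t1 t2]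
  · rcases ht with ht | ht
    · rcases le_total t 0 with h | h
      · exact (hM mh).2 t (Or.inl h)
      · exact i0 t h (by linarith [δ1.1.1])
    · rcases le_total t 1 with h | h
      · exact i1 t (by linarith [δ1.1.2]) h
      · exact (hM mh).2 t (Or.inr h)

theorem comm_mem {f g : P} {a b : ℝ} (hf : f ∈ Sup a b) (hg : g ∈ Sup a b) (da : Dy a)
    (db : Dy b) (a0 : 0 < a) (hab : a ≤ b) (b1 : b < 1) : f * g * f⁻¹ * g⁻¹ ∈ M := by
  obtain ⟨h, hh, ε, dε, ε0, ε1, ε2, e1, e2⟩ := approx' hM hB hL hf da a0 hab b1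
  obtain ⟨k, hk, e3⟩ := approx hM hB hL (Sup.mono a0.le b1.le hg) (b := 1 - ε) dε ε0 (by linarith)
    (by linarith)
  have fa := hf.2 a (Or.inl le_rfl)
  have fb := hf.2 b (Or.inr le_rfl)
  -- `h = f * u` with `u` supported outside `(a, b)` inside `[ε, 1 - ε]`, `k = g * v`
  have hu : ∀ t, (t ≤ ε ∨ 1 - ε ≤ t) ∨ (a ≤ t ∧ t ≤ b) → (f⁻¹ * h) t = t := by
    rintro t (ht | ht)
    · rw [Equiv.Perm.mul_apply, e2 t ht, inv_fix_10051 (hf.2 t (ht.imp (by intro; linarith)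
        (by intro; linarith)))]
    · rw [Equiv.Perm.mul_apply, e1 t ht.1 ht.2, inv_left]
  have hv : ∀ t, ε ≤ t → t ≤ 1 - ε → (g⁻¹ * k) t = t := by
    intro t t1 t2
    rw [Equiv.Perm.mul_apply, e3 t t1 t2, inv_left]
  have mu : f⁻¹ * h ∈ PLH := PLH.mul_mem (PLH.inv_mem hf.1) (hM hh).1
  have mv : g⁻¹ * k ∈ PLH := PLH.mul_mem (PLH.inv_mem hg.1) (hM hk).1
  have gen : ∀ {p q : P} {s t : ℝ}, p ∈ Sup s t → q ∈ PLH → s ≤ t →
      (∀ x, s ≤ x → x ≤ t → q x = x) → Commute p q := by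
    intro p q s t hp hq hst hfix
    ext x
    simp only [Equiv.Perm.mul_apply]
    rcases le_total x s with h1 | h1
    · have := hq.1.monotone h1
      rw [hfix s le_rfl hst] at this
      rw [hp.2 x (Or.inl h1), hp.2 _ (Or.inl this)]
    · rcases le_total t x with h2 | h2
      · have := hq.1.monotone h2
        rw [hfix t hst le_rfl] at this
        rw [hp.2 x (Or.inr h2), hp.2 _ (Or.inr this)]
      · have h3 := hp.1.1.monotone h1
        have h4 := hp.1.1.monotone h2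
        rw [hp.2 s (Or.inl le_rfl)] at h3
        rw [hp.2 t (Or.inr le_rfl)] at h4
        rw [hfix x h1 h2, hfix _ h3 h4]
  have c1 : Commute f (f⁻¹ * h) := gen hf mu hab fun x x1 x2 => hu x (Or.inr ⟨x1, x2⟩)
  have c2 : Commute g (f⁻¹ * h) := gen hg mu hab fun x x1 x2 => hu x (Or.inr ⟨x1, x2⟩)
  have c3 : Commute f (g⁻¹ * k) := gen hf mv hab fun x x1 x2 => hv x (by linarith) (by linarith)
  have c4 : Commute g (g⁻¹ * k) := gen hg mv hab fun x x1 x2 => hv x (by linarith) (by linarith)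
  have c5 : Commute (f⁻¹ * h) (g⁻¹ * k) :=
    gen (s := ε) (t := 1 - ε) ⟨mu, fun x hx => hu x (Or.inl hx)⟩ mv (by linarith) hv
  have : f * g * f⁻¹ * g⁻¹ = h * k * h⁻¹ * k⁻¹ := by
    have eh : h = f * (f⁻¹ * h) := by group
    have ek : k = g * (g⁻¹ * k) := by group
    generalize f⁻¹ * h = u at *
    generalize g⁻¹ * k = v at *
    subst eh ek
    have d1 : u * (g * v) = (g * v) * u := ((c2.symm).mul_right c5).eq
    have d2 : v * f⁻¹ = f⁻¹ * v := (c3.symm.inv_right).eq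
    calc f * g * f⁻¹ * g⁻¹ = f * g * (f⁻¹ * v) * v⁻¹ * g⁻¹ := by group
      _ = f * ((g * v) * u) * u⁻¹ * f⁻¹ * v⁻¹ * g⁻¹ := by rw [← d2]; group
      _ = _ := by rw [← d1]; group
  rw [this]
  exact M.mul_mem (M.mul_mem (M.mul_mem hh hk) (M.inv_mem hh)) (M.inv_mem hk)

theorem golan : Sup 0 1 ≤ M := by
  refine hB M le_rfl fun f hf g hg => ?_
  have hc : f * g * f⁻¹ * g⁻¹ ∈ Sup 0 1 := (Sup 0 1).mul_mem ((Sup 0 1).mul_mem
    ((Sup 0 1).mul_mem hf hg) ((Sup 0 1).inv_mem hf)) ((Sup 0 1).inv_mem hg)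
  have k0 : d0 (⟨f, hf⟩ * ⟨g, hg⟩ * (⟨f, hf⟩)⁻¹ * (⟨g, hg⟩)⁻¹) = 1 := by
    simp only [map_mul, map_inv]
    rw [mul_comm (d0 ⟨f, hf⟩)]; group
  have k1 : d1 (⟨f, hf⟩ * ⟨g, hg⟩ * (⟨f, hf⟩)⁻¹ * (⟨g, hg⟩)⁻¹) = 1 := by
    simp only [map_mul, map_inv]
    rw [mul_comm (d1 ⟨f, hf⟩)]; group
  obtain ⟨η, hη, i0⟩ := id_right hc.1 (fix0 hc) (congrArg Multiplicative.toAdd k0)
  obtain ⟨η', hη', i1⟩ := id_left hc.1 (fix1 hc) (congrArg Multiplicative.toAdd k1)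
  obtain ⟨δ, dδ, δ0, δ1⟩ := Dy.exists_between
    (show 0 < min (min η η') (1 / 2) / 2 by positivity)
  have m1 := min_le_left (min η η') (1 / 2)
  have m2 := min_le_right (min η η') (1 / 2)
  have m3 := min_le_left η η'
  have m4 := min_le_right η η'
  have hs : f * g * f⁻¹ * g⁻¹ ∈ Sup (δ + δ) ((1 - δ) - δ) := by
    refine ⟨hc.1, ?_⟩
    rintro t (ht | ht)
    · rcases le_total t 0 with h | h
      · exact hc.2 t (Or.inl h)
      · exact i0 t h (by linarith)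
    · rcases le_total t 1 with h | h
      · exact i1 t (by linarith) h
      · exact hc.2 t (Or.inr h)
  obtain ⟨L, hL', e⟩ := comm_prod dδ (Dy.one.sub dδ) δ0 hs
  rw [e]
  refine M.list_prod_mem fun x hx => ?_
  obtain ⟨p, hp, rfl⟩ := List.mem_map.1 hx
  exact comm_mem hM hB hL (hL' p hp).1 (hL' p hp).2 dδ (Dy.one.sub dδ) δ0 (by linarith)
    (by linarith)

end golan

theorem fp_caseB {M : Subgroup P} (hM : MaxIn M) (hB : CaseB M) (hfg : M.FG) :
    Group.IsFinitelyPresented M := by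
  have hc : Closed M := by
    rcases hM.max _ (le_loc hM.le) (fun f hf => hf.1) with h | h
    · exact closed_of_loc hM.le h
    · exact (hM.ne (golan hM.le hB h)).elim
  exact fp_of_closed M hM.le hc (core_finite hM hfg) (pairs_finite hM hB (core_finite hM hfg))

end Pool.Agent.H828Z.MaxF
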