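import Pool.Agent.H828Z.MaxF.Golan2
import Pool.Agent.H929Z.ThF.Alg

set_option autoImplicit false

/-! The two generator presentation of `F` against the piecewise linear model, and the theorem. -/

namespace Pool.Agent.H828Z.MaxF

open Pool.Agent.Helper283.PL
open Pool.Agent.H929Z.ThF (FRel xs xs_rel ins srt nf evp ev evp_srt ev_nf ev_append ev_winv map_xs
  ev_eq_one winv)

section abstract

variable {G : Type*} [Group G] {Y : ℕ → G} (hY : ∀ i j, i < j → Y j * Y i = Y i * Y (j + 1))
include hY

theorem xs_eq (n : ℕ) : xs (Y 0) (Y 1) n = Y n := by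
  rcases n with _ | n
  · rfl
  · induction n with
    | zero => simp [xs]
    | succ n ih =>
      rw [Pool.Agent.H929Z.ThF.xs_succ_succ, ih, mul_assoc, hY 0 (n + 1) (by omega)]
      group

theorem frel_of : FRel (Y 0) (Y 1) := by
  have key : ∀ j, 1 < j → Commute (Y 0 * (Y 1)⁻¹) (Y j) := by
    intro j hj
    have h1 := hY 0 j (by omega)
    have h2 := hY 1 j hj
    show _ * _ = _ * _
    calc Y 0 * (Y 1)⁻¹ * Y j = Y 0 * (Y 1)⁻¹ * (Y j * Y 1) * (Y 1)⁻¹ := by group
      _ = Y 0 * Y (j + 1) * (Y 1)⁻¹ := by rw [h2]; group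
      _ = _ := by rw [← h1]; group
  have e2 : (Y 0)⁻¹ * Y 1 * Y 0 = Y 2 := by rw [mul_assoc, hY 0 1 (by omega)]; group
  have e3 : (Y 0)⁻¹ * (Y 0)⁻¹ * Y 1 * Y 0 * Y 0 = Y 3 := by
    calc _ = (Y 0)⁻¹ * (((Y 0)⁻¹ * Y 1 * Y 0) * Y 0) := by group
      _ = _ := by rw [e2, hY 0 2 (by omega)]; group
  exact ⟨e2 ▸ key 2 (by omega), e3 ▸ key 3 (by omega)⟩

end abstract

theorem ins_lb (m : ℕ) : ∀ (p : List ℕ) (j : ℕ), m ≤ j → (∀ x ∈ p, m ≤ x) → ∀ x ∈ ins j p, m ≤ x
  | [], j, hj, _ => by simpa [ins] using hj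
  | i :: p, j, hj, hp => by
    unfold ins
    split_ifs with h
    · intro x hx
      rcases List.mem_cons.1 hx with rfl | hx
      · exact hp _ List.mem_cons_self
      · exact ins_lb m p (j + 1) (by omega) (fun y hy => hp y (List.mem_cons_of_mem _ hy)) x hx
    · intro x hx
      rcases List.mem_cons.1 hx with rfl | hx
      · exact hj
      · exact hp x hx

theorem ins_sorted : ∀ (p : List ℕ) (j : ℕ), p.Pairwise (· ≤ ·) → (ins j p).Pairwise (· ≤ ·)
  | [], j, _ => by simp [ins]
  | i :: p, j, hp => by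
    have hp' := List.pairwise_cons.1 hp
    unfold ins
    split_ifs with h
    · exact List.pairwise_cons.2 ⟨ins_lb i p (j + 1) (by omega) hp'.1, ins_sorted p _ hp'.2⟩
    · refine List.pairwise_cons.2 ⟨fun x hx => ?_, hp⟩
      rcases List.mem_cons.1 hx with rfl | hx
      · omega
      · have := hp'.1 x hx
        omega

theorem srt_sorted : ∀ p : List ℕ, (srt p).Pairwise (· ≤ ·)
  | [] => by simp [srt]
  | j :: p => ins_sorted _ j (srt_sorted p)

/-- conjugating by a rotation -/
theorem em_conj (v u w w' : List Bool) (e : Sup 0 1)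
    (h : ∀ x, 0 ≤ x → x ≤ 1 → (X : P) (aff w x) = aff w' x) :
    em v X * em (v ++ (w ++ u)) e = em (v ++ (w' ++ u)) e * em v X := by
  apply conj_10184
  intro x h0 h1
  obtain ⟨a0, a1⟩ := aff_in_10184 u h0 h1
  obtain ⟨b0, b1⟩ := aff_in_10184 w a0 a1
  rw [aff_append_10184, aff_append_10184, aff_append_10184, aff_append_10184, em_apply _ _ b0 b1,
    h _ a0 a1]

/-- the standard generators -/
noncomputable def yy (k : ℕ) : Sup 0 1 := (em (List.replicate k true) X)⁻¹

theorem yy_rel (i j : ℕ) (h : i < j) : yy j * yy i = yy i * yy (j + 1) := by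
  obtain ⟨k, rfl⟩ : ∃ k, j = i + (1 + k) := ⟨j - i - 1, by omega⟩
  have h1 := em_conj (List.replicate i true) (List.replicate k true) [true] [true, true] X
    (fun x h0 h1 => X3 h0 h1)
  have e1 : List.replicate i true ++ ([true] ++ List.replicate k true) =
      List.replicate (i + (1 + k)) true := by
    rw [List.replicate_add, List.replicate_add]; rfl
  have e2 : List.replicate i true ++ ([true, true] ++ List.replicate k true) =
      List.replicate (i + (1 + k) + 1) true := by
    rw [show i + (1 + k) + 1 = i + (2 + k) by omega, List.replicate_add, List.replicate_add]; rfl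
  rw [e1, e2] at h1
  unfold yy
  rw [← mul_inv_rev, ← mul_inv_rev, h1]

theorem word_cases : ∀ w : List Bool, (∃ k, w = List.replicate k true) ∨
    ∃ k u, w = List.replicate k true ++ false :: u
  | [] => Or.inl ⟨0, rfl⟩
  | false :: w => Or.inr ⟨0, w, rfl⟩
  | true :: w => by
    rcases word_cases w with ⟨k, rfl⟩ | ⟨k, u, rfl⟩
    · exact Or.inl ⟨k + 1, rfl⟩
    · exact Or.inr ⟨k + 1, u, rfl⟩

theorem gen_yy (K : Subgroup (Sup 0 1)) (hK : ∀ k, yy k ∈ K) : K = ⊤ := by
  have hE : ∀ k, em (List.replicate k true) X ∈ K := fun k => by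
    simpa [yy] using K.inv_mem (hK k)
  have h2 : ∀ (u : List Bool) (k : ℕ), em (List.replicate k true ++ false :: u) X ∈ K := by
    intro u
    induction u with
    | nil =>
      intro k
      have h := congrArg (em (List.replicate k true)) pentagon
      rw [map_mul, map_mul, map_mul, em_em, em_em, ← List.replicate_succ'] at h
      have : em (List.replicate k true ++ [false]) X =
          (em (List.replicate (k + 1) true) X * em (List.replicate k true) X)⁻¹ *
            (em (List.replicate k true) X * em (List.replicate k true) X) := by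
        rw [h]; group
      rw [this]
      exact K.mul_mem (K.inv_mem (K.mul_mem (hE _) (hE _))) (K.mul_mem (hE _) (hE _))
    | cons b u ih =>
      intro k
      cases b
      · have h := em_conj (List.replicate k true) u [false, false] [false] X
          (fun x h0 h1 => X1 h0 h1)
        have : em (List.replicate k true ++ false :: false :: u) X =
            (em (List.replicate k true) X)⁻¹ * (em (List.replicate k true ++ false :: u) X *
              em (List.replicate k true) X) := by
          rw [eq_inv_mul_iff_mul_eq]; exact h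
        rw [this]
        exact K.mul_mem (K.inv_mem (hE _)) (K.mul_mem (ih _) (hE _))
      · have h := em_conj (List.replicate k true) u [false, true] [true, false] X
          (fun x h0 h1 => X2 h0 h1)
        have e : List.replicate k true ++ ([true, false] ++ u) =
            List.replicate (k + 1) true ++ false :: u := by
          rw [List.replicate_succ']; simp
        rw [e] at h
        have : em (List.replicate k true ++ false :: true :: u) X =
            (em (List.replicate k true) X)⁻¹ * (em (List.replicate (k + 1) true ++ false :: u) X *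
              em (List.replicate k true) X) := by
          rw [eq_inv_mul_iff_mul_eq]; exact h
        rw [this]
        exact K.mul_mem (K.inv_mem (hE _)) (K.mul_mem (ih _) (hE _))
  rw [eq_top_iff]
  intro g _
  refine (Subgroup.closure_le K).2 ?_ (gen_X g)
  rintro _ ⟨w, rfl⟩
  rcases word_cases w with ⟨k, rfl⟩ | ⟨k, u, rfl⟩
  · exact hE k
  · exact h2 u k

theorem dR_em (w : List Bool) : dR (em w X : P) (aff w 0) = 1 := by
  obtain ⟨c, hc, hf⟩ := aff_form_10184 w
  have hp : (0 : ℝ) < (2 : ℝ) ^ (-(w.length : ℤ)) := zpow_pos two_pos _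
  refine dR_eq (c := -c) ⟨hc.neg, aff w (1 / 4) - aff w 0,
    sub_pos.2 (aff_lt_10184 w (by norm_num)), fun y h0 h1 => ?_⟩
  have h4 : y < aff w (1 / 4) := by linarith
  obtain ⟨x, x0, x1, rfl⟩ := aff_surj_10184 w h0
    (h4.le.trans (aff_le_10184 w (by norm_num)))
  have x4 : x ≤ 1 / 4 := by
    by_contra hx
    exact absurd (aff_lt_10184 w (not_le.1 hx)) (not_lt.2 h4.le)
  rw [em_apply w X x0 x1, X_zero10185 x0 x4, hf, hf]
  ring

theorem aa_lt {i j : ℕ} (h : i < j) :
    aff (List.replicate i true) 0 < aff (List.replicate j true) 0 := by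
  rw [aff_true10185, aff_true10185]
  have : (1 - 0 : ℝ) / 2 ^ j < (1 - 0) / 2 ^ i :=
    div_lt_div_of_pos_left (by norm_num) (by positivity) (pow_lt_pow_right₀ (by norm_num) h)
  linarith

theorem yy_fix (j : ℕ) {x : ℝ} (h : x ≤ aff (List.replicate j true) 0) : (yy j : P) x = x := by
  have h1 := em_out (List.replicate j true) X (Or.inl h)
  show (em (List.replicate j true) X : P)⁻¹ x = x
  conv_lhs => rw [← h1]
  exact inv_left _ _

theorem yy_slope {i j : ℕ} (h : i ≤ j) :
    dR (yy j : P) (aff (List.replicate i true) 0) = if j = i then -1 else 0 := by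
  split_ifs with e
  · subst e
    have h1 := dR_inv (em (List.replicate j true) X).2.1 (aff (List.replicate j true) 0)
    rw [em_out _ X (Or.inl le_rfl), dR_em] at h1
    exact h1
  · have h1 := aa_lt (show i < j by omega)
    rw [dR_congr PLH.one_mem (sub_pos.2 h1) (fun y _ hy => yy_fix j (by linarith)), dR_one]

theorem evp_slope (i : ℕ) : ∀ p : List ℕ, (∀ j ∈ p, i ≤ j) →
    (evp yy p : Sup 0 1).1 (aff (List.replicate i true) 0) = aff (List.replicate i true) 0 ∧
      dR (evp yy p : Sup 0 1).1 (aff (List.replicate i true) 0) = -(p.count i : ℤ)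
  | [], _ => ⟨rfl, by simpa [evp] using dR_one _⟩
  | j :: p, hp => by
    obtain ⟨h1, h2⟩ := evp_slope i p fun x hx => hp x (List.mem_cons_of_mem _ hx)
    have hj : i ≤ j := hp j List.mem_cons_self
    have e : evp yy (j :: p) = yy j * evp yy p := by simp [evp]
    have hle : aff (List.replicate i true) 0 ≤ aff (List.replicate j true) 0 := by
      rcases hj.eq_or_lt with rfl | h
      · exact le_rfl
      · exact (aa_lt h).le
    rw [e, Subgroup.coe_mul]
    refine ⟨by rw [Equiv.Perm.mul_apply, h1, yy_fix j hle], ?_⟩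
    rw [dR_mul (yy j).2.1 (evp yy p).2.1, h1, h2, yy_slope hj, List.count_cons]
    by_cases e : j = i <;> simp [e]

theorem evp_inj : ∀ p q : List ℕ, p.Pairwise (· ≤ ·) → q.Pairwise (· ≤ ·) →
    evp yy p = evp yy q → p = q := by
  have key : ∀ (i : ℕ) (p q : List ℕ), (∀ j ∈ p, i ≤ j) → (∀ j ∈ q, i ≤ j) → evp yy p = evp yy q →
      p.count i = q.count i := by
    intro i p q hp hq h
    have h1 := (evp_slope i p hp).2
    rw [h, (evp_slope i q hq).2] at h1
    omega
  have lb : ∀ (i : ℕ) (p : List ℕ), (i :: p).Pairwise (· ≤ ·) → ∀ j ∈ i :: p, i ≤ j := by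
    intro i p hp j hj
    rcases List.mem_cons.1 hj with rfl | hj
    · exact le_rfl
    · exact (List.pairwise_cons.1 hp).1 j hj
  have lt : ∀ (i j : ℕ) (p q : List ℕ), (i :: p).Pairwise (· ≤ ·) → (j :: q).Pairwise (· ≤ ·) →
      evp yy (i :: p) = evp yy (j :: q) → ¬ i < j := by
    intro i j p q hp hq h hij
    have h1 := key i _ _ (lb i p hp) (fun x hx => hij.le.trans (lb j q hq x hx)) h
    rw [List.count_eq_zero_of_not_mem (l := j :: q)
      (fun hx => absurd (lb j q hq i hx) (by omega))] at h1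
    simp at h1
  intro p
  induction p with
  | nil =>
    rintro (_ | ⟨j, q⟩) _ hq h
    · rfl
    · simpa using key j _ _ (by simp) (lb j q hq) h
  | cons i p ih =>
    rintro (_ | ⟨j, q⟩) hp hq h
    · simpa using key i _ _ (lb i p hp) (by simp) h
    · have e : i = j := le_antisymm (not_lt.1 (lt j i q p hq hp h.symm)) (not_lt.1 (lt i j p q hp hq h))
      subst e
      have e1 : ∀ r, evp yy (i :: r) = yy i * evp yy r := fun r => by simp [evp]
      rw [e1, e1] at h
      rw [ih q (List.pairwise_cons.1 hp).2 (List.pairwise_cons.1 hq).2 (mul_left_cancel h)]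

/-- a group generated by a pair with the two relations that maps to the standard pair is `F` -/
theorem bij_of {G : Type*} [Group G] {a b : G} (h : FRel a b)
    (hgen : ∀ K : Subgroup G, a ∈ K → b ∈ K → K = ⊤) (ρ : G →* Sup 0 1) (ha : ρ a = yy 0)
    (hb : ρ b = yy 1) : Function.Bijective ρ := by
  have hx : ∀ n, ρ (xs a b n) = yy n := fun n => by rw [map_xs, ha, hb, xs_eq yy_rel]
  have hX : ∀ i j, i < j → xs a b j * xs a b i = xs a b i * xs a b (j + 1) :=
    fun i j hij => xs_rel h hij
  have hp : ∀ p, ρ (evp (xs a b) p) = evp yy p := by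
    intro p
    induction p with
    | nil => simp [evp]
    | cons i p ih =>
      simp only [evp, List.map_cons, List.prod_cons, map_mul, hx] at ih ⊢
      rw [ih]
  refine ⟨(injective_iff_map_eq_one ρ).2 fun g hg => ?_, ?_⟩
  · let K : Subgroup G :=
      { carrier := Set.range (ev (xs a b))
        mul_mem' := by
          rintro _ _ ⟨v, rfl⟩ ⟨w, rfl⟩
          exact ⟨v ++ w, ev_append _ _ _⟩
        one_mem' := ⟨[], rfl⟩
        inv_mem' := by
          rintro _ ⟨v, rfl⟩
          exact ⟨winv v, ev_winv _ _⟩ }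
    have hK : K = ⊤ := hgen K ⟨[(0, true)], by simp [ev, xs]⟩ ⟨[(1, true)], by simp [ev, xs]⟩
    obtain ⟨w, rfl⟩ : g ∈ K := hK ▸ Subgroup.mem_top g
    apply ev_eq_one hX
    rw [ev_nf hX, map_mul, map_inv, hp, hp, mul_inv_eq_one] at hg
    apply evp_inj _ _ (srt_sorted _) (srt_sorted _)
    rw [evp_srt yy_rel, evp_srt yy_rel, hg]
  · rw [← MonoidHom.range_eq_top]
    exact gen_yy _ fun k => ⟨_, hx k⟩

/-- a maximal subgroup that contains all commutators has finite index -/
theorem finiteIndex_of_comm {G : Type*} [Group G] (H : Subgroup G) (hH : IsCoatom H)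
    (hc : ∀ f g : G, f * g * f⁻¹ * g⁻¹ ∈ H) : H.FiniteIndex := by
  have hn : H.Normal := ⟨fun n hn g => by
    have := H.mul_mem (hc g n) hn
    simpa [mul_assoc] using this⟩
  obtain ⟨g, hg⟩ : ∃ g, g ∉ H := by
    by_contra hne
    push Not at hne
    exact hH.1 (eq_top_iff.2 fun x _ => hne x)
  have gen : ∀ x : G, x ∉ H → ∀ y : G ⧸ H, y ∈ Subgroup.zpowers (QuotientGroup.mk x : G ⧸ H) := by
    intro x hx y
    have h1 : H < (Subgroup.zpowers (QuotientGroup.mk x : G ⧸ H)).comap (QuotientGroup.mk' H) := by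
      refine lt_of_le_of_ne (fun z hz => ?_) fun e => hx ?_
      · show (QuotientGroup.mk z : G ⧸ H) ∈ Subgroup.zpowers (QuotientGroup.mk x : G ⧸ H)
        rw [(QuotientGroup.eq_one_iff z).2 hz]
        exact Subgroup.one_mem _
      · rw [e]
        exact Subgroup.mem_zpowers _
    obtain ⟨z, rfl⟩ := QuotientGroup.mk_surjective y
    have h2 := hH.2 _ h1
    have h3 : z ∈ (Subgroup.zpowers (QuotientGroup.mk x : G ⧸ H)).comap (QuotientGroup.mk' H) :=
      h2 ▸ Subgroup.mem_top z
    exact h3
  have hfin : IsOfFinOrder (QuotientGroup.mk g : G ⧸ H) := by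
    rw [isOfFinOrder_iff_zpow_eq_one]
    by_cases h2 : g * g ∈ H
    · refine ⟨2, two_ne_zero, ?_⟩
      rw [zpow_two, ← QuotientGroup.mk_mul]
      exact (QuotientGroup.eq_one_iff _).2 h2
    · obtain ⟨k, hk⟩ := gen _ h2 (QuotientGroup.mk g)
      refine ⟨2 * k - 1, by omega, ?_⟩
      simp only [QuotientGroup.mk_mul] at hk
      rw [zpow_sub, zpow_mul, zpow_two, hk, zpow_one, mul_inv_cancel]
  have h1 : (Subgroup.zpowers (QuotientGroup.mk g : G ⧸ H) : Set (G ⧸ H)).Finite :=
    finite_zpowers.2 hfin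
  have : Finite (G ⧸ H) := Set.finite_univ_iff.1 (h1.subset fun y _ => gen g hg y)
  exact Subgroup.finiteIndex_of_finite_quotient

/-- finitely generated maximal subgroups of a finitely presented copy of `F` are finitely
presented -/
theorem fp_coatom {G : Type} [Group G] [Group.IsFinitelyPresented G] (ρ : G →* Sup 0 1)
    (hρ : Function.Bijective ρ) (H : Subgroup G) (hfg : H.FG) (hH : IsCoatom H) :
    Group.IsFinitelyPresented H := by
  by_cases hc : ∀ f g : G, f * g * f⁻¹ * g⁻¹ ∈ H
  · have := finiteIndex_of_comm H hH hc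
    exact fp_finiteIndex H
  let φ : G →* P := (Sup 0 1).subtype.comp ρ
  have hφ : Function.Injective φ := Subtype.val_injective.comp hρ.1
  have hs : ∀ f ∈ Sup 0 1, ∃ g, φ g = f := fun f hf => by
    obtain ⟨g, hg⟩ := hρ.2 ⟨f, hf⟩
    exact ⟨g, congrArg Subtype.val hg⟩
  have hin : ∀ g, φ g ∈ Sup 0 1 := fun g => (ρ g).2
  have dich : ∀ K : Subgroup P, H.map φ ≤ K → K.comap φ = H ∨ Sup 0 1 ≤ K := by
    intro K hK
    have h1 : H ≤ K.comap φ := Subgroup.map_le_iff_le_comap.1 hK
    rcases h1.eq_or_lt with e | e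
    · exact Or.inl e.symm
    · refine Or.inr fun f hf => ?_
      obtain ⟨g, rfl⟩ := hs f hf
      have h2 : g ∈ K.comap φ := hH.2 _ e ▸ Subgroup.mem_top g
      exact h2
  have hM : MaxIn (H.map φ) := by
    refine ⟨?_, fun h => hH.1 (eq_top_iff.2 fun g _ => ?_), fun K h1 h2 => ?_⟩
    · rintro _ ⟨g, -, rfl⟩
      exact hin g
    · obtain ⟨g', hg', e⟩ := h (hin g)
      exact hφ e ▸ hg'
    · refine (dich K h1).imp_left fun e f hf => ?_
      obtain ⟨g, rfl⟩ := hs f (h2 hf)
      exact ⟨g, e ▸ (show g ∈ K.comap φ from hf), rfl⟩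
  have hB : CaseB (H.map φ) := by
    intro K h1 h2
    refine (dich K h1).resolve_left fun e => hc fun f g => ?_
    rw [← e]
    show φ _ ∈ K
    simpa only [map_mul, map_inv] using h2 _ (hin f) _ (hin g)
  have hfg' : (H.map φ).FG := by
    obtain ⟨S, hS, hSf⟩ := (Subgroup.fg_iff H).1 hfg
    exact (Subgroup.fg_iff _).2 ⟨φ '' S, by rw [← hS, MonoidHom.map_closure], hSf.image _⟩
  have := fp_caseB hM hB hfg'
  exact Group.IsFinitelyPresented.equiv (H.equivMapOfInjective φ hφ).symm

theorem fp_pres (rels : Set (FreeGroup (Fin 2))) (hfin : rels.Finite)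
    (h : ∀ (G : Type) [Group G] (f : Fin 2 → G),
      FRel (f 0) (f 1) ↔ ∀ r ∈ rels, FreeGroup.lift f r = 1)
    (H : Subgroup (PresentedGroup rels)) (hfg : H.FG) (hH : IsCoatom H) :
    Group.IsFinitelyPresented H := by
  have := hfin.to_subtype
  have h1 := (h _ ![yy 0, yy 1]).1 (frel_of yy_rel)
  have h2 : FRel (PresentedGroup.of 0 : PresentedGroup rels) (PresentedGroup.of 1) := by
    refine (h _ PresentedGroup.of).2 fun r hr => ?_
    have e : FreeGroup.lift (PresentedGroup.of : Fin 2 → PresentedGroup rels) =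
        PresentedGroup.mk rels := by
      ext i
      simp only [FreeGroup.lift_apply_of]
      rfl
    rw [e]
    exact PresentedGroup.one_of_mem hr
  refine fp_coatom (PresentedGroup.toGroup h1) (bij_of h2 (fun K h0 h1 => ?_) _
    (PresentedGroup.toGroup.of _) (PresentedGroup.toGroup.of _)) H hfg hH
  rw [eq_top_iff, ← PresentedGroup.closure_range_of, Subgroup.closure_le]
  rintro _ ⟨i, rfl⟩
  fin_cases i
  · exact h0
  · exact h1

end Pool.Agent.H828Z.MaxF
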