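import Pool.Agent.H828Z.MaxF.Alg
import Pool.Agent.Helper283.ThV.PLF

set_option autoImplicit false

/-! Trees, grafting, and products along trees for a family with the conjugation relations. -/

namespace Pool.Agent.H828Z.MaxF

open Pool.Agent.Helper283.PL

abbrev P := Equiv.Perm ℝ

theorem aff_half (w : List Bool) : 0 < aff w (1 / 2) ∧ aff w (1 / 2) < 1 :=
  ⟨lt_of_le_of_lt (aff_nonneg_10168 w) (aff_lt_10168 w (by norm_num)),
    lt_of_lt_of_le (aff_lt_10168 w (by norm_num)) (aff_le_one_10168 w)⟩

theorem aff_inj : ∀ v v' : List Bool, (∀ x, 0 ≤ x → x ≤ 1 → aff v x = aff v' x) → v = v'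
  | [], [], _ => rfl
  | [], b :: w, h => by
    have h0 := h 0 le_rfl zero_le_one
    have h1 := h 1 zero_le_one le_rfl
    have := aff_nonneg_10168 w
    have := aff_le_one_10168 w
    cases b <;> simp [aff] at h0 h1 <;> linarith
  | b :: w, [], h => by
    have h0 := h 0 le_rfl zero_le_one
    have h1 := h 1 zero_le_one le_rfl
    have := aff_nonneg_10168 w
    have := aff_le_one_10168 w
    cases b <;> simp [aff] at h0 h1 <;> linarith
  | b :: w, b' :: w', h => by
    have h0 := h (1 / 2) (by norm_num) (by norm_num)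
    have h1 := aff_half w
    have h2 := aff_half w'
    have hb : b = b' := by
      cases b <;> cases b' <;> simp only [aff] at h0 <;> simp at h0 ⊢ <;> linarith
    subst hb
    rw [aff_inj w w' fun x hx0 hx1 => by
      have := h x hx0 hx1
      simp only [aff] at this
      linarith]

theorem leaves_ne_nil : ∀ T : BT, T.leaves ≠ []
  | .leaf => by simp [BT.leaves]
  | .node l r => by simp [BT.leaves, leaves_ne_nil l]

def selB (b : Bool) : List Bool → Option (List Bool)
  | [] => none
  | c :: w => if c = b then some w else none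

theorem leaves_inj : ∀ T S : BT, T.leaves = S.leaves → T = S
  | .leaf, .leaf, _ => rfl
  | .leaf, .node l r, h => by
    have := congrArg List.length h
    have h1 := List.length_pos_iff.2 (leaves_ne_nil l)
    have h2 := List.length_pos_iff.2 (leaves_ne_nil r)
    simp [BT.leaves] at this
    omega
  | .node l r, .leaf, h => by
    have := congrArg List.length h
    have h1 := List.length_pos_iff.2 (leaves_ne_nil l)
    have h2 := List.length_pos_iff.2 (leaves_ne_nil r)
    simp [BT.leaves] at this
    omega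
  | .node l r, .node l' r', h => by
    have h1 := congrArg (List.filterMap (selB false)) h
    have h2 := congrArg (List.filterMap (selB true)) h
    simp [BT.leaves, List.filterMap_append, List.filterMap_map, Function.comp_def, selB] at h1 h2
    rw [leaves_inj l l' h1, leaves_inj r r' h2]

theorem treeMap_unique {g : ℝ → ℝ} {U S S' : BT} (h : TreeMap g U S) (h' : TreeMap g U S') :
    S = S' := by
  apply leaves_inj
  unfold TreeMap at h h'
  generalize U.leaves = l, S.leaves = l1, S'.leaves = l2 at h h'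
  induction h generalizing l2 with
  | nil => cases h'; rfl
  | cons h1 _ ih =>
    cases h' with
    | cons h2 h3 =>
      rw [ih _ h3, aff_inj _ _ fun x h0 h1' => (h1 x h0 h1').symm.trans (h2 x h0 h1')]

/-- number of leaves -/
def nl (T : BT) : ℕ := T.leaves.length

theorem nl_node (l r : BT) : nl (.node l r) = nl l + nl r := by simp [nl, BT.leaves]

/-- graft a list of trees on the leaves -/
def graft : BT → List BT → BT
  | .leaf, ts => ts.headD .leaf
  | .node l r, ts => .node (graft l (ts.take (nl l))) (graft r (ts.drop (nl l)))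

theorem graft_node (l r : BT) (t1 t2 : List BT) (h : t1.length = nl l) :
    graft (.node l r) (t1 ++ t2) = .node (graft l t1) (graft r t2) := by
  simp [graft, ← h]

theorem split_len {α : Type*} (ts : List α) (m n : ℕ) (h : ts.length = m + n) :
    ∃ t1 t2, ts = t1 ++ t2 ∧ t1.length = m ∧ t2.length = n :=
  ⟨ts.take m, ts.drop m, by simp, by simp; omega, by simp; omega⟩

theorem leaves_graft : ∀ (T : BT) (ts : List BT), ts.length = nl T →
    (graft T ts).leaves = (List.zip T.leaves ts).flatMap fun p => p.2.leaves.map (p.1 ++ ·)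
  | .leaf, ts, h => by
    match ts, h with
    | [t], _ => simp [graft, BT.leaves]
  | .node l r, ts, h => by
    obtain ⟨t1, t2, rfl, h1, h2⟩ := split_len ts _ _ (h.trans (nl_node l r))
    rw [graft_node _ _ _ _ h1]
    simp only [BT.leaves]
    rw [leaves_graft l t1 h1, leaves_graft r t2 h2, List.zip_append (by simp [h1, nl]),
      List.flatMap_append, List.zip_map_left, List.zip_map_left]
    simp [List.map_flatMap, List.flatMap_map, Function.comp_def]

theorem treeMap_graft {g : ℝ → ℝ} {T S : BT} (h : TreeMap g T S) (ts : List BT)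
    (hts : ts.length = nl T) : TreeMap g (graft T ts) (graft S ts) := by
  have hl : nl T = nl S := h.length_eq
  unfold TreeMap at h ⊢
  rw [leaves_graft T ts hts, leaves_graft S ts (hts.trans hl)]
  clear hts hl
  generalize T.leaves = l1, S.leaves = l2 at h
  induction h generalizing ts with
  | nil => simp
  | @cons u v _ _ h1 _ ih =>
    cases ts with
    | nil => simp
    | cons t ts =>
      simp only [List.zip_cons_cons, List.flatMap_cons]
      refine List.rel_append ?_ (ih ts)
      rw [List.forall₂_map_left_iff, List.forall₂_map_right_iff, List.forall₂_same]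
      intro w _ x h0 h1'
      rw [aff_append_10168, aff_append_10168]
      exact h1 _ (aff_bd_10169 w x h0 h1').1 (aff_bd_10169 w x h0 h1').2

theorem graft_leaves : ∀ T : BT, graft T (List.replicate (nl T) .leaf) = T
  | .leaf => rfl
  | .node l r => by
    rw [nl_node, List.replicate_add, graft_node _ _ _ _ (by simp), graft_leaves l, graft_leaves r]

theorem common : ∀ T S : BT, ∃ ts ss : List BT, ts.length = nl T ∧ ss.length = nl S ∧
    graft T ts = graft S ss
  | .leaf, S => ⟨[S], List.replicate (nl S) .leaf, rfl, by simp, by rw [graft_leaves]; rfl⟩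
  | .node l r, .leaf => ⟨List.replicate (nl (.node l r)) .leaf, [.node l r], by simp, rfl, by
      rw [graft_leaves]; rfl⟩
  | .node l r, .node l' r' => by
    obtain ⟨t1, s1, h1, h2, h3⟩ := common l l'
    obtain ⟨t2, s2, h4, h5, h6⟩ := common r r'
    refine ⟨t1 ++ t2, s1 ++ s2, by simp [nl_node, h1, h4], by simp [nl_node, h2, h5], ?_⟩
    rw [graft_node _ _ _ _ h1, graft_node _ _ _ _ h2, h3, h6]

section prod

variable {L R Q : Type} (ι : Q → L) (c0 c1 : Q → Q) (lam : Q → R)

/-- states of the leaves -/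
def sl : Q → BT → List Q
  | q, .leaf => [q]
  | q, .node l r => sl (c0 q) l ++ sl (c1 q) r

theorem sl_length : ∀ (q : Q) (T : BT), (sl c0 c1 q T).length = nl T
  | _, .leaf => rfl
  | q, .node l r => by simp [sl, nl_node, sl_length]

variable {H : Type*} [Group H] (X : R → List L → H)

/-- product along a tree -/
def pp : Q → BT → List L → H
  | _, .leaf, _ => 1
  | q, .node l r, W => X (lam q) W * pp (c0 q) l (ι (c1 q) :: W) * pp (c1 q) r W

/-- product along a forest -/
def pf : List (Q × BT) → List L → H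
  | [], _ => 1
  | z :: zs, W => pp ι c0 c1 lam X z.1 z.2 (zs.map (fun y => ι y.1) ++ W) * pf zs W

theorem map_pp {K : Type*} [Group K] (π : H →* K) (Y : R → List L → K)
    (h : ∀ r W, π (X r W) = Y r W) : ∀ (q : Q) (T : BT) (W : List L),
      π (pp ι c0 c1 lam X q T W) = pp ι c0 c1 lam Y q T W
  | _, .leaf, _ => by simp [pp]
  | q, .node l r, W => by simp [pp, h, map_pp π Y h]

theorem pf_append (z1 z2 : List (Q × BT)) (W : List L) :
    pf ι c0 c1 lam X (z1 ++ z2) W =
      pf ι c0 c1 lam X z1 (z2.map (fun y => ι y.1) ++ W) * pf ι c0 c1 lam X z2 W := by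
  induction z1 with
  | nil => simp [pf]
  | cons z zs ih => simp [pf, ih, mul_assoc]

variable {a b e : R → L} (hX : Rel a b e X) (ha : ∀ q, a (lam q) = ι (c0 q))
  (hb : ∀ q, b (lam q) = ι (c1 q)) (he : ∀ q, e (lam q) = ι q)
include hX ha hb he

theorem X_comm (r : R) : ∀ (q : Q) (T : BT) (v W : List L),
    X r (v ++ ι q :: W) * pp ι c0 c1 lam X q T W =
      pp ι c0 c1 lam X q T W * X r (v ++ ((sl c0 c1 q T).map ι ++ W))
  | _, .leaf, _, _ => by simp [pp, sl]
  | q, .node l r', v, W => by
    have h1 := hX r (lam q) v W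
    rw [ha, hb, he] at h1
    have h2 := X_comm r (c0 q) l v (ι (c1 q) :: W)
    have h3 := X_comm r (c1 q) r' (v ++ (sl c0 c1 (c0 q) l).map ι) W
    simp only [List.append_assoc] at h3
    simp only [pp, sl, List.map_append, List.append_assoc]
    calc _ = X (lam q) W * (((X (lam q) W)⁻¹ * X r (v ++ ι q :: W) * X (lam q) W) *
          pp ι c0 c1 lam X (c0 q) l (ι (c1 q) :: W)) * pp ι c0 c1 lam X (c1 q) r' W := by group
      _ = _ := by rw [← h1, h2, mul_assoc, mul_assoc, h3]; group

theorem pp_comm (q : Q) (T : BT) (W : List L) : ∀ (q' : Q) (t : BT) (v : List L),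
    pp ι c0 c1 lam X q' t (v ++ ι q :: W) * pp ι c0 c1 lam X q T W =
      pp ι c0 c1 lam X q T W * pp ι c0 c1 lam X q' t (v ++ ((sl c0 c1 q T).map ι ++ W))
  | _, .leaf, _ => by simp [pp]
  | q', .node l r, v => by
    have h1 := X_comm ι c0 c1 lam X hX ha hb he (lam q') q T v W
    have h2 := pp_comm q T W (c0 q') l (ι (c1 q') :: v)
    have h3 := pp_comm q T W (c1 q') r v
    simp only [List.cons_append] at h2
    simp only [pp]
    rw [mul_assoc, h3, mul_assoc, ← mul_assoc (pp ι c0 c1 lam X (c0 q') l _), h2, ← mul_assoc,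
      ← mul_assoc, h1]
    group

theorem pf_comm (q : Q) (T : BT) (W : List L) (z : List (Q × BT)) :
    pf ι c0 c1 lam X z (ι q :: W) * pp ι c0 c1 lam X q T W =
      pp ι c0 c1 lam X q T W * pf ι c0 c1 lam X z ((sl c0 c1 q T).map ι ++ W) := by
  induction z with
  | nil => simp [pf]
  | cons z zs ih =>
    simp only [pf]
    rw [mul_assoc, ih, ← mul_assoc, pp_comm ι c0 c1 lam X hX ha hb he, mul_assoc]

theorem pp_graft : ∀ (q : Q) (T : BT) (W : List L) (ts : List BT), ts.length = nl T →
    pp ι c0 c1 lam X q (graft T ts) W =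
      pp ι c0 c1 lam X q T W * pf ι c0 c1 lam X (List.zip (sl c0 c1 q T) ts) W
  | q, .leaf, W, ts, h => by
    match ts, h with
    | [t], _ => simp [graft, pp, pf, sl]
  | q, .node l r, W, ts, h => by
    obtain ⟨t1, t2, rfl, h1, h2⟩ := split_len ts _ _ (h.trans (nl_node l r))
    rw [graft_node _ _ _ _ h1]
    simp only [pp, sl]
    rw [pp_graft _ l _ t1 h1, pp_graft _ r _ t2 h2, List.zip_append (by rw [sl_length, h1]),
      pf_append]
    have h3 : (List.zip (sl c0 c1 (c1 q) r) t2).map (fun y => ι y.1) =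
        (sl c0 c1 (c1 q) r).map ι := by
      have : (fun y : Q × BT => ι y.1) = ι ∘ Prod.fst := rfl
      rw [this, ← List.map_map, List.map_fst_zip (by rw [sl_length, h2])]
    rw [h3]
    have h4 := pf_comm ι c0 c1 lam X hX ha hb he (c1 q) r W (List.zip (sl c0 c1 (c0 q) l) t1)
    calc _ = X (lam q) W * pp ι c0 c1 lam X (c0 q) l (ι (c1 q) :: W) *
        (pf ι c0 c1 lam X (List.zip (sl c0 c1 (c0 q) l) t1) (ι (c1 q) :: W) *
          pp ι c0 c1 lam X (c1 q) r W) * pf ι c0 c1 lam X (List.zip (sl c0 c1 (c1 q) r) t2) W := by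
          group
      _ = _ := by rw [h4]; group

/-- the section: a homomorphism from a group of tree maps compatible with the states -/
theorem exists_section (M : Subgroup P) (hM : M ≤ Sup 0 1) (ρ : Q)
    (hst : ∀ g ∈ M, ∀ T S, TreeMap (g : P) T S → sl c0 c1 ρ T = sl c0 c1 ρ S) :
    ∃ σ : M →* H, ∀ (g : M) T S, TreeMap (g.1 : P) T S →
      σ g = pp ι c0 c1 lam X ρ S [] * (pp ι c0 c1 lam X ρ T [])⁻¹ := by
  have refine : ∀ (g : M) T S ts, TreeMap (g.1 : P) T S → ts.length = nl T →
      pp ι c0 c1 lam X ρ (graft S ts) [] * (pp ι c0 c1 lam X ρ (graft T ts) [])⁻¹ =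
        pp ι c0 c1 lam X ρ S [] * (pp ι c0 c1 lam X ρ T [])⁻¹ := by
    intro g T S ts h hts
    have hl : nl T = nl S := h.length_eq
    rw [pp_graft ι c0 c1 lam X hX ha hb he _ _ _ _ hts,
      pp_graft ι c0 c1 lam X hX ha hb he _ _ _ _ (hts.trans hl), hst g.1 g.2 T S h]
    group
  have indep : ∀ (g : M) T S T' S', TreeMap (g.1 : P) T S → TreeMap (g.1 : P) T' S' →
      pp ι c0 c1 lam X ρ S [] * (pp ι c0 c1 lam X ρ T [])⁻¹ =
        pp ι c0 c1 lam X ρ S' [] * (pp ι c0 c1 lam X ρ T' [])⁻¹ := by
    intro g T S T' S' h h'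
    obtain ⟨ts, ss, h1, h2, h3⟩ := common T T'
    have h4 := treeMap_graft h ts h1
    have h5 := treeMap_graft h' ss h2
    rw [← h3] at h5
    rw [← refine g T S ts h h1, ← refine g T' S' ss h' h2, ← h3, treeMap_unique h4 h5]
  choose T S hTS using fun g : M => exists_trees (hM g.2)
  refine ⟨MonoidHom.mk' (fun g => pp ι c0 c1 lam X ρ (S g) [] * (pp ι c0 c1 lam X ρ (T g) [])⁻¹) ?_,
    fun g T' S' h => indep g _ _ _ _ (hTS g) h⟩
  intro g1 g2
  obtain ⟨ts, ss, h1, h2, h3⟩ := common (S g2) (T g1)
  have hl : nl (T g2) = nl (S g2) := (hTS g2).length_eq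
  have h4 := treeMap_graft (hTS g2) ts (h1.trans hl.symm)
  have h5 := treeMap_graft (hTS g1) ss h2
  rw [h3] at h4
  have h6 := TreeMap_trans10170 h4 h5
  rw [indep (g1 * g2) _ _ _ _ (hTS (g1 * g2)) h6, ← refine g1 _ _ ss (hTS g1) h2,
    ← refine g2 _ _ ts (hTS g2) (h1.trans hl.symm), h3]
  group

end prod

end Pool.Agent.H828Z.MaxF
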